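import Pool.Agent.P.MP_c76d8c_an.AA.Defs
import Pool.Agent.P.MP_a14ce1_nt.Nil.BSG

/-! A large subset with small difference set, from the pair count. -/

namespace Pool.Agent.P.MP_c76d8c_an.AA

open Finset Matrix
open scoped ComplexConjugate Pointwise
open Pool.Agent.P.MP_a14ce1_nt.Nil

namespace BsgP

theorem ch_neg {Q : ℕ} [NeZero Q] (k : Fin 3 → ℤ) (x : Fin 3 → ZMod Q) :
    ch k (-x) = conj (ch k x) := by
  unfold ch
  rw [← AddChar.map_neg_eq_conj, ← sum_neg_distrib]
  simp only [Pi.neg_apply, mul_neg]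

theorem pairs {V : Type} [AddCommGroup V] [DecidableEq V] (X Z : Finset V) :
    ((X ×ˢ X).filter fun q => q.1 + -q.2 ∈ Z).card ≤ ∑ s ∈ (X - X) ∩ Z, BSGP.rr X s := by
  rw [card_eq_sum_card_fiberwise (f := fun q : V × V => q.1 + -q.2) (t := (X - X) ∩ Z)]
  · refine sum_le_sum fun s _ => card_le_card_of_injOn Prod.fst (fun q hq => ?_)
      fun q hq q' hq' e => ?_
    · obtain ⟨h1, h2⟩ := mem_filter.1 (mem_coe.1 hq)
      have h3 := mem_product.1 (mem_filter.1 h1).1
      exact mem_coe.2 (mem_filter.2 ⟨h3.1, by rw [← h2]; simpa using h3.2⟩)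
    · have h := (mem_filter.1 (mem_coe.1 hq)).2.trans (mem_filter.1 (mem_coe.1 hq')).2.symm
      rw [e, add_right_inj, neg_inj] at h
      exact Prod.ext e h
  · intro q hq
    obtain ⟨h1, h2⟩ := mem_filter.1 (mem_coe.1 hq)
    have h3 := mem_product.1 h1
    exact mem_coe.2 (mem_inter.2 ⟨mem_sub.2 ⟨_, h3.1, _, h3.2, sub_eq_add_neg _ _⟩, h2⟩)

theorem energy {V : Type} [AddCommGroup V] [DecidableEq V] (X Z : Finset V) :
    (((X ×ˢ X).filter fun q => q.1 + -q.2 ∈ Z).card : ℝ) ^ 2 ≤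
      Z.card * ∑ s ∈ X - X, (BSGP.rr X s : ℝ) ^ 2 := by
  have h : (((X ×ˢ X).filter fun q => q.1 + -q.2 ∈ Z).card : ℝ) ≤
      ∑ s ∈ (X - X) ∩ Z, (BSGP.rr X s : ℝ) := by exact_mod_cast pairs X Z
  refine (pow_le_pow_left₀ (by positivity) h 2).trans (sq_sum_le_card_mul_sum_sq.trans ?_)
  exact mul_le_mul (Nat.cast_le.2 (card_le_card inter_subset_right))
    (sum_le_sum_of_subset_of_nonneg inter_subset_left fun _ _ _ => by positivity)
    (by positivity) (by positivity)

end BsgP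

open BsgP in
theorem bsg (h : S_Cor) : S_Bsg := by
  intro n Q _ D F hn hD hF hS hB X ε hX hH
  have hN : 0 < √(n : ℝ) := Real.sqrt_pos.2 (by exact_mod_cast hn)
  have hx : (0 : ℝ) < X.card := by exact_mod_cast hX.card_pos
  have h1 := (pow_le_pow_left₀ (by positivity) (hH.2 X subset_rfl) 2).trans
    (sq_sum_le_card_mul_sum_sq.trans (mul_le_mul_of_nonneg_right hS (by positivity)))
  obtain ⟨c, hc, h2⟩ := h n Q D (D ^ 3) hn hD (by positivity) hS X ε (fun x => conj (ε x))
    Neg.neg (Sph n) subset_rfl hH.1 (fun x => by simpa using hH.1 x) (by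
      refine le_trans (le_of_mul_le_mul_left (le_trans (le_of_eq ?_) h1) (by positivity))
        (le_of_eq (sum_congr rfl fun ξ _ => ?_))
      · field_simp
      · simp only [ch_neg, ← map_mul, ← map_sum, Complex.norm_conj]
        exact sq _)
  have h3 := (pow_le_pow_left₀ (by positivity) h2 2).trans ((energy X _).trans
    (mul_le_mul_of_nonneg_right (hB c hc) (by positivity)))
  obtain ⟨B, h4, h5, h6⟩ := BSGP.core hX (d := X.card / (4 * D ^ 8 * F)) (by positivity)
    (le_of_mul_le_mul_left (le_trans (le_of_eq (by field_simp; norm_num)) h3) hF)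
  refine ⟨B, h4, le_trans (le_of_eq (by field_simp; norm_num)) h5, h6.trans
    (le_trans (le_of_eq ?_) (mul_le_mul_of_nonneg_left h5 (by positivity)))⟩
  field_simp
  norm_num

end Pool.Agent.P.MP_c76d8c_an.AA
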