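import Pool.Agent.P.MP_c76d8c_an.AA.Defs

/-! Covering lemmas from the inequalities of Pluennecke and Ruzsa. -/

namespace Pool.Agent.P.MP_c76d8c_an.AA

open Finset
open scoped Pointwise

namespace CovP

variable {V : Type} [AddCommGroup V] [DecidableEq V] {A B W : Finset V} {K : ℝ}

theorem pr (hA : A.Nonempty) (h : ((A + W).card : ℝ) ≤ K * A.card) (m n : ℕ) :
    ((m • W - n • W).card : ℝ) ≤ K ^ (m + n) * A.card := by
  have h0 : (0 : ℝ) < A.card := Nat.cast_pos.2 hA.card_pos
  have h1 := (NNRat.cast_le (K := ℝ)).2 (pluennecke_ruzsa_inequality_nsmul_sub_nsmul_add hA W m n)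
  push_cast at h1
  exact h1.trans (mul_le_mul_of_nonneg_right
    (pow_le_pow_left₀ (by positivity) ((div_le_iff₀ h0).2 h) _) h0.le)

theorem pr' (hA : A.Nonempty) (h : ((A - W).card : ℝ) ≤ K * A.card) (m n : ℕ) :
    ((n • W - m • W).card : ℝ) ≤ K ^ (m + n) * A.card := by
  have := pr (W := -W) hA (by rwa [← sub_eq_add_neg]) m n
  rwa [neg_nsmul, neg_nsmul, neg_sub_neg] at this

theorem add_le {a b : ℝ} (h : (A.card : ℝ) ≤ a) (h' : (B.card : ℝ) ≤ b) :
    ((A + B).card : ℝ) ≤ a * b :=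
  le_trans (by exact_mod_cast card_add_le)
    (mul_le_mul h h' (Nat.cast_nonneg _) ((Nat.cast_nonneg _).trans h))

end CovP

open CovP in
theorem cov : S_Cov := by
  intro V _ _ B K hB hK h
  have h0 : (0 : ℝ) < B.card := Nat.cast_pos.2 hB.card_pos
  refine ⟨fun φ hφ h1 => ?_, fun g g' t t' ⟨T, hT, e⟩ ⟨T', hT', e'⟩ => ?_,
    fun g g' t t' ⟨T, hT, e⟩ ⟨T', hT', e'⟩ => ?_, fun g t ⟨T, hT, e⟩ => ?_⟩
  · have h2 := pr hB h1 2 1
    have h3 := (Nat.cast_le (α := ℝ)).2
      (ruzsa_triangle_inequality_sub_add_add B (B.image φ) (B.image φ - B.image φ))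
    have h4 : (B.image φ).card = B.card := card_image_of_injective _ hφ
    have h5 : ∀ u ∈ B - B, φ u ∈ B.image φ - B.image φ := fun u hu => by
      obtain ⟨b, hb, b', hb', rfl⟩ := mem_sub.1 hu
      rw [map_sub]
      exact sub_mem_sub (mem_image_of_mem _ hb) (mem_image_of_mem _ hb')
    generalize B.image φ = W at *
    rw [Nat.cast_mul, Nat.cast_mul, h4, sub_eq_add_neg B, neg_sub, add_comm B (W - W),
      show W - W + W = 2 • W - 1 • W by rw [two_nsmul, one_nsmul, sub_add_eq_add_sub]] at h3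
    obtain ⟨F, -, hF, hs⟩ := ruzsa_covering_add (A := W - W) (K := K ^ 4) hB
      (le_of_mul_le_mul_right (h3.trans ((mul_le_mul h1 h2 (Nat.cast_nonneg _)
        (by positivity)).trans_eq (by ring))) h0)
    exact ⟨F, hF, fun u hu => hs (h5 u hu)⟩
  · obtain ⟨F, -, hF, hs⟩ := ruzsa_covering_add (A := B - B - (B - B)) (K := K ^ 5) hB (by
      have := pr' hB h 2 3
      rwa [show 3 • B - 2 • B = B - B - (B - B) + B by
        simp only [succ_nsmul, zero_nsmul, zero_add, sub_eq_add_neg, neg_add, neg_neg]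
        ac_rfl] at this)
    refine ⟨T + -T' + F, (add_le (add_le hT ((card_neg T').symm ▸ hT')) hF).trans_eq (by ring),
      fun u hu => ?_⟩
    obtain ⟨a, ha, w, hw, e1⟩ := mem_add.1 (e u hu)
    obtain ⟨a', ha', w', hw', e2⟩ := mem_add.1 (e' u hu)
    have := add_mem_add (add_mem_add ha (neg_mem_neg ha')) (hs (sub_mem_sub hw hw'))
    rw [← add_assoc] at this
    convert this using 1
    simp only [← e1, ← e2]
    abel
  · refine ⟨T'.image g + T, (add_le ((Nat.cast_le.2 card_image_le).trans hT') hT).trans_eq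
      (by ring), fun u hu => ?_⟩
    obtain ⟨a, ha, w, hw, e1⟩ := mem_add.1 (e' u hu)
    simp only [← e1, map_add, add_assoc]
    exact add_mem_add (mem_image_of_mem _ ha) (e w hw)
  · have h1 : B + (B - B).image g ⊆ T + (2 • B - 1 • B) := by
      rw [two_nsmul, one_nsmul, add_sub_assoc, add_left_comm]
      exact add_subset_add_left (image_subset_iff.2 e)
    exact (Nat.cast_le.2 (card_le_card h1)).trans ((add_le hT (pr' hB h 1 2)).trans_eq (by ring))

end Pool.Agent.P.MP_c76d8c_an.AA
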