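import Pool.Agent.P.MP_c76d8c_an.AA.Defs

/-! Euler descent in a left ideal of the Lipschitz quaternions. -/

namespace Pool.Agent.P.MP_c76d8c_an.AA

namespace DescP

open Quaternion

/-- centred residues -/
theorem rd (x : ℤ) {m : ℤ} (hm : 0 < m) : ∃ b g, x = b + m * g ∧ 4 * b ^ 2 ≤ m ^ 2 := by
  have h1 := Int.emod_nonneg x hm.ne'
  have h2 := Int.emod_lt_of_pos x hm
  have h3 := Int.emod_add_mul_ediv x m
  by_cases h : 2 * (x % m) ≤ m
  · exact ⟨x % m, x / m, h3.symm, by nlinarith⟩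
  · exact ⟨x % m - m, x / m + 1, by linarith, by nlinarith⟩

theorem dv {b m : ℤ} (h : b ^ 2 = 0 ∨ 4 * b ^ 2 = m ^ 2) : ∃ e, 2 * b = m * e := by
  rcases h with h | h
  · exact ⟨0, by simpa using h⟩
  · rcases sq_eq_sq_iff_eq_or_eq_neg.1 (show (2 * b) ^ 2 = m ^ 2 by linarith) with e | e
    exacts [⟨1, by linarith⟩, ⟨-1, by linarith⟩]

/-- centred residues of quaternions -/
theorem rdq (α : Quaternion ℤ) {m : ℤ} (hm : 0 < m) : ∃ β γ : Quaternion ℤ, α = β + m • γ ∧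
    normSq β ≤ m ^ 2 ∧ (normSq β = 0 ∨ normSq β = m ^ 2 → ∃ ε, (2 : ℤ) • β = m • ε) := by
  obtain ⟨b0, g0, e0, h0⟩ := rd α.re hm
  obtain ⟨b1, g1, e1, h1⟩ := rd α.imI hm
  obtain ⟨b2, g2, e2, h2⟩ := rd α.imJ hm
  obtain ⟨b3, g3, e3, h3⟩ := rd α.imK hm
  have e : normSq (⟨b0, b1, b2, b3⟩ : Quaternion ℤ) = b0 ^ 2 + b1 ^ 2 + b2 ^ 2 + b3 ^ 2 :=
    normSq_def' _
  refine ⟨⟨b0, b1, b2, b3⟩, ⟨g0, g1, g2, g3⟩, by ext <;> simpa, e.trans_le (by linarith),
    fun h' => ?_⟩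
  · have h := h'.imp e.symm.trans e.symm.trans
    have p0 := sq_nonneg b0
    have p1 := sq_nonneg b1
    have p2 := sq_nonneg b2
    have p3 := sq_nonneg b3
    obtain ⟨c0, f0⟩ := dv (b := b0) (m := m) (h.imp (fun _ => by linarith) fun _ => by linarith)
    obtain ⟨c1, f1⟩ := dv (b := b1) (m := m) (h.imp (fun _ => by linarith) fun _ => by linarith)
    obtain ⟨c2, f2⟩ := dv (b := b2) (m := m) (h.imp (fun _ => by linarith) fun _ => by linarith)
    obtain ⟨c3, f3⟩ := dv (b := b3) (m := m) (h.imp (fun _ => by linarith) fun _ => by linarith)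
    exact ⟨⟨c0, c1, c2, c3⟩, Quaternion.ext _ _ f0 f1 f2 f3⟩

/-- the norms in one step of the descent -/
theorem nrm {β γ : Quaternion ℤ} {m l : ℤ} (h : normSq (β + m • γ) = m * l) :
    ∃ t, normSq β = m * t ∧ normSq (l • (1 : Quaternion ℤ) - star γ * (β + m • γ)) = t * l ∧
      ∀ ε, (2 : ℤ) • β = m • ε → m ∣ l - t := by
  refine ⟨l - 2 * (β.re * γ.re + β.imI * γ.imI + β.imJ * γ.imJ + β.imK * γ.imK) - m * normSq γ,
    ?_, ?_, fun ε e => ?_⟩
  · simp only [normSq_def'] at h ⊢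
    simp at h
    linear_combination h
  · simp only [normSq_def'] at h ⊢
    simp at h ⊢
    linear_combination (γ.re ^ 2 + γ.imI ^ 2 + γ.imJ ^ 2 + γ.imK ^ 2) * h
  · have h1 := congrArg QuaternionAlgebra.re e
    have h2 := congrArg QuaternionAlgebra.imI e
    have h3 := congrArg QuaternionAlgebra.imJ e
    have h4 := congrArg QuaternionAlgebra.imK e
    simp only [re_smul, imI_smul, imJ_smul, imK_smul, smul_eq_mul] at h1 h2 h3 h4
    exact ⟨ε.re * γ.re + ε.imI * γ.imI + ε.imJ * γ.imJ + ε.imK * γ.imK + normSq γ, by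
      linear_combination γ.re * h1 + γ.imI * h2 + γ.imJ * h3 + γ.imK * h4⟩

/-- the descent -/
theorem down {l : ℕ} (hl : l.Prime) (w : Quaternion ℤ) (m : ℕ) : ∀ α β : Quaternion ℤ,
    normSq α = m * l → 0 < m → m < l → α * w = (l : ℤ) • β →
    ∃ α β : Quaternion ℤ, normSq α = l ∧ α * w = (l : ℤ) • β := by
  induction m using Nat.strong_induction_on with
  | _ m ih =>
    intro α δ h h0 h1 e
    by_cases hm : m = 1
    · exact ⟨α, δ, by simpa [hm] using h, e⟩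
    have m0 : (0 : ℤ) < m := by exact_mod_cast h0
    obtain ⟨β, γ, rfl, hβ, hε⟩ := rdq α m0
    obtain ⟨t, h2, h3, h4⟩ := nrm h
    have t0 : 0 ≤ t := le_of_mul_le_mul_left (by rw [← h2, mul_zero]; exact normSq_nonneg) m0
    have t1 : t ≤ m := le_of_mul_le_mul_left (by rw [← h2, ← sq]; exact hβ) m0
    have nd : ¬ (t = 0 ∨ t = m) := fun a => by
      obtain ⟨ε, hε⟩ := hε (a.imp (fun a => by rw [h2, a, mul_zero]) fun a => by rw [h2, a, sq])
      have h5 : (m : ℤ) ∣ l := by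
        have := (h4 ε hε).add (show (m : ℤ) ∣ t by rcases a with a | a <;> simp [a])
        rwa [sub_add_cancel] at this
      rcases (Nat.dvd_prime hl).1 (Int.natCast_dvd_natCast.1 h5) with a | a <;> omega
    lift t to ℕ using t0
    refine ih t (by omega) _ (w - star γ * δ) h3 (by omega) (by omega) ?_
    rw [sub_mul, mul_assoc, e, smul_mul_assoc, one_mul, mul_smul_comm, smul_sub]

end DescP

open DescP Quaternion in
theorem desc : S_Desc := by
  intro l w hl h2 ⟨s, hs⟩ hw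
  have l0 : (0 : ℤ) < l := by exact_mod_cast hl.pos
  obtain ⟨β, γ, e, hβ, hε⟩ := rdq (star w) l0
  obtain ⟨t, h3, -, -⟩ := nrm (β := β) (γ := γ) (m := l) (l := s) (by rw [← e, normSq_star, hs])
  have t0 : 0 ≤ t := le_of_mul_le_mul_left (by rw [← h3, mul_zero]; exact normSq_nonneg) l0
  have t1 : t ≤ l := le_of_mul_le_mul_left (by rw [← h3, ← sq]; exact hβ) l0
  have nd : ¬ (t = 0 ∨ t = l) := fun a => by
    obtain ⟨ε, hε⟩ := hε (a.imp (fun a => by rw [h3, a, mul_zero]) fun a => by rw [h3, a, sq])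
    obtain ⟨j, hj⟩ := hl.odd_of_ne_two h2
    have h4 : β = (l : ℤ) • (β - (j : ℤ) • ε) := by
      rw [smul_sub, smul_comm, ← hε, smul_smul, ← sub_smul, hj]
      push_cast
      rw [show (2 * j + 1 - j * 2 : ℤ) = 1 by ring, one_smul]
    refine hw ⟨star (β - (j : ℤ) • ε + γ), ?_⟩
    rw [← star_star w, e, ← star_zsmul, smul_add, ← h4]
  lift t to ℕ using t0
  refine down hl w t β (s • (1 : Quaternion ℤ) - γ * w) (by rw [h3, mul_comm]) (by omega) (by omega) ?_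
  rw [eq_sub_of_add_eq e.symm, sub_mul, star_mul_eq, hs, smul_sub, smul_smul, smul_mul_assoc]

end Pool.Agent.P.MP_c76d8c_an.AA
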