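import Pool.Agent.P.MP_c76d8c_an.AA.Defs

/-! The moment bound on the grid. -/

namespace Pool.Agent.P.MP_c76d8c_an.AA

open Finset Matrix

namespace FinP

theorem pw {x y M p : ℝ} (hx : 0 ≤ x) (hy : 0 ≤ y) (hM : 0 ≤ M) (hp : 0 ≤ p)
    (h : x ^ 2 ≤ y * M ^ 2) : x ^ p ≤ y ^ (p / 2) * M ^ p := by
  have e : ∀ z : ℝ, 0 ≤ z → (z ^ 2) ^ (p / 2) = z ^ p := fun z hz => by
    rw [← Real.rpow_natCast, ← Real.rpow_mul hz]; congr 1; push_cast; ring
  rw [← e x hx, ← e M hM, ← Real.mul_rpow hy (by positivity)]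
  exact Real.rpow_le_rpow (by positivity) h (by positivity)

theorem triv {p q : ℝ} (hp : 0 < p) (hq : 0 < q) : ∃ A : ℝ, 0 < A ∧ ∀ n : ℕ, 1 ≤ n →
    ∀ (Q : ℕ) [NeZero Q] (S : Finset (Fin 3 → ℤ)) (c : (Fin 3 → ℤ) → ℂ), (∀ b ∈ S, b ⬝ᵥ b = n) →
      ∀ x : Fin 3 → ZMod Q, ‖fs id c S x‖ ^ p ≤ A * √(n : ℝ) ^ (p / 2 + q) * nr c S ^ p := by
  obtain ⟨C, hC, h⟩ := circ_exists (δ := q / p) (by positivity)
  refine ⟨(3 * C) ^ (p / 2), by positivity, fun n hn Q _ S c hS x => ?_⟩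
  have hn' : (0 : ℝ) < n := by exact_mod_cast hn
  have hN : 0 < √(n : ℝ) := Real.sqrt_pos.2 hn'
  have h1 := card_sphere_le' hn (by positivity) (h n hn) hS
  have h2 : (n : ℝ) ^ (q / p) = √(n : ℝ) ^ (2 * (q / p)) := by
    rw [Real.rpow_mul hN.le, Real.rpow_two, Real.sq_sqrt hn'.le]
  have h3 : ‖fs id c S x‖ ^ 2 ≤ 3 * C * √(n : ℝ) ^ (1 + 2 * (q / p)) * nr c S ^ 2 := by
    rw [nr_sq, Real.rpow_add hN, Real.rpow_one, ← h2]
    refine (fs_sq_le id c S x).trans (mul_le_mul_of_nonneg_right ?_ (ms_nonneg _ _))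
    linarith
  refine (pw (norm_nonneg _) (by positivity) (nr_nonneg _ _) hp.le h3).trans (le_of_eq ?_)
  rw [Real.mul_rpow (by positivity) (by positivity), ← Real.rpow_mul hN.le]
  congr 3
  field_simp

theorem exists_prime {n : ℕ} (hn : 1 ≤ n) :
    ∃ Q : ℕ, Q.Prime ∧ √(n : ℝ) ≤ Q ∧ (Q : ℝ) ≤ 4 * √(n : ℝ) := by
  obtain ⟨Q, h1, h2, h3⟩ := Nat.exists_prime_lt_and_le_two_mul (Nat.sqrt n + 1) (by omega)
  have h4 : 1 ≤ Nat.sqrt n := Nat.sqrt_pos.2 hn
  have h5 : ((Nat.sqrt n + 1 : ℕ) : ℝ) ≤ Q := by exact_mod_cast h2.le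
  have h6 : (Q : ℝ) ≤ ((4 * Nat.sqrt n : ℕ) : ℝ) := by exact_mod_cast (by omega)
  have h7 := Real.real_sqrt_le_nat_sqrt_succ (a := n)
  have h8 := Real.nat_sqrt_le_real_sqrt (a := n)
  push_cast at h5 h6
  exact ⟨Q, h1, by linarith, by linarith⟩

theorem av_split {X : Type} [Fintype X] [Nonempty X] (F : X → ℝ) (P : X → Prop) [DecidablePred P]
    {T₁ T₂ : ℝ} (h2 : 0 ≤ T₂) (h1 : ∀ x, F x ≤ T₁) (h : ∀ x, ¬ P x → F x ≤ T₂) :
    av F ≤ (univ.filter P).card * T₁ / Fintype.card X + T₂ := by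
  have : av (fun x => if P x then T₁ else 0) = (univ.filter P).card * T₁ / Fintype.card X := by
    unfold av
    rw [← sum_filter, sum_const, nsmul_eq_mul]
  rw [← this, ← av_const (X := X) T₂, ← av_add]
  refine av_mono fun x => ?_
  split_ifs with hx
  · linarith [h1 x]
  · linarith [h x hx]

end FinP

open FinP in
theorem fin (h1 : S_Iter) (h2 : S_TT) : S_Fin := by
  obtain ⟨b, τ0, hb, hb1, hτ0, h1⟩ := h1
  refine ⟨b, 49 + 18 / τ0, hb, fun p hp => ?_⟩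
  have hp0 : 0 < p := by linarith
  obtain ⟨q, hq⟩ : ∃ q, q = p ^ (-b) := ⟨_, rfl⟩
  have hq0 : 0 < q := by rw [hq]; positivity
  have hq1 : 1 / p ≤ q := by
    rw [hq, one_div, ← Real.rpow_neg_one]
    exact Real.rpow_le_rpow_of_exponent_le (by linarith) (by linarith)
  have hB : 0 ≤ 18 / τ0 * q := by positivity
  obtain ⟨A, hA, hT⟩ := triv hp0 hq0
  have tgt : ∀ N M : ℝ, 0 < N → 0 ≤ M →
      (N ^ (1 / 2 - 3 / p + (49 + 18 / τ0) * p ^ (-1 - b)) * M) ^ p =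
        N ^ (p / 2 - 3 + (49 + 18 / τ0) * q) * M ^ p := fun N M hN hM => by
    rw [Real.mul_rpow (by positivity) hM, ← Real.rpow_mul hN.le, hq, sub_eq_add_neg (-1),
      Real.rpow_add hp0, Real.rpow_neg_one]
    congr 2
    field_simp
  have hN1 : ∀ n : ℕ, 1 ≤ n → 1 ≤ √(n : ℝ) := fun n hn =>
    Real.one_le_sqrt.2 (by exact_mod_cast hn)
  by_cases hτ : 6 / p ≤ τ0
  · obtain ⟨n0, h1⟩ := h1 (6 / p) (by positivity) hτ
    refine ⟨A * ((n0 : ℝ) ^ 3 + 1) + 2 ^ (p / 2), by positivity, fun n hn hR => ?_⟩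
    have hN := hN1 n hn
    have hN0 : 0 < √(n : ℝ) := by linarith
    have mono : ∀ s t : ℝ, s ≤ t → √(n : ℝ) ^ s ≤ √(n : ℝ) ^ t := fun s t h =>
      Real.rpow_le_rpow_of_exponent_le hN h
    by_cases hn0 : n0 ≤ n
    · obtain ⟨Q, hQ, q1, q2⟩ := exists_prime hn
      have : Fact Q.Prime := ⟨hQ⟩
      obtain ⟨a1, a2⟩ := h1 n hn0 hR
      refine ⟨Q, inferInstance, fun S c hS => ?_⟩
      have hD : 0 < √(n : ℝ) ^ (6 / p) := by positivity
      have hM := nr_nonneg c S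
      have hMp : 0 ≤ nr c S ^ p := by positivity
      have a3 := av_split (fun x : Fin 3 → ZMod Q => ‖fs id c S x‖ ^ p)
        (fun x => 2 * √(n : ℝ) / √(n : ℝ) ^ (6 / p) * ms c S ≤ ‖fs id c S x‖ ^ 2)
        (T₂ := (2 * √(n : ℝ) / √(n : ℝ) ^ (6 / p)) ^ (p / 2) * nr c S ^ p) (by positivity)
        (hT n hn Q S c hS) fun x hx =>
          pw (norm_nonneg _) (by positivity) hM hp0.le (by rw [nr_sq]; exact (not_le.1 hx).le)
      have a4 : ((univ.filter fun x : Fin 3 → ZMod Q => 2 * √(n : ℝ) / √(n : ℝ) ^ (6 / p) *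
          ms c S ≤ ‖fs id c S x‖ ^ 2).card : ℝ) * nr c S ^ p ≤ √(n : ℝ) ^ (48 * q) * nr c S ^ p := by
        rcases (ms_nonneg c S).eq_or_lt with h0 | h0
        · rw [nr, ← h0, Real.sqrt_zero, Real.zero_rpow hp0.ne', mul_zero, mul_zero]
        refine mul_le_mul_of_nonneg_right
          ((h2 n Q _ _ hn hD a1 (a2 Q q1 q2) S c hS h0).trans ?_) hMp
        rw [← Real.rpow_two, ← Real.rpow_mul hN0.le, ← Real.rpow_add hN0]
        refine mono _ _ ?_
        have b1 : (6 / p) ^ b ≤ 6 * q := by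
          rw [Real.div_rpow (by norm_num) hp0.le, hq, Real.rpow_neg hp0.le, div_eq_mul_inv]
          refine mul_le_mul_of_nonneg_right ?_ (by positivity)
          simpa using Real.rpow_le_rpow_of_exponent_le (by norm_num : (1 : ℝ) ≤ 6) hb1
        have b2 : 6 / p = 6 * (1 / p) := by ring
        linarith
      have a5 : √(n : ℝ) ^ (3 : ℝ) ≤ (Fintype.card (Fin 3 → ZMod Q) : ℝ) := by
        rw [Fintype.card_fun, ZMod.card, Fintype.card_fin, Nat.cast_pow, Real.rpow_ofNat]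
        exact pow_le_pow_left₀ hN0.le q1 3
      have a6 : (2 * √(n : ℝ) / √(n : ℝ) ^ (6 / p)) ^ (p / 2) =
          2 ^ (p / 2) * √(n : ℝ) ^ (p / 2 - 3) := by
        rw [mul_div_assoc, Real.mul_rpow (by norm_num) (by positivity),
          Real.div_rpow hN0.le hD.le, ← Real.rpow_mul hN0.le, ← Real.rpow_sub hN0]
        congr 3
        field_simp
        norm_num
      rw [tgt _ _ hN0 hM]
      refine a3.trans ?_
      rw [a6, add_mul]
      refine add_le_add ?_ ?_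
      · calc _ = A * √(n : ℝ) ^ (p / 2 + q) * (_ * nr c S ^ p) /
              (Fintype.card (Fin 3 → ZMod Q) : ℝ) := by ring
          _ ≤ A * √(n : ℝ) ^ (p / 2 + q) * (√(n : ℝ) ^ (48 * q) * nr c S ^ p) /
              √(n : ℝ) ^ (3 : ℝ) := by gcongr
          _ = A * 1 * (√(n : ℝ) ^ (p / 2 + q + 48 * q - 3) * nr c S ^ p) := by
              rw [Real.rpow_sub hN0, Real.rpow_add hN0 (p / 2 + q)]; ring
          _ ≤ _ := by
              gcongr
              · linarith [pow_nonneg (Nat.cast_nonneg (α := ℝ) n0) 3]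
              · linarith
      · rw [mul_assoc]
        gcongr
        linarith
    · refine ⟨1, inferInstance, fun S c hS => ?_⟩
      have hM := nr_nonneg c S
      have a1 : √(n : ℝ) ^ (3 : ℝ) ≤ (n0 : ℝ) ^ 3 := by
        rw [Real.rpow_ofNat]
        refine pow_le_pow_left₀ hN0.le (Real.sqrt_le_iff.2 ⟨by positivity, ?_⟩) 3
        exact_mod_cast (by nlinarith : n ≤ n0 ^ 2)
      rw [tgt _ _ hN0 hM]
      refine ((av_mono (hT n hn 1 S c hS)).trans (av_const _).le).trans ?_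
      calc _ = A * √(n : ℝ) ^ (3 : ℝ) * (√(n : ℝ) ^ (p / 2 + q - 3) * nr c S ^ p) := by
            rw [Real.rpow_sub hN0]; field_simp
        _ ≤ A * ((n0 : ℝ) ^ 3 + 1) *
            (√(n : ℝ) ^ (p / 2 - 3 + (49 + 18 / τ0) * q) * nr c S ^ p) := by
            gcongr
            · linarith
            · linarith
        _ ≤ _ := by gcongr; exact le_add_of_nonneg_right (by positivity)
  · refine ⟨A, hA, fun n hn _ => ⟨1, inferInstance, fun S c hS => ?_⟩⟩
    have hN := hN1 n hn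
    have hM := nr_nonneg c S
    have a1 : 3 ≤ 18 / τ0 * q := by
      rw [div_mul_eq_mul_div, le_div_iff₀ hτ0]
      have b2 : 6 / p = 6 * (1 / p) := by ring
      linarith [not_le.1 hτ]
    rw [tgt _ _ (by linarith) hM]
    refine ((av_mono (hT n hn 1 S c hS)).trans (av_const _).le).trans ?_
    rw [mul_assoc]
    refine mul_le_mul_of_nonneg_left (mul_le_mul_of_nonneg_right
      (Real.rpow_le_rpow_of_exponent_le hN (by linarith)) (by positivity)) hA.le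

end Pool.Agent.P.MP_c76d8c_an.AA
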