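import Pool.Agent.P.MP_c76d8c_an.AA.Defs

/-! The standing hypotheses hold for large rich integers. -/

namespace Pool.Agent.P.MP_c76d8c_an.AA

open Finset Matrix

namespace GoodP

theorem natlog_le {m : ℕ} (hm : 1 ≤ m) : (Nat.log 2 m : ℝ) ≤ 2 * Real.log m := by
  have h1 : ((2 : ℝ) ^ Nat.log 2 m) ≤ m := by exact_mod_cast Nat.pow_log_le_self 2 (by omega)
  have h2 := Real.log_le_log (by positivity) h1
  rw [Real.log_pow] at h2
  have h3 := mul_le_mul_of_nonneg_left
    (show 1 / 2 ≤ Real.log 2 by linarith [Real.log_two_gt_d9]) (Nat.cast_nonneg (Nat.log 2 m))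
  linarith

end GoodP

theorem good : S_Good := by
  intro τ hτ
  have t4 : 0 < τ / 4 := by positivity
  obtain ⟨C, hC, hc⟩ := circ_exists t4
  obtain ⟨n0, h0⟩ := Filter.eventually_atTop.1 (((tendsto_rpow_atTop t4).comp
    tendsto_natCast_atTop_atTop).eventually_ge_atTop (3 * C + 2 ^ 13 + 16 / τ + 2))
  refine ⟨max n0 1, fun n hn hR D hD h50 => ?_⟩
  have n1 : 1 ≤ n := (le_max_right _ _).trans hn
  have n1' : (0 : ℝ) < n := by exact_mod_cast n1
  have hu := h0 n ((le_max_left _ _).trans hn)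
  simp only [Function.comp] at hu
  have ht : 0 < 16 / τ := by positivity
  set u := (n : ℝ) ^ (τ / 4) with hu'
  have u1 : 1 ≤ u := by linarith
  have hD' : u * u ≤ D := by
    refine le_of_eq_of_le ?_ hD
    rw [hu', ← Real.rpow_add n1', Real.sqrt_eq_rpow, ← Real.rpow_mul n1'.le]
    ring_nf
  have key : ∀ a : ℝ, a ≤ u → a * u ≤ D := fun a ha =>
    (mul_le_mul_of_nonneg_right ha (by linarith)).trans hD'
  have d13 : 2 ^ 13 ≤ D :=
    (le_mul_of_one_le_right (by positivity) u1).trans (key _ (by linarith))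
  have d1 : 1 ≤ D := le_trans (by norm_num) d13
  have hk : (Nat.log 2 (n ^ 2) : ℝ) + 2 ≤ D := by
    have a1 := GoodP.natlog_le (Nat.one_le_pow 2 n n1)
    rw [Nat.cast_pow, Real.log_pow] at a1
    have a2 : Real.log u = τ / 4 * Real.log n := Real.log_rpow n1' _
    have a3 : Real.log u ≤ u := (Real.log_le_sub_one_of_pos (by linarith)).trans (by linarith)
    have a4 : 4 * Real.log n ≤ 16 / τ * u := by
      refine le_of_eq_of_le ?_ (mul_le_mul_of_nonneg_left a3 ht.le)
      rw [a2]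
      field_simp
      ring
    have a5 := key (16 / τ + 2) (by linarith)
    push_cast at a1
    linarith
  refine ⟨d13, h50, ?_, fun d h1 h2 s F hF => (hc n n1 d h1 h2 s F hF).trans (key C (by linarith)),
    ⟨Nat.log 2 (n ^ 2) + 1, Nat.lt_pow_succ_log_self one_lt_two _, by push_cast; linarith⟩, ?_⟩
  · refine (card_sphere_le' n1 (by positivity) (hc n n1) fun b hb => mem_Sph.1 hb).trans ?_
    have := mul_le_mul_of_nonneg_left (key (3 * C) (by linarith)) (Real.sqrt_nonneg n)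
    linarith
  obtain ⟨i, i1, i2⟩ := exists_nat_pow_near (one_le_pow₀ d1 : 1 ≤ D ^ 4) one_lt_two
  have i3 : (2 : ℝ) ^ (i + 1) ≤ 2 * D ^ 4 := by rw [pow_succ]; linarith
  obtain ⟨L, l1, l2⟩ := hR (i + 1) (by
      have a1 : (Nat.log 2 n : ℝ) ≤ D := le_trans (Nat.cast_le.2
        (Nat.log_mono_right (Nat.le_self_pow two_ne_zero n))) (by linarith)
      have a2 : (Nat.log 2 n : ℝ) ^ 3 ≤ 2 ^ (i + 1) :=
        ((pow_le_pow_left₀ (by positivity) a1 3).trans
          (pow_le_pow_right₀ d1 (by norm_num))).trans i2.le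
      exact_mod_cast a2) (by
      have a1 : (4 : ℝ) ^ (10 * (i + 1)) ≤ n := by
        calc (4 : ℝ) ^ (10 * (i + 1)) = (2 ^ (i + 1)) ^ 20 := by
              rw [show (4 : ℝ) = 2 ^ 2 by norm_num, ← pow_mul, ← pow_mul]; congr 1; ring
          _ ≤ (D * D ^ 4) ^ 20 := pow_le_pow_left₀ (by positivity)
              (i3.trans (mul_le_mul_of_nonneg_right (by linarith) (by positivity))) 20
          _ = (D ^ 50) ^ 2 := by ring
          _ ≤ √(n : ℝ) ^ 2 := pow_le_pow_left₀ (by positivity) h50 2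
          _ = n := Real.sq_sqrt n1'.le
      exact_mod_cast a1)
  refine ⟨4 ^ (i + 1), L, ?_, i2.le.trans (by exact_mod_cast l1), fun l hl => l2 l hl⟩
  calc ((4 ^ (i + 1) : ℕ) : ℝ) = (2 ^ (i + 1)) ^ 2 := by
        rw [← pow_mul, mul_comm, pow_mul]; norm_num
    _ ≤ (2 * D ^ 4) ^ 2 := pow_le_pow_left₀ (by positivity) i3 2
    _ = 4 * D ^ 8 := by ring
    _ ≤ D * D ^ 8 := mul_le_mul_of_nonneg_right (by linarith) (by positivity)
    _ = _ := by ring

end Pool.Agent.P.MP_c76d8c_an.AA
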