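import Pool.Agent.P.MP_c76d8c_an.AA.Defs

/-! Iteration of the recursion for the large spectrum. -/

namespace Pool.Agent.P.MP_c76d8c_an.AA

open Finset

namespace IterP

theorem start {n Q : ℕ} [NeZero Q] (hN : 64 ≤ √(n : ℝ)) (hQ : (Q : ℝ) ≤ 4 * √(n : ℝ)) (D : ℝ) :
    Bd n Q D (√(n : ℝ) ^ (4 : ℝ)) := fun c _ => by
  have h1 : (Sp n Q D c).card ≤ Q ^ 3 := (card_le_univ _).trans (by simp [ZMod.card])
  have h2 : ((Sp n Q D c).card : ℝ) ≤ (Q : ℝ) ^ 3 := by exact_mod_cast h1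
  rw [show (4 : ℝ) = (4 : ℕ) by norm_num, Real.rpow_natCast]
  calc _ ≤ (4 * √(n : ℝ)) ^ 3 := h2.trans (by gcongr)
    _ = 64 * √(n : ℝ) ^ 3 := by ring
    _ ≤ √(n : ℝ) * √(n : ℝ) ^ 3 := by gcongr
    _ = _ := by ring

theorem pow_le {N t : ℝ} (hN : 1 ≤ N) (ht : 50 * t ≤ 1) : (N ^ t) ^ 50 ≤ N := by
  rw [← Real.rpow_mul_natCast (by linarith)]
  calc _ ≤ N ^ (1 : ℝ) := Real.rpow_le_rpow_of_exponent_le hN (by push_cast; linarith)
    _ = N := Real.rpow_one N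

theorem ind (h1 : S_Rec) {n Q : ℕ} [Fact Q.Prime] {τ : ℝ} (hτ : 0 < τ) (hN : 64 ≤ √(n : ℝ))
    (hQ : √(n : ℝ) ≤ Q) (hQ' : (Q : ℝ) ≤ 4 * √(n : ℝ))
    (hg : ∀ D : ℝ, √(n : ℝ) ^ τ ≤ D → D ^ 50 ≤ √(n : ℝ) → Good n D) (j : ℕ) :
    ∀ t, τ ≤ t → 50 * 126 ^ j * t ≤ 1 → Bd n Q (√(n : ℝ) ^ t)
      (√(n : ℝ) ^ (4 * (2321 / 2322 : ℝ) ^ j + (126 ^ j - 1) * t)) := by
  have hN1 : 1 ≤ √(n : ℝ) := by linarith
  have hN0 : 0 < √(n : ℝ) := by linarith
  induction j with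
  | zero => intro t _ _; simpa using start hN hQ' _
  | succ j ih =>
    intro t ht h
    have ht0 : 0 < t := hτ.trans_le ht
    have hp : (1 : ℝ) ≤ 126 ^ j := one_le_pow₀ (by norm_num)
    have hu : 0 ≤ (126 ^ j - 1) * t := mul_nonneg (by linarith) ht0.le
    rw [pow_succ] at h
    have h2 := ih (t * 126) (by linarith) (by linarith)
    have hθ : (0 : ℝ) ≤ (2321 / 2322 : ℝ) ^ j := by positivity
    have h3 := h1 n Q (√(n : ℝ) ^ t)
      (√(n : ℝ) ^ (4 * (2321 / 2322 : ℝ) ^ j + (126 ^ j - 1) * (t * 126))) hQ hQ'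
      (hg _ (Real.rpow_le_rpow_of_exponent_le hN1 ht) (pow_le hN1 (by nlinarith)))
      (Real.one_le_rpow hN1 (by nlinarith)) (by
        rw [← Real.rpow_mul_natCast hN0.le]
        exact h2)
    refine h3.mono (by positivity) le_rfl ?_
    rw [← Real.rpow_mul_natCast hN0.le, ← Real.rpow_mul hN0.le, ← Real.rpow_add hN0]
    refine Real.rpow_le_rpow_of_exponent_le hN1 ?_
    rw [pow_succ, pow_succ]
    push_cast
    nlinarith

end IterP

theorem iter (h1 : S_Rec) (h2 : S_Good) : S_Iter := by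
  have l1 : 0 < Real.log (2322 / 2321) := Real.log_pos (by norm_num)
  have l2 : 0 < Real.log 126 := Real.log_pos (by norm_num)
  have l3 : Real.log (2322 / 2321) ≤ Real.log 126 := Real.log_le_log (by norm_num) (by norm_num)
  set b := Real.log (2322 / 2321) / (2 * Real.log 126) with hb
  have hb0 : 0 < b := by positivity
  have hb1 : b ≤ 1 / 2 := by rw [hb, div_le_iff₀ (by positivity)]; linarith
  have hA : ((126 : ℝ) ^ 2) ^ b = 2322 / 2321 := by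
    rw [Real.rpow_def_of_pos (by norm_num), Real.log_pow, hb]
    push_cast
    rw [mul_div_cancel₀ _ (by positivity), Real.exp_log (by norm_num)]
  refine ⟨b, 1 / 2500, hb0, by linarith, by norm_num, fun τ hτ hτ' => ?_⟩
  obtain ⟨n0, hg⟩ := h2 τ hτ
  refine ⟨max n0 4096, fun n hn hR => ?_⟩
  have hN : 64 ≤ √(n : ℝ) := Real.le_sqrt_of_sq_le (by exact_mod_cast le_of_max_le_right hn)
  have hN1 : 1 ≤ √(n : ℝ) := by linarith
  have hg' := hg n (le_of_max_le_left hn) hR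
  refine ⟨(hg' _ le_rfl (IterP.pow_le hN1 (by linarith))).2.2.1, fun Q _ hQ hQ' => ?_⟩
  obtain ⟨j, j1, j2⟩ := exists_nat_pow_near (x := 1 / τ) (y := (126 : ℝ) ^ 2)
    (by rw [le_div_iff₀ hτ]; linarith) (by norm_num)
  have s0 : 0 < √τ := Real.sqrt_pos.2 hτ
  have s1 : √τ * √τ = τ := Real.mul_self_sqrt hτ.le
  have s2 : √τ ≤ 1 / 50 := Real.sqrt_le_iff.2 ⟨by norm_num, by linarith⟩
  have k1 : 126 ^ j * √τ ≤ 1 := by
    rw [le_div_iff₀ hτ, ← pow_mul, mul_comm 2 j, pow_mul] at j1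
    refine pow_le_one_iff_of_nonneg (by positivity) two_ne_zero |>.1 ?_
    rwa [mul_pow, Real.sq_sqrt hτ.le]
  have k2 : 126 ^ j * τ ≤ √τ := by
    calc 126 ^ j * τ = 126 ^ j * √τ * √τ := by rw [mul_assoc, s1]
      _ ≤ 1 * √τ := by gcongr
      _ = _ := one_mul _
  have k3 : √τ ≤ τ ^ b := by
    rw [Real.sqrt_eq_rpow]
    exact Real.rpow_le_rpow_of_exponent_ge hτ (by linarith) hb1
  have k4 : (2321 / 2322 : ℝ) ^ (j + 1) ≤ τ ^ b := by
    have e : (2321 / 2322 : ℝ) ^ (j + 1) = (1 / (126 ^ 2) ^ (j + 1)) ^ b := by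
      rw [Real.div_rpow zero_le_one (by positivity), Real.one_rpow, ← Real.rpow_natCast_mul
        (by positivity), mul_comm, Real.rpow_mul_natCast (by positivity), hA, ← one_div_pow]
      norm_num
    rw [e]
    refine Real.rpow_le_rpow (by positivity) ?_ hb0.le
    rw [div_lt_iff₀ hτ] at j2
    rw [div_le_iff₀ (by positivity)]
    linarith
  refine (IterP.ind h1 hτ hN hQ hQ' hg' j τ le_rfl (by linarith)).mono (by positivity) le_rfl
    (Real.rpow_le_rpow_of_exponent_le hN1 ?_)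
  have hθ : (0 : ℝ) ≤ (2321 / 2322 : ℝ) ^ j := by positivity
  rw [pow_succ] at k4
  linarith

end Pool.Agent.P.MP_c76d8c_an.AA
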