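import Pool.Agent.P.MP_c76d8c_an.AA.Defs

/-! The line bound: Parseval on a line and the plane bound. -/

namespace Pool.Agent.P.MP_c76d8c_an.AA

open Finset Matrix ComplexConjugate

namespace LineP

theorem parseval {Q : ℕ} [NeZero Q] {κ : Type} (X : Finset κ) (ε : κ → ℂ) (hε : ∀ x, ‖ε x‖ ≤ 1)
    (u : κ → ZMod Q) (hu : Set.InjOn u X) :
    ∑ v : ZMod Q, ‖∑ x ∈ X, ε x * ZMod.stdAddChar (u x * v)‖ ^ 2 ≤ (Q : ℝ) * X.card := by
  classical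
  have h1 : ((∑ v : ZMod Q, ‖∑ x ∈ X, ε x * ZMod.stdAddChar (u x * v)‖ ^ 2 : ℝ) : ℂ) =
      ((Q * ∑ x ∈ X, ‖ε x‖ ^ 2 : ℝ) : ℂ) := by
    have h2 : ∀ v : ZMod Q, ((‖∑ x ∈ X, ε x * ZMod.stdAddChar (u x * v)‖ : ℝ) : ℂ) ^ 2 =
        ∑ x ∈ X, ∑ y ∈ X, ε x * conj (ε y) * ZMod.stdAddChar (v * (u x - u y)) := fun v => by
      rw [← Complex.mul_conj', map_sum, sum_mul_sum]
      refine sum_congr rfl fun x _ => sum_congr rfl fun y _ => ?_
      rw [map_mul (starRingEnd ℂ), ← AddChar.map_neg_eq_conj,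
        show v * (u x - u y) = u x * v + -(u y * v) by ring, AddChar.map_add_eq_mul]
      ring
    push_cast
    simp only [h2]
    rw [sum_comm, mul_sum]
    refine sum_congr rfl fun x hx => ?_
    rw [sum_comm, sum_eq_single x]
    · simp only [sub_self, mul_zero, AddChar.map_zero_eq_one, mul_one, sum_const, card_univ,
        ZMod.card, nsmul_eq_mul, Complex.mul_conj']
    · intro y hy hne
      rw [← mul_sum, AddChar.sum_mulShift _ (ZMod.isPrimitive_stdAddChar Q),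
        if_neg (fun h => hne (hu hx hy (sub_eq_zero.1 h)).symm)]
      simp
    · intro h; exact absurd hx h
  rw [Complex.ofReal_inj.1 h1]
  gcongr
  calc ∑ x ∈ X, ‖ε x‖ ^ 2 ≤ ∑ _x ∈ X, (1 : ℝ) :=
        sum_le_sum fun x _ => pow_le_one₀ (norm_nonneg _) (hε x)
    _ = _ := by simp

theorem dot_le {n Q H : ℕ} (hQ : √(n : ℝ) ≤ Q) {e ξ : Fin 3 → ℤ} (he : ∀ i, |e i| ≤ H)
    (hξ : ξ ∈ Sph n) : |ξ ⬝ᵥ e| ≤ 3 * H * Q := by
  have hn : (n : ℤ) ≤ (Q : ℤ) ^ 2 := by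
    have : (n : ℝ) ≤ (Q : ℝ) ^ 2 := by
      rw [← Real.sq_sqrt (Nat.cast_nonneg n)]
      gcongr
    exact_mod_cast this
  have h1 : ∀ i, |ξ i * e i| ≤ Q * H := fun i => by
    rw [abs_mul]
    refine mul_le_mul ?_ (he i) (abs_nonneg _) (by positivity)
    exact abs_le_of_sq_le_sq' ((sq_le_dot ξ i).trans ((mem_Sph.1 hξ).le.trans hn))
      (by positivity) |> abs_le.2
  rw [dot3]
  have h2 := abs_le.1 (h1 0)
  have h3 := abs_le.1 (h1 1)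
  have h4 := abs_le.1 (h1 2)
  rw [abs_le]
  constructor <;> nlinarith [h2.1, h2.2, h3.1, h3.2, h4.1, h4.2]

theorem class_le {n Q H : ℕ} [NeZero Q] {D : ℝ} (hD : 0 < D) (hQ : √(n : ℝ) ≤ Q) (hC : Circ n D)
    {e : Fin 3 → ℤ} (he0 : e ≠ 0) (he : ∀ i, |e i| ≤ H) (hH : H ≤ 2 * n) (v : ZMod Q) :
    (((Sph n).filter fun ξ => ((ξ ⬝ᵥ e : ℤ) : ZMod Q) = v).card : ℝ) ≤ 7 * H * D := by
  have hQ0 : (0 : ℤ) < Q := by exact_mod_cast NeZero.pos Q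
  have hH1 : (1 : ℤ) ≤ H := by
    obtain ⟨i, hi⟩ := Function.ne_iff.1 he0
    exact (Int.one_le_abs hi).trans (he i)
  have hmap : ∀ ξ ∈ (Sph n).filter fun ξ => ((ξ ⬝ᵥ e : ℤ) : ZMod Q) = v,
      (ξ ⬝ᵥ e) / Q ∈ Icc (-(3 * H : ℤ)) (3 * H) := fun ξ hξ => by
    have h := abs_le.1 (dot_le hQ he (mem_filter.1 hξ).1)
    exact mem_Icc.2 ⟨(Int.le_ediv_iff_mul_le hQ0).2 (by linarith [h.1]),
      Int.ediv_le_of_le_mul hQ0 h.2⟩
  rw [card_eq_sum_card_fiberwise hmap]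
  push_cast
  refine (sum_le_card_nsmul _ _ D fun k _ => ?_).trans ?_
  · refine hC e he0 (fun i => (he i).trans (by exact_mod_cast hH)) (Q * k + (v.val : ℤ)) _
      fun a ha => ?_
    obtain ⟨h1, h2⟩ := mem_filter.1 ha
    obtain ⟨h3, h4⟩ := mem_filter.1 h1
    refine ⟨mem_Sph.1 h3, ?_⟩
    rw [← h2, ← h4, ZMod.val_intCast, Int.mul_ediv_add_emod]
  · rw [nsmul_eq_mul]
    gcongr
    have h1 : (((Icc (-(3 * H : ℤ)) (3 * H)).card : ℕ) : ℤ) ≤ 7 * H := by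
      rw [Int.card_Icc, Int.toNat_of_nonneg (by linarith)]
      linarith
    exact_mod_cast h1

end LineP

open LineP in
theorem line : S_Line := by
  intro n Q _ D H e hn hQ hQ4 hD hS hC he0 he hH X ε hX z
  classical
  obtain ⟨Y, hY⟩ : ∃ Y, Y = Ln X z (red Q e) := ⟨_, rfl⟩
  rw [← hY]
  have hex : ∀ x, ∃ u : ZMod Q, x ∈ Y → x = z + u • red Q e := fun x => by
    by_cases hx : x ∈ Y
    · obtain ⟨u, hu⟩ := (mem_Ln.1 (hY ▸ hx)).2
      exact ⟨u, fun _ => hu⟩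
    · exact ⟨0, fun h => absurd h hx⟩
  choose u hu using hex
  have hinj : Set.InjOn u Y := fun x hx y hy h => by rw [hu x hx, hu y hy, h]
  obtain ⟨h, hh⟩ : ∃ h : ZMod Q → ℝ, h = fun v => ‖∑ x ∈ Y, ε x * ZMod.stdAddChar (u x * v)‖ :=
    ⟨_, rfl⟩
  have hG : ∀ ξ, ‖G ε Y ξ‖ = h ((ξ ⬝ᵥ e : ℤ) : ZMod Q) := fun ξ => by
    have h1 : G ε Y ξ =
        ch ξ z * ∑ x ∈ Y, ε x * ZMod.stdAddChar (u x * ((ξ ⬝ᵥ e : ℤ) : ZMod Q)) := by
      rw [G, mul_sum]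
      refine sum_congr rfl fun x hx => ?_
      have h2 : ch ξ (u x • red Q e) = ZMod.stdAddChar (u x * ((ξ ⬝ᵥ e : ℤ) : ZMod Q)) := by
        unfold ch
        congr 1
        simp only [dot3, Fin.sum_univ_three, Pi.smul_apply, smul_eq_mul, red]
        push_cast
        ring
      rw [← h2]
      conv_lhs => rw [hu x hx, ch_add, ← hu x hx]
      ring
    rw [h1, norm_mul, norm_ch, one_mul, hh]
  have hP : ∑ v, h v ^ 2 ≤ (Q : ℝ) * Y.card := by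
    rw [hh]; exact parseval Y ε hX.1 u hinj
  have he1 : e ≠ 0 := by
    rintro rfl
    exact he0 (funext fun i => by simp [red])
  have h2 : ∑ ξ ∈ Sph n, ‖G ε Y ξ‖ ^ 2 ≤ 7 * H * D * ((Q : ℝ) * Y.card) := by
    simp only [hG]
    rw [← sum_fiberwise_of_maps_to (s := Sph n) (t := univ)
      (g := fun ξ => ((ξ ⬝ᵥ e : ℤ) : ZMod Q)) (fun _ _ => mem_univ _)]
    refine le_trans ?_ (mul_le_mul_of_nonneg_left hP (by positivity))
    rw [mul_sum]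
    refine sum_le_sum fun v _ => ?_
    rw [sum_congr rfl (g := fun _ => h v ^ 2) (fun ξ hξ => by rw [(mem_filter.1 hξ).2]),
      sum_const, nsmul_eq_mul]
    gcongr
    exact class_le hD hQ hC he1 he hH v
  have h3 := hX.2 Y (by rw [hY]; exact fun x hx => (mem_Ln.1 hx).1)
  have hN : 0 < √(n : ℝ) := Real.sqrt_pos.2 (by exact_mod_cast hn)
  have h4 : ((Y.card : ℝ) * √(n : ℝ) / D) ^ 2 ≤
      √(n : ℝ) * D * (7 * H * D * (4 * √(n : ℝ) * Y.card)) :=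
    calc _ ≤ (∑ ξ ∈ Sph n, ‖G ε Y ξ‖) ^ 2 := by gcongr
      _ ≤ (Sph n).card * ∑ ξ ∈ Sph n, ‖G ε Y ξ‖ ^ 2 := sq_sum_le_card_mul_sum_sq
      _ ≤ √(n : ℝ) * D * (7 * H * D * ((Q : ℝ) * Y.card)) := by gcongr
      _ ≤ _ := by gcongr
  rcases (Nat.cast_nonneg (α := ℝ) Y.card).eq_or_lt with h0 | h0
  · rw [← h0]; positivity
  rw [div_pow, div_le_iff₀ (by positivity)] at h4
  refine le_of_mul_le_mul_right (a := (Y.card : ℝ) * √(n : ℝ) ^ 2) ?_ (by positivity)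
  calc _ = ((Y.card : ℝ) * √(n : ℝ)) ^ 2 := by ring
    _ ≤ _ := h4
    _ = _ := by ring

end Pool.Agent.P.MP_c76d8c_an.AA
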