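import Pool.Agent.P.MP_c76d8c_an.AA.Defs

/-! The rotation matrix of a quaternion modulo a prime. -/

namespace Pool.Agent.P.MP_c76d8c_an.AA

open Finset Matrix

namespace MatP

variable {F : Type} [Field F]

/-- the rotation of a quaternion, scaled by `i` -/
def rt (i a b c d : F) : (Fin 3 → F) →+ (Fin 3 → F) where
  toFun x := ![i * ((a ^ 2 + b ^ 2 - c ^ 2 - d ^ 2) * x 0 + 2 * (b * c - a * d) * x 1 +
      2 * (b * d + a * c) * x 2),
    i * (2 * (b * c + a * d) * x 0 + (a ^ 2 - b ^ 2 + c ^ 2 - d ^ 2) * x 1 +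
      2 * (c * d - a * b) * x 2),
    i * (2 * (b * d - a * c) * x 0 + 2 * (c * d + a * b) * x 1 +
      (a ^ 2 - b ^ 2 - c ^ 2 + d ^ 2) * x 2)]
  map_zero' := by funext j; fin_cases j <;> simp
  map_add' x y := by funext j; fin_cases j <;> simp <;> ring

theorem rt_inv {i a b c d : F} (h : (a ^ 2 + b ^ 2 + c ^ 2 + d ^ 2) * i = 1) (x : Fin 3 → F) :
    rt i a b c d (rt i (-a) b c d x) = x := by
  funext j
  fin_cases j
  · simp [rt]
    linear_combination ((a ^ 2 + b ^ 2 + c ^ 2 + d ^ 2) * i + 1) * x 0 * h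
  · simp [rt]
    linear_combination ((a ^ 2 + b ^ 2 + c ^ 2 + d ^ 2) * i + 1) * x 1 * h
  · simp [rt]
    linear_combination ((a ^ 2 + b ^ 2 + c ^ 2 + d ^ 2) * i + 1) * x 2 * h

theorem rt_sub (i a b c d : F) (x : Fin 3 → F) :
    rt i (-a) b c d x - rt i a b c d x = (-(2 * 2 * a * i)) • crossProduct ![b, c, d] x := by
  funext j
  fin_cases j <;> simp [rt, cross_apply] <;> ring

end MatP

open MatP in
theorem mat : S_Mat := by
  intro Q _ γ h1 h2 h3
  have hm : ((Quaternion.normSq γ : ℤ) : ZMod Q) = (γ.re : ZMod Q) ^ 2 + (γ.imI : ZMod Q) ^ 2 +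
      (γ.imJ : ZMod Q) ^ 2 + (γ.imK : ZMod Q) ^ 2 := by
    rw [Quaternion.normSq_def']; push_cast; rfl
  obtain ⟨i, hi⟩ : ∃ i, ((Quaternion.normSq γ : ℤ) : ZMod Q) * i = 1 := ⟨_, mul_inv_cancel₀ h1⟩
  have hi' := hm ▸ hi
  refine ⟨rt i (-γ.re) γ.imI γ.imJ γ.imK, rt i γ.re γ.imI γ.imJ γ.imK, -(2 * 2 * γ.re * i),
    neg_ne_zero.2 (mul_ne_zero (mul_ne_zero (mul_ne_zero h3 h3) h2) (right_ne_zero_of_mul_eq_one hi)),
    fun x => ?_, rt_inv hi', fun x => ?_, fun ξ η h x => ?_⟩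
  · rw [← neg_sq (γ.re : ZMod Q)] at hi'
    have := rt_inv hi' x
    rwa [neg_neg] at this
  · rw [rt_sub]
    congr 3
    funext j
    fin_cases j <;> rfl
  · obtain ⟨a0, a1, a2⟩ := h.coord
    have b0 := congrArg (Int.cast : ℤ → ZMod Q) a0
    have b1 := congrArg (Int.cast : ℤ → ZMod Q) a1
    have b2 := congrArg (Int.cast : ℤ → ZMod Q) a2
    generalize Quaternion.normSq γ = m at *
    push_cast at b0 b1 b2
    unfold ch
    congr 1
    simp only [Fin.sum_univ_three]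
    simp [rt]
    linear_combination i * x 0 * b0 + i * x 1 * b1 + i * x 2 * b2 -
      ((η 0 : ZMod Q) * x 0 + η 1 * x 1 + η 2 * x 2) * hi

end Pool.Agent.P.MP_c76d8c_an.AA
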