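import Pool.Agent.P.MP_c76d8c_an.AA.Defs

/-! Neighbours at a split prime. -/

namespace Pool.Agent.P.MP_c76d8c_an.AA

open Finset Matrix

namespace NbP

/-- the eight units -/
def units8 : List (Quaternion ℤ) :=
  [⟨1, 0, 0, 0⟩, ⟨-1, 0, 0, 0⟩, ⟨0, 1, 0, 0⟩, ⟨0, -1, 0, 0⟩, ⟨0, 0, 1, 0⟩, ⟨0, 0, -1, 0⟩,
    ⟨0, 0, 0, 1⟩, ⟨0, 0, 0, -1⟩]

theorem unit_mem {u : Quaternion ℤ} (h : Quaternion.normSq u = 1) : u ∈ units8 := by
  rw [Quaternion.normSq_def'] at h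
  obtain ⟨a, b, c, d⟩ := u
  simp only at h
  have key : ∀ z : ℤ, z ^ 2 ≤ 1 → -1 ≤ z ∧ z ≤ 1 := fun z hz => ⟨by nlinarith, by nlinarith⟩
  have := sq_nonneg a
  have := sq_nonneg b
  have := sq_nonneg c
  have := sq_nonneg d
  obtain ⟨a1, a2⟩ := key a (by linarith)
  obtain ⟨b1, b2⟩ := key b (by linarith)
  obtain ⟨c1, c2⟩ := key c (by linarith)
  obtain ⟨d1, d2⟩ := key d (by linarith)
  interval_cases a <;> interval_cases b <;> interval_cases c <;> interval_cases d <;>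
    first
      | (exfalso; omega)
      | (unfold units8; repeat first | exact List.Mem.head _ | apply List.Mem.tail)

theorem star_pv (ξ : Fin 3 → ℤ) : star (pv ξ) = -pv ξ := by
  apply Quaternion.ext <;> simp

theorem star_zsmul (m : ℤ) (α : Quaternion ℤ) : star (m • α) = m • star α := by
  apply Quaternion.ext <;> simp [mul_comm]

theorem normSq_zsmul (m : ℤ) (α : Quaternion ℤ) :
    Quaternion.normSq (m • α) = m ^ 2 * Quaternion.normSq α := by
  simp only [Quaternion.normSq_def', Quaternion.re_smul, Quaternion.imI_smul, Quaternion.imJ_smul,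
    Quaternion.imK_smul, smul_eq_mul]
  ring

theorem exists_nb (hD : S_Desc) {n l : ℕ} {r : ℤ} (hp : l.Prime) (h2 : l ≠ 2) (hn : ¬ l ∣ n)
    (hr : (l : ℤ) ∣ r ^ 2 + n) {ξ : Fin 3 → ℤ} (hξ : ξ ⬝ᵥ ξ = n) :
    ∃ (ζ : Fin 3 → ℤ) (α : Quaternion ℤ), ζ ⬝ᵥ ζ = n ∧ Quaternion.normSq α = l ∧ Rot α ζ ξ ∧
      ∃ β : Quaternion ℤ, α * (pv ζ + r • 1) = (l : ℤ) • β := by
  have l0 : (l : ℤ) ≠ 0 := by exact_mod_cast hp.ne_zero
  obtain ⟨α, β, a1, a2⟩ := hD l (r • 1 - pv ξ) hp h2 (by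
    convert hr using 1
    rw [← hξ, Quaternion.normSq_def', dot3]; simp; ring) (by
    rintro ⟨β, h⟩
    have h1 := congrArg QuaternionAlgebra.re h
    simp at h1
    refine hn (Int.natCast_dvd_natCast.1 ((dvd_add_right ?_).1 hr))
    rw [h1]; exact Dvd.intro (l * β.re ^ 2) (by ring))
  have a3 : α * pv ξ = r • α - (l : ℤ) • β := by
    rw [← a2, mul_sub, mul_smul_comm, mul_one]; abel
  have a4 : α * pv ξ * star α = (l : ℤ) • (r • 1 - β * star α) := by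
    rw [a3, sub_mul, smul_mul_assoc, smul_mul_assoc, mul_star_eq, a1, smul_sub, smul_comm]
  obtain ⟨z, hz⟩ : ∃ z : Quaternion ℤ, z = r • 1 - β * star α := ⟨_, rfl⟩
  rw [← hz] at a4
  have a5 : z.re = 0 := by
    have h1 := congrArg QuaternionAlgebra.re a4
    simp at h1
    exact mul_left_cancel₀ l0 (by linear_combination -h1)
  have a6 : z = pv (vc z) := by apply Quaternion.ext <;> simp [vc, a5]
  have a7 : Rot α ξ (vc z) := by rw [Rot, a1, ← a6, a4]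
  refine ⟨vc z, star α, ?_, by rw [Quaternion.normSq_star, a1], a7.inv (by rwa [a1]), star β, ?_⟩
  · have h1 := congrArg Quaternion.normSq a4
    rw [map_mul, map_mul, Quaternion.normSq_star, a1, normSq_pv, hξ, normSq_zsmul, a6,
      normSq_pv] at h1
    exact mul_left_cancel₀ (pow_ne_zero 2 l0) (by linear_combination -h1)
  · have h1 : star α * pv (vc z) = pv ξ * star α := by
      refine smul_cancel l0 ?_
      rw [← a6, ← mul_smul_comm, ← a4, ← mul_assoc, ← mul_assoc, star_mul_eq, a1, smul_mul_assoc,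
        smul_mul_assoc, one_mul]
    have h2 := congrArg star a2
    rw [star_mul, star_sub, star_pv, star_zsmul, star_zsmul, star_one, sub_neg_eq_add, add_mul,
      smul_mul_assoc, one_mul] at h2
    rw [mul_add, h1, mul_smul_comm, mul_one, add_comm, h2]

theorem unit_mul {n l : ℕ} {r : ℤ} (hp : l.Prime) (h2 : l ≠ 2) (hn : ¬ l ∣ n)
    (hr : (l : ℤ) ∣ r ^ 2 + n) {ζ : Fin 3 → ℤ} {α α' β β' : Quaternion ℤ}
    (a1 : Quaternion.normSq α = l) (a2 : Quaternion.normSq α' = l)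
    (b1 : α * (pv ζ + r • 1) = (l : ℤ) • β) (b2 : α' * (pv ζ + r • 1) = (l : ℤ) • β') :
    ∃ u ∈ units8, α = u * α' := by
  have l0 : (l : ℤ) ≠ 0 := by exact_mod_cast hp.ne_zero
  have hP : Prime (l : ℤ) := Nat.prime_iff_prime_int.1 hp
  have c1 : ¬ (l : ℤ) ∣ 2 * r := fun h => (hP.dvd_or_dvd h).elim
    (fun h => h2 ((Nat.prime_dvd_prime_iff_eq hp Nat.prime_two).1 (by exact_mod_cast h)))
    fun h => hn (Int.natCast_dvd_natCast.1 ((dvd_add_right (dvd_pow h two_ne_zero)).1 hr))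
  obtain ⟨x, y, hxy⟩ := (hP.coprime_iff_not_dvd.2 c1)
  have h3 := congrArg star b2
  rw [star_mul, star_add, star_pv, star_zsmul, star_zsmul, star_one] at h3
  have h4 : (2 * r) • (α * star α') = (l : ℤ) • (β * star α' + α * star β') := by
    rw [smul_add, ← smul_mul_assoc (l : ℤ) β, ← b1, ← mul_smul_comm (l : ℤ) α, ← h3, mul_assoc,
      ← mul_add, ← add_mul]
    simp only [two_mul, add_smul, add_mul, mul_add, smul_mul_assoc, mul_smul_comm, one_mul, neg_mul,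
      mul_neg]
    abel
  have h5 : α * star α' = (l : ℤ) • (x • (α * star α') + y • (β * star α' + α * star β')) := by
    rw [smul_add, smul_comm (l : ℤ) y, ← h4, smul_smul, smul_smul, ← add_smul, mul_comm (l : ℤ) x,
      hxy, one_smul]
  obtain ⟨u, hu⟩ : ∃ u : Quaternion ℤ, α * star α' = (l : ℤ) • u := ⟨_, h5⟩
  refine ⟨u, unit_mem ?_, smul_cancel l0 ?_⟩
  · have h1 := congrArg Quaternion.normSq hu
    rw [map_mul, Quaternion.normSq_star, a1, a2, normSq_zsmul] at h1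
    exact mul_left_cancel₀ (pow_ne_zero 2 l0) (by linear_combination -h1)
  · rw [← smul_mul_assoc, ← hu, mul_assoc, star_mul_eq, a2, mul_smul_comm, mul_one]

end NbP

open NbP in
theorem nb (hD : S_Desc) : S_Nb := by
  classical
  intro n l A ⟨hp, h2, hn, r, hr⟩ hA
  have l0 : (l : ℤ) ≠ 0 := by exact_mod_cast hp.ne_zero
  have h : ∀ ξ, ∃ (ζ : Fin 3 → ℤ) (α : Quaternion ℤ), ξ ∈ A → ζ ⬝ᵥ ζ = n ∧
      Quaternion.normSq α = l ∧ Rot α ζ ξ ∧ ∃ β : Quaternion ℤ, α * (pv ζ + r • 1) = (l : ℤ) • β := by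
    intro ξ
    by_cases hξ : ξ ∈ A
    · obtain ⟨ζ, α, h⟩ := exists_nb hD hp h2 hn hr (mem_Sph.1 (hA hξ))
      exact ⟨ζ, α, fun _ => h⟩
    · exact ⟨0, 0, fun h => absurd h hξ⟩
  choose f al hf using h
  refine card_le_mul_card_image_of_maps_to (f := f) (fun ξ hξ => mem_Nbr.2
    ⟨mem_Sph.2 (hf ξ hξ).1, al ξ, (hf ξ hξ).2.1, ξ, hξ, (hf ξ hξ).2.2.1⟩) 8 fun ζ _ => ?_
  rcases (A.filter fun ξ => f ξ = ζ).eq_empty_or_nonempty with e | ⟨ξ0, h0⟩
  · simp [e]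
  obtain ⟨m0, e0⟩ := mem_filter.1 h0
  refine le_trans ?_ (List.toFinset_card_le units8)
  refine card_le_card_of_forall_subsingleton (fun ξ u => al ξ = u * al ξ0) (fun ξ hξ => ?_)
    fun u _ ξ hξ ξ' hξ' => ?_
  · obtain ⟨m1, e1⟩ := mem_filter.1 hξ
    obtain ⟨-, a1, -, β, b1⟩ := hf ξ m1
    obtain ⟨-, a2, -, β', b2⟩ := hf ξ0 m0
    rw [e1] at b1
    rw [e0] at b2
    obtain ⟨u, hu, e⟩ := unit_mul hp h2 hn hr a1 a2 b1 b2
    exact ⟨u, List.mem_toFinset.2 hu, e⟩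
  · obtain ⟨m1, e1⟩ := mem_filter.1 hξ.1
    obtain ⟨m2, e2⟩ := mem_filter.1 hξ'.1
    have r1 := (hf ξ m1).2.2.1
    have r2 := (hf ξ' m2).2.2.1
    rw [e1] at r1
    rw [e2, hξ'.2, ← hξ.2] at r2
    exact Rot.unique (by rw [(hf ξ m1).2.1]; exact l0) r1 r2

end Pool.Agent.P.MP_c76d8c_an.AA
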