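import Pool.Agent.P.MP_c76d8c_an.AA.Defs

/-! The recursion for the size of large spectra. -/

namespace Pool.Agent.P.MP_c76d8c_an.AA

open Finset Matrix
open scoped Pointwise

namespace RecP

theorem norm_G_le {Q : ℕ} [NeZero Q] {ε : (Fin 3 → ZMod Q) → ℂ} (hε : ∀ x, ‖ε x‖ ≤ 1)
    (X : Finset (Fin 3 → ZMod Q)) (ξ : Fin 3 → ℤ) : ‖G ε X ξ‖ ≤ X.card := by
  refine (norm_sum_le _ _).trans ?_
  calc _ ≤ ∑ _x ∈ X, (1 : ℝ) := sum_le_sum fun x _ => by rw [norm_mul, norm_ch, mul_one]; exact hε x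
    _ = _ := by simp

theorem exists_A {n Q : ℕ} [NeZero Q] {D : ℝ} (hD : 0 < D)
    (hS : ((Sph n).card : ℝ) ≤ √(n : ℝ) * D) {ε : (Fin 3 → ZMod Q) → ℂ}
    {B : Finset (Fin 3 → ZMod Q)} (hB : B.Nonempty) (h : Her n D ε B) :
    ∃ A ⊆ Sph n, √(n : ℝ) / (2 * D) ≤ A.card ∧ ∀ ξ ∈ A, (B.card : ℝ) / (2 * D ^ 2) ≤ ‖G ε B ξ‖ := by
  have b0 : (0 : ℝ) < B.card := by exact_mod_cast hB.card_pos
  refine ⟨(Sph n).filter fun ξ => (B.card : ℝ) / (2 * D ^ 2) ≤ ‖G ε B ξ‖, filter_subset _ _, ?_,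
    fun ξ hξ => (mem_filter.1 hξ).2⟩
  have h1 := h.2 B subset_rfl
  rw [← sum_filter_add_sum_filter_not (Sph n) fun ξ => (B.card : ℝ) / (2 * D ^ 2) ≤ ‖G ε B ξ‖] at h1
  set A := (Sph n).filter fun ξ => (B.card : ℝ) / (2 * D ^ 2) ≤ ‖G ε B ξ‖
  have h2 : ∑ ξ ∈ A, ‖G ε B ξ‖ ≤ A.card * B.card := by
    rw [← nsmul_eq_mul]; exact sum_le_card_nsmul _ _ _ fun ξ _ => norm_G_le h.1 B ξ
  have h3 : ∑ ξ ∈ (Sph n).filter fun ξ => ¬ (B.card : ℝ) / (2 * D ^ 2) ≤ ‖G ε B ξ‖, ‖G ε B ξ‖ ≤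
      √(n : ℝ) * D * ((B.card : ℝ) / (2 * D ^ 2)) := by
    refine (sum_le_card_nsmul _ _ _ fun ξ hξ => (not_le.1 (mem_filter.1 hξ).2).le).trans ?_
    rw [nsmul_eq_mul]
    gcongr
    exact (Nat.cast_le.2 (card_filter_le _ _)).trans hS
  have h4 : √(n : ℝ) * D * ((B.card : ℝ) / (2 * D ^ 2)) = √(n : ℝ) / (2 * D) * B.card := by
    field_simp
  have h5 : (B.card : ℝ) * √(n : ℝ) / D = 2 * (√(n : ℝ) / (2 * D) * B.card) := by field_simp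
  exact le_of_mul_le_mul_right (by linarith) b0

theorem rot_step (hC : S_Cor) (hR : S_Ruz) {n Q : ℕ} [NeZero Q] {D F κ : ℝ} (hn : 1 ≤ n)
    (hD : 2 ^ 13 ≤ D) (hF : 0 < F) (hκ : 0 < κ) (hS : ((Sph n).card : ℝ) ≤ √(n : ℝ) * D)
    (hBd : Bd n Q (D ^ 126) F) {ε : (Fin 3 → ZMod Q) → ℂ} (hε : ∀ x, ‖ε x‖ ≤ 1)
    {B : Finset (Fin 3 → ZMod Q)} (hB : B.Nonempty) (h1 : F ≤ 16 * D ^ 8 * κ ^ 2 * B.card)
    (h2 : ((B - B).card : ℝ) ≤ 2 ^ 22 * D ^ 32 * κ ^ 4 * B.card) {A T : Finset (Fin 3 → ℤ)}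
    (hA : A ⊆ Sph n) (hG : ∀ ξ ∈ A, (B.card : ℝ) / (2 * D ^ 2) ≤ ‖G ε B ξ‖) (hT : T ⊆ A)
    (hT' : √(n : ℝ) / D ^ 120 ≤ T.card) {φ : (Fin 3 → ZMod Q) →+ (Fin 3 → ZMod Q)}
    (hφ : Function.Injective φ) (hr : ∀ ξ ∈ T, ∃ η ∈ A, ∀ x, ch η x = ch ξ (φ x)) :
    ((B + B.image φ).card : ℝ) ≤ D ^ 202 * κ ^ 10 * B.card := by
  have b0 : (0 : ℝ) < B.card := by exact_mod_cast hB.card_pos
  have d0 : 0 < D := lt_of_lt_of_le (by norm_num) hD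
  have a1 : (B.card : ℝ) ^ 2 * √(n : ℝ) / D ^ 125 ≤
      ∑ ξ ∈ T, ‖G ε B ξ‖ * ‖∑ x ∈ B, ε x * ch ξ (φ x)‖ := by
    have e1 : ∀ ξ ∈ T, ((B.card : ℝ) / (2 * D ^ 2)) ^ 2 ≤
        ‖G ε B ξ‖ * ‖∑ x ∈ B, ε x * ch ξ (φ x)‖ := by
      intro ξ hξ
      obtain ⟨η, hη, e⟩ := hr ξ hξ
      have e2 : ∑ x ∈ B, ε x * ch ξ (φ x) = G ε B η := sum_congr rfl fun x _ => by rw [e]
      rw [e2, sq]
      exact mul_le_mul (hG ξ (hT hξ)) (hG η hη) (by positivity) (norm_nonneg _)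
    refine le_trans ?_ (card_nsmul_le_sum _ _ _ e1)
    rw [nsmul_eq_mul]
    calc (B.card : ℝ) ^ 2 * √(n : ℝ) / D ^ 125 ≤ (B.card : ℝ) ^ 2 * √(n : ℝ) / (4 * D ^ 124) := by
          gcongr
          calc 4 * D ^ 124 ≤ D * D ^ 124 := by gcongr; linarith
            _ = D ^ 125 := by ring
      _ = √(n : ℝ) / D ^ 120 * ((B.card : ℝ) / (2 * D ^ 2)) ^ 2 := by field_simp; norm_num
      _ ≤ _ := by gcongr
  obtain ⟨c', hc', a2⟩ := hC n Q D (D ^ 125) hn d0 (by positivity) hS B ε ε φ T (hT.trans hA) hε hε a1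
  have a3 : ((Sp n Q (2 * D ^ 125) c').card : ℝ) ≤ F := by
    refine hBd.mono (by positivity) ?_ le_rfl c' hc'
    calc 2 * D ^ 125 ≤ D * D ^ 125 := by gcongr; linarith
      _ = D ^ 126 := by ring
  have a4 := hR _ B (Sp n Q (2 * D ^ 125) c') φ (2 ^ 22 * D ^ 32 * κ ^ 4)
    (1 / (32 * D ^ 134 * κ ^ 2)) F hφ hB (by positivity) hF a3 h2 (le_trans ?_ a2)
  · refine a4.trans ?_
    gcongr
    calc (2 ^ 22 * D ^ 32 * κ ^ 4) ^ 2 / (1 / (32 * D ^ 134 * κ ^ 2))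
        = 2 ^ 49 * (D ^ 198 * κ ^ 10) := by field_simp; norm_num
      _ ≤ D ^ 4 * (D ^ 198 * κ ^ 10) := by
          gcongr
          calc (2 : ℝ) ^ 49 ≤ (2 ^ 13) ^ 4 := by norm_num
            _ ≤ D ^ 4 := by gcongr
      _ = _ := by ring
  · calc 1 / (32 * D ^ 134 * κ ^ 2) * B.card * F
        ≤ 1 / (32 * D ^ 134 * κ ^ 2) * B.card * (16 * D ^ 8 * κ ^ 2 * B.card) := by gcongr
      _ = _ := by field_simp; norm_num

theorem ne_zero_of_lt {Q : ℕ} {z : ℤ} (h0 : 0 < z) (h : (z : ℝ) < Q) : (z : ZMod Q) ≠ 0 := by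
  intro e
  have h1 := Int.le_of_dvd h0 ((ZMod.intCast_zmod_eq_zero_iff_dvd _ _).1 e)
  have h2 : z < Q := by exact_mod_cast h
  omega

theorem red_cross (Q : ℕ) (a b : Fin 3 → ℤ) :
    crossProduct (red Q a) (red Q b) = red Q (crossProduct a b) := by
  funext i
  fin_cases i <;> simp [red, cross_apply]

theorem red_dot (Q : ℕ) (a : Fin 3 → ℤ) : red Q a ⬝ᵥ red Q a = ((a ⬝ᵥ a : ℤ) : ZMod Q) := by
  simp [red, dotProduct]

theorem cross_le (a b : Fin 3 → ℤ) :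
    crossProduct a b ⬝ᵥ crossProduct a b ≤ (a ⬝ᵥ a) * (b ⬝ᵥ b) := by
  rw [cross_dot_cross, dotProduct_comm b a]; nlinarith [mul_self_nonneg (a ⬝ᵥ b)]

theorem final {x F D : ℝ} (hx : 0 < x) (hF : 0 < F) (hD : 16 ≤ D)
    (h : x ^ 2 / (16 * D ^ 8 * F) ≤ (D ^ 23) ^ 3 * (D ^ 202 * (F / x) ^ 10) ^ 232) :
    x ≤ D ^ 22 * F ^ (2321 / 2322 : ℝ) := by
  have d0 : 0 < D := by linarith
  have h1 : x ^ 2322 ≤ 16 * D ^ 46941 * F ^ 2321 := by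
    rw [div_le_iff₀ (by positivity)] at h
    have e : (D ^ 23) ^ 3 * (D ^ 202 * (F / x) ^ 10) ^ 232 * (16 * D ^ 8 * F) =
        16 * D ^ 46941 * F ^ 2321 / x ^ 2320 := by
      rw [mul_pow, ← pow_mul, ← pow_mul, ← pow_mul, div_pow, eq_div_iff (by positivity)]
      have : F ^ (10 * 232) / x ^ (10 * 232) * x ^ 2320 = F ^ 2320 := div_mul_cancel₀ _ (by positivity)
      calc _ = 16 * (D ^ (23 * 3) * D ^ (202 * 232) * D ^ 8) *
            (F ^ (10 * 232) / x ^ (10 * 232) * x ^ 2320 * F) := by ring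
        _ = _ := by rw [this, ← pow_add, ← pow_add, ← pow_succ]
    rw [e, le_div_iff₀ (by positivity), ← pow_add] at h
    exact h
  refine le_of_pow_le_pow_left₀ (n := 2322) (by norm_num) (by positivity) (h1.trans ?_)
  have e2 : (F ^ (2321 / 2322 : ℝ)) ^ 2322 = F ^ 2321 := by
    rw [← Real.rpow_natCast, ← Real.rpow_mul hF.le, ← Real.rpow_natCast]
    norm_num
  rw [mul_pow, e2, ← pow_mul]
  refine mul_le_mul_of_nonneg_right ?_ (by positivity)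
  calc 16 * D ^ 46941 ≤ D * D ^ 46941 := mul_le_mul_of_nonneg_right hD (by positivity)
    _ = D ^ (46941 + 1) := (pow_succ' _ _).symm
    _ ≤ _ := pow_le_pow_right₀ (by linarith) (by norm_num)

end RecP

open RecP in
theorem recur (hH : S_Her) (hC : S_Cor) (hB : S_Bsg) (hR : S_Ruz) (hRing : S_Ring) (hM : S_Mat)
    (hL : S_Line) (hK : S_Hk) : S_Rec := by
  intro n Q _ D F hQ1 hQ2 hG hF hBd c hc
  have hG' := hG
  obtain ⟨hD, hDN, hS, hCirc, -, -⟩ := hG'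
  have d0 : 0 < D := lt_of_lt_of_le (by norm_num) hD
  have d1 : 1 ≤ D := le_trans (by norm_num) hD
  have d16 : 64 ≤ D := le_trans (by norm_num) hD
  have F0 : 0 < F := by linarith
  have hlt : ∀ k : ℕ, k < 50 → D ^ k < √(n : ℝ) := fun k hk =>
    (pow_lt_pow_right₀ (by linarith) hk).trans_le hDN
  have hn : 1 ≤ n := by
    rcases Nat.eq_zero_or_pos n with rfl | h
    · have := hlt 0 (by norm_num); simp at this; linarith
    · exact h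
  have hNn : √(n : ℝ) ≤ n := by
    rw [Real.sqrt_le_iff]
    have : (1 : ℝ) ≤ n := by exact_mod_cast hn
    exact ⟨by linarith, by nlinarith⟩
  rcases (Sp n Q D c).eq_empty_or_nonempty with e | hX
  · rw [e, card_empty, Nat.cast_zero]; positivity
  set X := Sp n Q D c with hXd
  have x0 : (0 : ℝ) < X.card := by exact_mod_cast hX.card_pos
  have hXF : (X.card : ℝ) ≤ F :=
    hBd.mono d0 (le_self_pow₀ d1 (by norm_num)) le_rfl c hc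
  have k1 : 1 ≤ F / X.card := (one_le_div x0).2 hXF
  obtain ⟨ε, hε⟩ := hH n Q D c hc
  obtain ⟨B, hBX, b1, b2⟩ := hB n Q D F hn d0 F0 hS (hBd.mono (by positivity) (by
    calc 2 * D ^ 3 ≤ D * D ^ 3 := by gcongr; linarith
      _ = D ^ 4 := by ring
      _ ≤ _ := pow_le_pow_right₀ d1 (by norm_num)) le_rfl) X ε hX hε
  have b0 : (0 : ℝ) < B.card := lt_of_lt_of_le (by positivity) b1
  have hBn : B.Nonempty := card_pos.1 (by exact_mod_cast b0)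
  have hεB := hε.mono hBX
  obtain ⟨A, hA, a1, a2⟩ := exists_A d0 hS hBn hεB
  obtain ⟨γ, δ, T, g0, g0', g1, g1', hcr, hT, hT', hrot⟩ := hK n D A hG hA a1
  have b3 : F ≤ 16 * D ^ 8 * (F / X.card) ^ 2 * B.card := by
    calc F = 16 * D ^ 8 * (F / X.card) ^ 2 * ((X.card : ℝ) ^ 2 / (16 * D ^ 8 * F)) := by field_simp
      _ ≤ _ := by gcongr
  have q18 : D ^ 18 < Q := (hlt 18 (by norm_num)).trans_le hQ1
  have two : (2 : ZMod Q) ≠ 0 := by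
    have := ne_zero_of_lt (Q := Q) (z := 2) two_pos (lt_of_le_of_lt (by
      push_cast; exact le_trans (by linarith) (le_self_pow₀ d1 (by norm_num))) q18)
    exact_mod_cast this
  have mk : ∀ β : Quaternion ℤ, 0 < β.re → ((Quaternion.normSq β : ℤ) : ℝ) ≤ D ^ 18 →
      ((Quaternion.normSq β : ℤ) : ZMod Q) ≠ 0 ∧ ((β.re : ℤ) : ZMod Q) ≠ 0 ∧
        ((vc β ⬝ᵥ vc β : ℤ) : ℝ) ≤ D ^ 18 := by
    intro β h0 h1
    have e := normSq_eq β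
    have e0 := dot_nonneg (vc β)
    refine ⟨ne_zero_of_lt (by nlinarith) (h1.trans_lt q18), ne_zero_of_lt h0 ?_, ?_⟩
    · refine lt_of_le_of_lt (le_trans ?_ h1) q18
      exact_mod_cast (by nlinarith : β.re ≤ Quaternion.normSq β)
    · refine le_trans ?_ h1
      exact_mod_cast (by nlinarith : vc β ⬝ᵥ vc β ≤ Quaternion.normSq β)
  obtain ⟨m1, m2, m3⟩ := mk γ g0 g1
  obtain ⟨m1', m2', m3'⟩ := mk δ g0' g1'
  obtain ⟨φ, φ', s, hs, p1, p2, p3, p4⟩ := hM Q γ m1 m2 two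
  obtain ⟨ψ, ψ', t, ht, r1, r2, r3, r4⟩ := hM Q δ m1' m2' two
  have s1 := rot_step hC hR hn hD F0 (by linarith) hS hBd hε.1 hBn b3 b2 hA a2 hT hT'
    (Function.LeftInverse.injective p2) fun ξ hξ =>
      (hrot ξ hξ).1.imp fun η h => ⟨h.1, p4 ξ η h.2⟩
  have s2 := rot_step hC hR hn hD F0 (by linarith) hS hBd hε.1 hBn b3 b2 hA a2 hT hT'
    (Function.LeftInverse.injective r2) fun ξ hξ =>
      (hrot ξ hξ).2.imp fun η h => ⟨h.1, r4 ξ η h.2⟩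
  set e := crossProduct (vc γ) (vc δ) with he
  have e1 : ((e ⬝ᵥ e : ℤ) : ℝ) ≤ D ^ 36 := by
    calc ((e ⬝ᵥ e : ℤ) : ℝ) ≤ ((vc γ ⬝ᵥ vc γ : ℤ) : ℝ) * ((vc δ ⬝ᵥ vc δ : ℤ) : ℝ) := by
          exact_mod_cast cross_le _ _
      _ ≤ D ^ 18 * D ^ 18 :=
          mul_le_mul m3 m3' (by exact_mod_cast dot_nonneg _) (by positivity)
      _ = _ := by ring
  have e2 : 0 < e ⬝ᵥ e :=
    lt_of_le_of_ne (dot_nonneg e) fun h => hcr (dotProduct_self_eq_zero.1 h.symm)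
  have e3 : red Q e ⬝ᵥ red Q e ≠ 0 := by
    rw [red_dot]; exact ne_zero_of_lt e2 (e1.trans_lt ((hlt 36 (by norm_num)).trans_le hQ1))
  have e4 : ∀ i, |e i| ≤ (⌊D ^ 18⌋₊ : ℕ) := by
    intro i
    have h1 : ((|e i| : ℤ) : ℝ) ≤ D ^ 18 := by
      refine le_of_pow_le_pow_left₀ (n := 2) (by norm_num) (by positivity) ?_
      rw [← pow_mul, ← Int.cast_pow, sq_abs]
      exact le_trans (by exact_mod_cast sq_le_dot e i) e1
    have h2 : (|e i|).toNat ≤ ⌊D ^ 18⌋₊ := Nat.le_floor (by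
      rw [← Int.cast_natCast, Int.toNat_of_nonneg (abs_nonneg _)]; exact h1)
    omega
  have e5 : ⌊D ^ 18⌋₊ ≤ 2 * n := by
    have : (⌊D ^ 18⌋₊ : ℝ) ≤ n :=
      (Nat.floor_le (by positivity)).trans ((hlt 18 (by norm_num)).le.trans hNn)
    have : ⌊D ^ 18⌋₊ ≤ n := by exact_mod_cast this
    omega
  have l1 := hL n Q D ⌊D ^ 18⌋₊ e hn hQ1 hQ2 d0 hS hCirc (fun h => e3 (by rw [h]; simp)) e4 e5 B ε hεB
  have K1 : (1 : ℝ) ≤ D ^ 202 * (F / X.card) ^ 10 :=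
    one_le_mul_of_one_le_of_one_le (one_le_pow₀ d1) (one_le_pow₀ k1)
  have fin := hRing Q B (D ^ 202 * (F / X.card) ^ 10) (D ^ 23) φ φ' ψ ψ' _ _ s t hBn K1
    (b2.trans ?_) p1 p2 r1 r2 s1 s2 hs ht p3 r3 (by rw [red_cross]; exact e3) fun z => ?_
  · exact final x0 F0 (by linarith) (b1.trans fin)
  · refine mul_le_mul_of_nonneg_right (mul_le_mul ?_ (pow_le_pow_right₀ k1 (by norm_num))
      (by positivity) (by positivity)) b0.le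
    calc 2 ^ 22 * D ^ 32 ≤ D ^ 2 * D ^ 32 := by
          gcongr
          calc (2 : ℝ) ^ 22 ≤ (2 ^ 13) ^ 2 := by norm_num
            _ ≤ D ^ 2 := by gcongr
      _ = D ^ 34 := by ring
      _ ≤ _ := pow_le_pow_right₀ d1 (by norm_num)
  · rw [red_cross]
    refine (l1 z).trans ?_
    calc 28 * (⌊D ^ 18⌋₊ : ℝ) * D ^ 4 ≤ D * D ^ 18 * D ^ 4 := by
          gcongr
          · linarith
          · exact Nat.floor_le (by positivity)
      _ = _ := by ring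

end Pool.Agent.P.MP_c76d8c_an.AA
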