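import Pool.Agent.P.MP_c76d8c_an.AA.Defs

/-! From two approximate symmetries to a bound by the points on lines. -/

namespace Pool.Agent.P.MP_c76d8c_an.AA

open Finset Matrix
open scoped Pointwise

namespace RingP

theorem frame {R : Type} [CommRing R] (a b d : Fin 3 → R) :
    (crossProduct a b ⬝ᵥ crossProduct a b) • d = (a ⬝ᵥ d) • crossProduct b (crossProduct a b) +
      (b ⬝ᵥ d) • crossProduct (crossProduct a b) a + (crossProduct a b ⬝ᵥ d) • crossProduct a b := by
  funext i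
  fin_cases i <;> simp [cross_apply, dotProduct, Fin.sum_univ_three] <;> ring

theorem cross_e {R : Type} [CommRing R] {e y : Fin 3 → R} (h : y ⬝ᵥ e = 0) (x : Fin 3 → R) :
    crossProduct y (crossProduct e x) = (y ⬝ᵥ x) • e := by
  rw [cross_cross_eq_smul_sub_smul', dotProduct_comm e, h, zero_smul, sub_zero]

theorem line_count {Q : ℕ} {B W : Finset (Fin 3 → ZMod Q)} {e : Fin 3 → ZMod Q} {Φ : ℝ}
    (hW : ∀ w ∈ W, ∃ u : ZMod Q, w = u • e) (h : ∀ z, ((Ln B z e).card : ℝ) ≤ Φ) :
    (B.card : ℝ) * W.card ≤ Φ * (B + W).card := by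
  have h1 := card_eq_sum_card_fiberwise (s := B ×ˢ W) (t := B + W) (f := fun q => q.1 + q.2)
    fun q hq => add_mem_add (mem_product.1 hq).1 (mem_product.1 hq).2
  rw [← Nat.cast_mul, ← card_product, h1, Nat.cast_sum, mul_comm, ← nsmul_eq_mul]
  refine sum_le_card_nsmul _ _ _ fun z _ => le_trans (Nat.cast_le.2 ?_) (h z)
  refine card_le_card_of_injOn Prod.fst (fun q hq => ?_) fun q hq q' hq' e => ?_
  · obtain ⟨h2, h3⟩ := mem_filter.1 hq
    obtain ⟨u, hu⟩ := hW _ (mem_product.1 h2).2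
    exact mem_coe.2 (mem_Ln.2 ⟨(mem_product.1 h2).1, -u, by rw [← h3, hu, neg_smul]; abel⟩)
  · refine Prod.ext e (add_left_cancel (a := q.1) ?_)
    rw [(mem_filter.1 hq).2, e, (mem_filter.1 hq').2]

theorem inv_card {V : Type} [AddCommGroup V] [DecidableEq V] (B : Finset V) {φ φ' : V →+ V}
    (h : ∀ x, φ (φ' x) = x) (h' : ∀ x, φ' (φ x) = x) :
    (B + B.image φ').card = (B + B.image φ).card := by
  rw [← card_image_of_injective _ (Function.LeftInverse.injective h'), image_add, image_image,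
    add_comm, show φ ∘ φ' = id from funext h, image_id]

end RingP

open RingP

theorem ring_step (h : S_Cov) : S_Ring := by
  intro Q _ B K Φ φ φ' ψ ψ' a b s t hB hK hBB h1 h2 h3 h4 hφ hψ hs ht ha hb he hL
  obtain ⟨c1, c2, c3, c4⟩ := h _ B K hB hK hBB
  set e := crossProduct a b with he'
  have cA : Cv K B (φ - φ' : _ →+ _) 13 := c2 φ φ' 4 4
    (c1 φ (Function.LeftInverse.injective h2) hφ)
    (c1 φ' (Function.LeftInverse.injective h1) (by rwa [inv_card B h1 h2]))
  have cB : Cv K B (ψ - ψ' : _ →+ _) 13 := c2 ψ ψ' 4 4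
    (c1 ψ (Function.LeftInverse.injective h4) hψ)
    (c1 ψ' (Function.LeftInverse.injective h3) (by rwa [inv_card B h3 h4]))
  set A := φ - φ' with hA
  set A' := ψ - ψ' with hA'
  have eA : ∀ x, A x = s • crossProduct a x := ha
  have eB : ∀ x, A' x = t • crossProduct b x := hb
  have cC : Cv K B (A.comp A' - A'.comp A : _ →+ _) 57 :=
    c2 (A.comp A') (A'.comp A) 26 26 (c3 A A' 13 13 cA cB) (c3 A' A 13 13 cB cA)
  set C := A.comp A' - A'.comp A with hC
  have eC : ∀ x, C x = (s * t) • crossProduct e x := fun x => by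
    change A (A' x) - A' (A x) = _
    rw [eA, eB, eB, eA, map_smul, map_smul, he', cross_cross, smul_smul, smul_smul, mul_comm t,
      smul_sub]
  have ae : a ⬝ᵥ e = 0 := dot_self_cross a b
  have be : b ⬝ᵥ e = 0 := dot_cross_self a b
  have e1 : ∀ x, A (C x) = (s * (s * t) * (a ⬝ᵥ x)) • e := fun x => by
    rw [eA, eC, map_smul, cross_e ae, smul_smul, smul_smul]
  have e2 : ∀ x, A' (C x) = (t * (s * t) * (b ⬝ᵥ x)) • e := fun x => by
    rw [eB, eC, map_smul, cross_e be, smul_smul, smul_smul]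
  have e3 : ∀ x, A (C (A' x)) = (s * (s * t) * t * (e ⬝ᵥ x)) • e := fun x => by
    rw [e1, eB, dotProduct_smul, smul_eq_mul, ← mul_assoc, triple_product_permutation,
      triple_product_permutation, dotProduct_comm e]
  have B0 : (0 : ℝ) < B.card := by exact_mod_cast hB.card_pos
  have Φ0 : 0 ≤ Φ := (Nat.cast_nonneg _).trans (hL 0)
  have key : ∀ (g : (Fin 3 → ZMod Q) → Fin 3 → ZMod Q) (j : ℕ), Cv K B g j →
      (∀ x, ∃ u : ZMod Q, g x = u • e) → (((B - B).image g).card : ℝ) ≤ Φ * K ^ (j + 3) := by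
    intro g j hg hg'
    have k1 := line_count (B := B) (W := (B - B).image g) (fun w hw => by
      obtain ⟨x, -, rfl⟩ := mem_image.1 hw
      exact hg' x) hL
    refine le_of_mul_le_mul_left (k1.trans ?_) B0
    calc _ ≤ Φ * (K ^ (j + 3) * B.card) := mul_le_mul_of_nonneg_left (c4 g j hg) Φ0
      _ = _ := by ring
  have k1 := key _ _ (c3 A C 13 57 cA cC) fun x => ⟨_, e1 x⟩
  have k2 := key _ _ (c3 A' C 13 57 cB cC) fun x => ⟨_, e2 x⟩
  have k3 := key _ _ (c3 (A.comp C) A' 70 13 (c3 A C 13 57 cA cC) cB) fun x => ⟨_, e3 x⟩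
  have e0 : e ≠ 0 := fun z => he (by rw [z, dotProduct_zero])
  have can : ∀ {r u u' : ZMod Q}, r ≠ 0 → (r * u) • e = (r * u') • e → u = u' := fun hr z =>
    mul_left_cancel₀ hr (smul_left_injective _ e0 z)
  have hst : s * t ≠ 0 := mul_ne_zero hs ht
  have k4 : (B - B).card ≤ (((B - B).image fun u => A (C u)) ×ˢ ((B - B).image fun u => A' (C u)) ×ˢ
      ((B - B).image fun u => A.comp C (A' u))).card := by
    refine card_le_card_of_injOn (fun u => (A (C u), A' (C u), A.comp C (A' u))) (fun u hu => ?_)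
      fun x _ y _ z => ?_
    · exact mem_coe.2 (mem_product.2 ⟨mem_image_of_mem _ hu,
        mem_product.2 ⟨mem_image_of_mem _ hu, mem_image_of_mem _ hu⟩⟩)
    · obtain ⟨z1, z⟩ := Prod.ext_iff.1 z
      obtain ⟨z2, z3⟩ := Prod.ext_iff.1 z
      have w1 := can (mul_ne_zero hs hst) (((e1 x).symm.trans z1).trans (e1 y))
      have w2 := can (mul_ne_zero ht hst) (((e2 x).symm.trans z2).trans (e2 y))
      have w3 := can (mul_ne_zero (mul_ne_zero hs hst) ht) (((e3 x).symm.trans z3).trans (e3 y))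
      refine smul_right_injective _ he ?_
      beta_reduce
      rw [frame a b x, frame a b y, ← he', w1, w2, w3]
  rw [card_product, card_product] at k4
  calc (B.card : ℝ) ≤ _ := Nat.cast_le.2 (card_le_card_sub_self.trans k4)
    _ ≤ Φ * K ^ (13 + 57 + 3) * (Φ * K ^ (13 + 57 + 3) * (Φ * K ^ (70 + 13 + 3))) := by
      rw [Nat.cast_mul, Nat.cast_mul]
      exact mul_le_mul k1 (mul_le_mul k2 k3 (Nat.cast_nonneg _) ((Nat.cast_nonneg _).trans k2))
        (mul_nonneg (Nat.cast_nonneg _) (Nat.cast_nonneg _)) ((Nat.cast_nonneg _).trans k1)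
    _ = _ := by ring

end Pool.Agent.P.MP_c76d8c_an.AA
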