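import Pool.Agent.P.MP_c76d8c_an.AA.Defs

/-! A popular sum and the triangle inequality of Ruzsa. -/

namespace Pool.Agent.P.MP_c76d8c_an.AA

open Finset
open scoped Pointwise

theorem ruz : S_Ruz := by
  intro V _ _ B Z φ K r F hφ hB hr hF hZ hK h
  have hB0 : (0 : ℝ) < B.card := Nat.cast_pos.2 hB.card_pos
  obtain ⟨P, hP⟩ : ∃ P, P = (B ×ˢ B).filter fun q => q.1 + φ q.2 ∈ Z := ⟨_, rfl⟩
  rw [← hP] at h
  have hP' : ∀ q ∈ P, (q.1 ∈ B ∧ q.2 ∈ B) ∧ q.1 + φ q.2 ∈ Z := fun q hq => by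
    rwa [hP, mem_filter, mem_product] at hq
  have hm : ∀ q ∈ P, q.1 + φ q.2 ∈ Z := fun q hq => (hP' q hq).2
  have hb : ∀ q ∈ P, q.1 ∈ B ∧ q.2 ∈ B := fun q hq => (hP' q hq).1
  have hZ0 : Z.Nonempty := by
    obtain ⟨q, hq⟩ : P.Nonempty :=
      card_pos.1 (Nat.cast_pos.1 ((mul_pos (mul_pos hr hB0) hF).trans_le h))
    exact ⟨_, hm q hq⟩
  obtain ⟨z, -, hz⟩ := exists_le_card_fiber_of_nsmul_le_card_of_maps_to (b := r * B.card) hm hZ0
    (by
      rw [nsmul_eq_mul, mul_comm]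
      exact (mul_le_mul_of_nonneg_left hZ (mul_pos hr hB0).le).trans h)
  obtain ⟨B₁, hB₁⟩ : ∃ B₁, B₁ = (P.filter fun q => q.1 + φ q.2 = z).image Prod.fst := ⟨_, rfl⟩
  have h1 : r * B.card ≤ B₁.card := by
    rw [hB₁, card_image_of_injOn]
    · exact hz
    · intro q hq q' hq' e
      have e1 := (mem_filter.1 hq).2.trans (mem_filter.1 hq').2.symm
      rw [e, add_right_inj] at e1
      exact Prod.ext e (hφ e1)
  have h2 : ∀ x ∈ B₁, x ∈ B ∧ ∃ y ∈ B, x + φ y = z := fun x hx => by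
    rw [hB₁] at hx
    obtain ⟨q, hq, rfl⟩ := mem_image.1 hx
    exact ⟨(hb q (mem_filter.1 hq).1).1, q.2, (hb q (mem_filter.1 hq).1).2, (mem_filter.1 hq).2⟩
  have h3 : ((B₁ - B).card : ℝ) ≤ K * B.card :=
    (Nat.cast_le.2 (card_le_card (sub_subset_sub_right fun x hx => (h2 x hx).1))).trans hK
  have h4 : ((B₁ + B.image φ).card : ℝ) ≤ K * B.card := by
    refine (Nat.cast_le.2 ((card_le_card (t := (B - B).image fun u => z + φ u) ?_).trans
      card_image_le)).trans hK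
    intro w hw
    obtain ⟨x, hx, w', hw', rfl⟩ := mem_add.1 hw
    obtain ⟨y', hy', rfl⟩ := mem_image.1 hw'
    obtain ⟨y, hy, e⟩ := (h2 x hx).2
    refine mem_image.2 ⟨y' - y, sub_mem_sub hy' hy, ?_⟩
    rw [← e, map_sub]
    abel
  have h5 : (B₁.card : ℝ) * (B + B.image φ).card ≤ (B₁ - B).card * (B₁ + B.image φ).card := by
    exact_mod_cast ruzsa_triangle_inequality_add_sub_add B B₁ (B.image φ)
  have h6 : r * B.card * (B + B.image φ).card ≤ K * B.card * (K * B.card) :=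
    ((mul_le_mul_of_nonneg_right h1 (Nat.cast_nonneg _)).trans h5).trans
      (mul_le_mul h3 h4 (Nat.cast_nonneg _) ((Nat.cast_nonneg _).trans h3))
  rw [div_mul_eq_mul_div, le_div_iff₀ hr]
  refine le_of_mul_le_mul_left ?_ hB0
  calc (B.card : ℝ) * ((B + B.image φ).card * r) = r * B.card * (B + B.image φ).card := by ring
    _ ≤ K * B.card * (K * B.card) := h6
    _ = _ := by ring

end Pool.Agent.P.MP_c76d8c_an.AA
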