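import Pool.Agent.P.MP_c76d8c_an.AA.Defs

/-! Selection of two rotations with independent axes. -/

namespace Pool.Agent.P.MP_c76d8c_an.AA

open Finset Matrix

namespace SelP

theorem rot_comp {α β : Quaternion ℤ} {ζ ξ η : Fin 3 → ℤ} (hα : Quaternion.normSq α ≠ 0)
    (h1 : Rot α ζ ξ) (h2 : Rot β ζ η) : Rot (β * star α) ξ η := by
  have h3 := h1.inv hα
  unfold Rot at *
  calc β * star α * pv ξ * star (β * star α) = β * (star α * pv ξ * star (star α)) * star β := by
        rw [star_mul]; simp only [mul_assoc]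
    _ = _ := by rw [h3, mul_smul_comm, smul_mul_assoc, h2, map_mul, smul_smul, mul_comm]

theorem key {β : Quaternion ℤ} {ξ η : Fin 3 → ℤ} (h : Rot β ξ η) :
    2 * β.re * (crossProduct (vc β) ξ ⬝ᵥ crossProduct (vc β) ξ) =
      Quaternion.normSq β * (η ⬝ᵥ crossProduct (vc β) ξ) := by
  obtain ⟨h2, h3, h4⟩ := h.coord
  generalize Quaternion.normSq β = m at *
  simp only [dot3, cross_apply, vc]
  simp
  linear_combination -(β.imJ * ξ 2 - β.imK * ξ 1) * h2 - (β.imK * ξ 0 - β.imI * ξ 2) * h3 -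
    (β.imI * ξ 1 - β.imJ * ξ 0) * h4

theorem par_eq {a d : Fin 3 → ℤ} (h : crossProduct a d = 0) (i j : Fin 3) : d i * a j = a i * d j := by
  have h0 := congrFun h 0
  have h1 := congrFun h 1
  have h2 := congrFun h 2
  simp [cross_apply] at h0 h1 h2
  fin_cases i <;> fin_cases j <;> simp <;> linarith

theorem sign_mul {x y : ℤ} (h : SignType.sign x = SignType.sign y) :
    0 ≤ x * y ∧ (x ≠ 0 → 0 < x * y) := by
  rcases lt_trichotomy x 0 with hx | hx | hx
  · have hy : y < 0 := sign_eq_neg_one_iff.1 (h ▸ sign_eq_neg_one_iff.2 hx)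
    exact ⟨(mul_pos_of_neg_of_neg hx hy).le, fun _ => mul_pos_of_neg_of_neg hx hy⟩
  · simp [hx]
  · have hy : 0 < y := sign_eq_one_iff.1 (h ▸ sign_eq_one_iff.2 hx)
    exact ⟨(mul_pos hx hy).le, fun _ => mul_pos hx hy⟩

/-- the sign pattern -/
noncomputable def pat (α : Quaternion ℤ) : SignType × SignType × SignType × SignType :=
  (SignType.sign α.re, SignType.sign α.imI, SignType.sign α.imJ, SignType.sign α.imK)

theorem re_pos {α β : Quaternion ℤ} (h : pat β = pat α) (hβ : Quaternion.normSq β ≠ 0) :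
    0 < (β * star α).re := by
  simp only [pat, Prod.mk.injEq] at h
  obtain ⟨a1, b1⟩ := sign_mul h.1
  obtain ⟨a2, b2⟩ := sign_mul h.2.1
  obtain ⟨a3, b3⟩ := sign_mul h.2.2.1
  obtain ⟨a4, b4⟩ := sign_mul h.2.2.2
  have e : (β * star α).re = β.re * α.re + β.imI * α.imI + β.imJ * α.imJ + β.imK * α.imK := by
    simp
  rw [e]
  by_contra hc
  apply hβ
  have c1 : β.re = 0 := by by_contra h0; linarith [b1 h0]
  have c2 : β.imI = 0 := by by_contra h0; linarith [b2 h0]
  have c3 : β.imJ = 0 := by by_contra h0; linarith [b3 h0]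
  have c4 : β.imK = 0 := by by_contra h0; linarith [b4 h0]
  rw [Quaternion.normSq_def', c1, c2, c3, c4]; norm_num

theorem not_dvd {l : ℕ} {z : ℤ} (h0 : z ≠ 0) (h : z ^ 2 < (l : ℤ) ^ 2) : ¬ (l : ℤ) ∣ z := fun hd =>
  h0 (Int.eq_zero_of_abs_lt_dvd hd (abs_lt_of_sq_lt_sq h (by positivity)))

theorem dvd_W {l l1 : ℕ} (hl : l.Prime) (h2 : l ≠ 2) (hlt : l1 < l) {β : Quaternion ℤ}
    (hN : Quaternion.normSq β = l * l1) (hre : 0 < β.re) {ξ η : Fin 3 → ℤ} (hr : Rot β ξ η) :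
    vc β ≠ 0 ∧ ∀ a : Fin 3 → ℤ, crossProduct a (vc β) = 0 →
      (l : ℤ) ∣ crossProduct a ξ ⬝ᵥ crossProduct a ξ := by
  have hp : Prime (l : ℤ) := Nat.prime_iff_prime_int.1 hl
  have e := normSq_eq β
  have e0 := dot_nonneg (vc β)
  have l0 : (0 : ℤ) < l := by exact_mod_cast hl.pos
  have hlt' : (l : ℤ) * l1 < (l : ℤ) ^ 2 := by
    have : (l1 : ℤ) < l := by exact_mod_cast hlt
    nlinarith
  have n1 : ¬ (l : ℤ) ∣ β.re := not_dvd hre.ne' (by linarith)
  have hd : vc β ≠ 0 := fun h => n1 (hp.dvd_of_dvd_pow (n := 2) ⟨l1, by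
    rw [h, dotProduct_zero] at e; linarith⟩)
  refine ⟨hd, fun a ha => ?_⟩
  have n2 : (l : ℤ) ∣ crossProduct (vc β) ξ ⬝ᵥ crossProduct (vc β) ξ := by
    have h1 : (l : ℤ) ∣ 2 * β.re * (crossProduct (vc β) ξ ⬝ᵥ crossProduct (vc β) ξ) := by
      rw [key hr, hN, mul_assoc]; exact dvd_mul_right _ _
    refine (hp.dvd_or_dvd h1).resolve_left fun h => (hp.dvd_or_dvd h).elim (fun h => h2 ?_) n1
    exact (Nat.prime_dvd_prime_iff_eq hl Nat.prime_two).1 (by exact_mod_cast h)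
  obtain ⟨i, hi⟩ := Function.ne_iff.1 hd
  have n3 : ¬ (l : ℤ) ∣ vc β i := not_dvd hi (by nlinarith [sq_le_dot (vc β) i])
  have e2 : vc β i • a = a i • vc β := funext fun j => par_eq ha i j
  have e3 : vc β i • crossProduct a ξ = a i • crossProduct (vc β) ξ := by
    rw [← LinearMap.smul_apply, ← map_smul, e2, map_smul, LinearMap.smul_apply]
  have e4 : vc β i * (vc β i * (crossProduct a ξ ⬝ᵥ crossProduct a ξ)) =
      a i * (a i * (crossProduct (vc β) ξ ⬝ᵥ crossProduct (vc β) ξ)) := by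
    have := congrArg (fun v => v ⬝ᵥ v) e3
    simpa only [smul_dotProduct, dotProduct_smul, smul_eq_mul] using this
  have h3 : (l : ℤ) ∣ vc β i * (vc β i * (crossProduct a ξ ⬝ᵥ crossProduct a ξ)) := by
    rw [e4]; exact (n2.mul_left _).mul_left _
  exact (hp.dvd_or_dvd ((hp.dvd_or_dvd h3).resolve_left n3)).resolve_left n3

theorem two_pow_le {P : Finset ℕ} {W : ℕ} (hW : 0 < W) (h : ∀ l ∈ P, l.Prime ∧ l ∣ W) :
    2 ^ P.card ≤ W := by
  refine le_trans ?_ (Nat.le_of_dvd hW (prod_primes_dvd W (fun l hl => (h l hl).1.prime)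
    fun l hl => (h l hl).2))
  exact pow_card_le_prod _ _ _ fun l hl => (h l hl).1.two_le

end SelP

open SelP in
theorem sel : S_Sel := by
  intro n Y k P ζ al xi hY hk hP h
  obtain ⟨σ, -, hσ⟩ := exists_le_card_fiber_of_mul_le_card_of_maps_to (s := P) (t := univ)
    (f := fun l => pat (al l)) (n := k + 1) (fun _ _ => mem_univ _) univ_nonempty
    (by
      have : Fintype.card SignType = 3 := rfl
      simpa [this] using hP)
  set P' := P.filter fun l => pat (al l) = σ with hP'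
  have hne : P'.Nonempty := card_pos.1 (by omega)
  obtain ⟨l1, h1, hmin⟩ := exists_min_image P' id hne
  have m1 := mem_filter.1 h1
  obtain ⟨p1, -, y1, n1, r1, x1, w1⟩ := h l1 m1.1
  have l10 : Quaternion.normSq (al l1) ≠ 0 := by rw [n1]; exact_mod_cast p1.ne_zero
  have hc : k ≤ (P'.erase l1).card := by rw [card_erase_of_mem h1]; omega
  have main : ∀ l ∈ P'.erase l1, l ∈ P ∧ 0 < (al l * star (al l1)).re ∧
      Rot (al l * star (al l1)) (xi l1) (xi l) ∧ l.Prime ∧
      Quaternion.normSq (al l * star (al l1)) ≤ (Y : ℤ) ^ 2 ∧ vc (al l * star (al l1)) ≠ 0 ∧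
      ∀ a : Fin 3 → ℤ, crossProduct a (vc (al l * star (al l1))) = 0 →
        (l : ℤ) ∣ crossProduct a (xi l1) ⬝ᵥ crossProduct a (xi l1) := by
    intro l hl
    obtain ⟨hne, hl'⟩ := mem_erase.1 hl
    have m := mem_filter.1 hl'
    obtain ⟨p, p2, y, nl, r, -, -⟩ := h l m.1
    have hN : Quaternion.normSq (al l * star (al l1)) = l * l1 := by
      rw [map_mul, Quaternion.normSq_star, nl, n1]
    have hre := re_pos (m.2.trans m1.2.symm) (by rw [nl]; exact_mod_cast p.ne_zero)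
    have hr := rot_comp l10 r1 r
    refine ⟨m.1, hre, hr, p, ?_, dvd_W p p2 (lt_of_le_of_ne (hmin l hl') hne.symm) hN hre hr⟩
    rw [hN, sq]
    exact_mod_cast Nat.mul_le_mul y y1
  have hk0 : 0 < k := by
    rcases Nat.eq_zero_or_pos k with rfl | h0
    · have : n = 0 := by simpa using hk
      have := p1.pos
      have : Y = 0 := by simpa [‹n = 0›] using hY
      omega
    · exact h0
  obtain ⟨l2, h2⟩ := card_pos.1 (hk0.trans_le hc)
  obtain ⟨m2, re2, r2, -, N2, v2, -⟩ := main l2 h2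
  by_contra hcon
  push Not at hcon
  set a := vc (al l2 * star (al l1)) with ha
  have aa : a ⬝ᵥ a ≤ (Y : ℤ) ^ 2 := by
    have := normSq_eq (al l2 * star (al l1)); nlinarith
  have hW0 : crossProduct a (xi l1) ≠ 0 := w1 a v2 fun i =>
    abs_le_of_sq_le_sq ((sq_le_dot a i).trans aa) (by positivity)
  set W := crossProduct a (xi l1) ⬝ᵥ crossProduct a (xi l1) with hW
  have W0 : 0 < W := lt_of_le_of_ne (dot_nonneg _) fun h => hW0 (dotProduct_self_eq_zero.1 h.symm)
  have W1 : W ≤ (n : ℤ) ^ 2 := by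
    have hY' : (Y : ℤ) ^ 2 ≤ n := by exact_mod_cast hY
    rw [hW, cross_dot_cross, dotProduct_comm (xi l1) a, x1]
    nlinarith [mul_self_nonneg (a ⬝ᵥ xi l1), Int.natCast_nonneg n]
  have h3 := two_pow_le (P := P'.erase l1) (W := W.toNat) (by omega) fun l hl => by
    obtain ⟨m3, re3, r3, p3, -, -, d3⟩ := main l hl
    refine ⟨p3, Int.natCast_dvd_natCast.1 ?_⟩
    rw [Int.toNat_of_nonneg W0.le]
    exact d3 a (by_contra fun hc => hcon l1 m1.1 l2 m2 l m3 re2 re3 hc r2 r3)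
  have h4 : 2 ^ k ≤ 2 ^ (P'.erase l1).card := Nat.pow_le_pow_right two_pos hc
  have h5 : W.toNat ≤ n ^ 2 := by
    rw [Int.toNat_le]; exact_mod_cast W1
  omega

open SelP in
theorem par : S_Par := by
  classical
  intro n Y
  have h1 : Par n Y ⊆ ((Fintype.piFinset fun _ : Fin 3 => Icc (-(Y : ℤ)) Y).erase 0).biUnion
      fun a => (Sph n).filter fun ξ => crossProduct a ξ = 0 := by
    intro ξ hξ
    obtain ⟨h0, a, ha, hb, hc⟩ := mem_Par.1 hξ
    exact mem_biUnion.2 ⟨a, mem_erase.2 ⟨ha, Fintype.mem_piFinset.2 fun i =>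
      mem_Icc.2 (abs_le.1 (hb i))⟩, mem_filter.2 ⟨h0, hc⟩⟩
  refine (card_le_card h1).trans ((card_biUnion_le_card_mul _ _ 2 fun a ha => ?_).trans ?_)
  · obtain ⟨i, hi⟩ := Function.ne_iff.1 (mem_erase.1 ha).1
    rcases ((Sph n).filter fun ξ => crossProduct a ξ = 0).eq_empty_or_nonempty with e | ⟨ξ0, h0⟩
    · simp [e]
    refine (card_le_card (t := {ξ0, -ξ0}) fun ξ hξ => ?_).trans card_le_two
    have e : ∀ ξ ∈ (Sph n).filter fun ξ => crossProduct a ξ = 0,
        a i • ξ = ξ i • a ∧ a i * (a i * n) = ξ i * (ξ i * (a ⬝ᵥ a)) := by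
      intro ξ hξ
      have e1 : a i • ξ = ξ i • a := funext fun j => (par_eq (mem_filter.1 hξ).2 i j).symm
      refine ⟨e1, ?_⟩
      have := congrArg (fun v => v ⬝ᵥ v) e1
      simpa only [smul_dotProduct, dotProduct_smul, smul_eq_mul, mem_Sph.1 (mem_filter.1 hξ).1]
        using this
    obtain ⟨e1, e2⟩ := e ξ hξ
    obtain ⟨e3, e4⟩ := e ξ0 h0
    have aa : a ⬝ᵥ a ≠ 0 := fun h => (mem_erase.1 ha).1 (dotProduct_self_eq_zero.1 h)
    have e5 : ξ i * ξ i = ξ0 i * ξ0 i := mul_right_cancel₀ aa (by linarith)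
    rw [mem_insert, mem_singleton]
    refine (mul_self_eq_mul_self_iff.1 e5).imp (fun h => ?_) fun h => ?_
    · exact smul_right_injective _ hi (by simp only [e1, e3, h])
    · exact smul_right_injective _ hi (by simp only [smul_neg, e1, e3, h, neg_smul])
  · rw [mul_comm]
    gcongr
    refine card_erase_le.trans (le_of_eq ?_)
    simp only [Fintype.card_piFinset, Int.card_Icc, prod_const, card_univ, Fintype.card_fin]
    congr 1; omega

end Pool.Agent.P.MP_c76d8c_an.AA
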