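import Pool.Agent.P.MP_c76d8c_an.AA.Defs

/-! The level set bound from the bound for the large spectrum. -/

namespace Pool.Agent.P.MP_c76d8c_an.AA

open Finset Matrix
open scoped ComplexConjugate

namespace TTP

theorem phase (z : ℂ) : ∃ e : ℂ, ‖e‖ ≤ 1 ∧ e * z = (‖z‖ : ℝ) := by
  by_cases h : z = 0
  · exact ⟨0, by simp, by simp [h]⟩
  · refine ⟨(‖z‖ : ℝ) / z, ?_, div_mul_cancel₀ _ h⟩
    rw [norm_div, Complex.norm_real, norm_norm, div_self (norm_ne_zero_iff.2 h)]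

theorem ch_neg {Q : ℕ} [NeZero Q] (k : Fin 3 → ℤ) (x : Fin 3 → ZMod Q) :
    ch k (-x) = conj (ch k x) := by
  unfold ch
  rw [← AddChar.map_neg_eq_conj, ← sum_neg_distrib]
  simp only [Pi.neg_apply, mul_neg]

theorem pairs {V : Type} [AddCommGroup V] [DecidableEq V] (X Z : Finset V) :
    ((X ×ˢ X).filter fun q => q.1 + -q.2 ∈ Z).card ≤ X.card * Z.card := by
  rw [← card_product]
  refine card_le_card_of_injOn (fun q => (q.2, q.1 + -q.2)) (fun q hq => ?_) fun q _ q' _ e => ?_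
  · obtain ⟨h1, h2⟩ := mem_filter.1 (mem_coe.1 hq)
    exact mem_coe.2 (mem_product.2 ⟨(mem_product.1 h1).2, h2⟩)
  · obtain ⟨h1, h2⟩ := Prod.mk.inj e
    rw [h1, add_left_inj] at h2
    exact Prod.ext h2 h1

end TTP

open TTP in
theorem tt (h : S_Cor) : S_TT := by
  intro n Q _ D F hn hD hS hB S a hSn hm
  set X := univ.filter fun x : Fin 3 → ZMod Q => 2 * √(n : ℝ) / D * ms a S ≤ ‖fs id a S x‖ ^ 2
    with hX
  have hF : 0 ≤ F := (Nat.cast_nonneg _).trans (hB 0 fun _ => by simp)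
  choose ε hε he using fun x : Fin 3 → ZMod Q => phase (fs id a S x)
  have h0 : 0 ≤ 2 * √(n : ℝ) / D * ms a S := by positivity
  have h1 : X.card * √(2 * √(n : ℝ) / D * ms a S) ≤ ∑ x ∈ X, ‖fs id a S x‖ := by
    rw [← nsmul_eq_mul]
    exact card_nsmul_le_sum _ _ _ fun x hx =>
      Real.sqrt_le_iff.2 ⟨norm_nonneg _, (mem_filter.1 hx).2⟩
  have h2 : ((∑ x ∈ X, ‖fs id a S x‖ : ℝ) : ℂ) = ∑ ξ ∈ S, a ξ * G ε X ξ := by
    rw [Complex.ofReal_sum]
    simp only [← he]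
    simp only [fs, G, mul_sum, id]
    rw [sum_comm]
    exact sum_congr rfl fun _ _ => sum_congr rfl fun _ _ => by ring
  have h3 : ∑ x ∈ X, ‖fs id a S x‖ ≤ ∑ ξ ∈ S, ‖a ξ‖ * ‖G ε X ξ‖ := by
    refine (le_abs_self _).trans ?_
    rw [← Real.norm_eq_abs, ← Complex.norm_real, h2]
    exact norm_sum_le_of_le _ fun ξ _ => (norm_mul _ _).le
  have h4 := (pow_le_pow_left₀ (by positivity) (h1.trans h3) 2).trans
    (sum_mul_sq_le_sq_mul_sq S (fun ξ => ‖a ξ‖) fun ξ => ‖G ε X ξ‖)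
  rw [mul_pow, Real.sq_sqrt h0, ← mul_assoc, mul_comm] at h4
  have h5 := le_of_mul_le_mul_left h4 hm
  obtain ⟨c, hc, h6⟩ := h n Q D (D / 2) hn hD (by positivity) hS X ε (fun x => conj (ε x))
    Neg.neg S (fun b hb => mem_Sph.2 (hSn b hb)) hε (fun x => by simpa using hε x) (by
      refine le_trans (le_of_eq (by field_simp)) (h5.trans_eq (sum_congr rfl fun ξ _ => ?_))
      simp only [ch_neg, ← map_mul, ← map_sum, Complex.norm_conj]
      exact sq _)
  rw [mul_div_cancel₀ D two_ne_zero] at h6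
  have h7 : (X.card : ℝ) ^ 2 / (D * D) ≤ X.card * F :=
    h6.trans ((Nat.cast_le.2 (pairs X _)).trans (by
      rw [Nat.cast_mul]
      exact mul_le_mul_of_nonneg_left (hB c hc) (Nat.cast_nonneg _)))
  rcases (Nat.cast_nonneg X.card : (0 : ℝ) ≤ _).eq_or_lt with e | e
  · rw [← e]
    positivity
  · rw [div_le_iff₀ (by positivity)] at h7
    exact le_of_mul_le_mul_left (by linarith) e

end Pool.Agent.P.MP_c76d8c_an.AA
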