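import Pool.Agent.P.MP_c76d8c_an.AA.Defs

/-! Transfer of the grid bound to the torus. -/

namespace Pool.Agent.P.MP_c76d8c_an.AA

open Finset Matrix MeasureTheory

theorem transfer (hF : S_Fin) : ∃ b B : ℝ, 0 < b ∧ ∀ p : ℝ, 2 ≤ p → ∃ C : ℝ, ∀ n : ℕ, 1 ≤ n →
    Rich n → ∀ S : Finset (Fin 3 → ℤ), (∀ ξ ∈ S, ∑ j, (ξ j) ^ 2 = (n : ℤ)) →
    ∀ a : (Fin 3 → ℤ) → ℂ,
      (∫ x in Set.univ.pi (fun _ : Fin 3 => Set.Icc (0 : ℝ) (2 * Real.pi)),
          ‖∑ ξ ∈ S, a ξ * Complex.exp (Complex.I * ∑ j, ((ξ j : ℂ) * ((x j : ℝ) : ℂ)))‖ ^ p)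
          ^ (1 / p)
        ≤ C * (Real.sqrt (n : ℝ)) ^ (1 / 2 - 3 / p + B * p ^ (-1 - b)) *
          (∫ x in Set.univ.pi (fun _ : Fin 3 => Set.Icc (0 : ℝ) (2 * Real.pi)),
            ‖∑ ξ ∈ S, a ξ * Complex.exp (Complex.I * ∑ j, ((ξ j : ℂ) * ((x j : ℝ) : ℂ)))‖ ^ (2 : ℝ))
            ^ (1 / 2 : ℝ) := by
  have hT : Fact (0 < 2 * Real.pi) := ⟨Real.two_pi_pos⟩
  obtain ⟨b, B, hb, h0⟩ := hF
  refine ⟨b, B, hb, fun p hp => ?_⟩
  obtain ⟨C, hC, h⟩ := h0 p hp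
  refine ⟨((2 * Real.pi) ^ 3 * C) ^ (1 / p), fun n hn hr S hS a => ?_⟩
  have hS' : ∀ b ∈ S, b ⬝ᵥ b = n := fun b hb => by
    rw [← hS b hb, dotProduct]; simp only [sq]
  obtain ⟨Q, hQ, h1⟩ := h n hn hr
  have e : ∀ x : Fin 3 → ℝ,
      ∑ ξ ∈ S, a ξ * Complex.exp (Complex.I * ∑ j, ((ξ j : ℂ) * ((x j : ℝ) : ℂ))) =
        U S a fun l => (x l : AddCircle (2 * Real.pi)) := by
    intro x
    refine sum_congr rfl fun ξ _ => ?_
    simp only [fourier_coe_apply, ← Complex.exp_sum, mul_sum]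
    congr 2
    refine sum_congr rfl fun l _ => ?_
    have : (Real.pi : ℂ) ≠ 0 := by exact_mod_cast Real.pi_ne_zero
    push_cast; field_simp
  have p0 : 0 < p := by linarith
  have hc : Continuous fun z : Fin 3 → AddCircle (2 * Real.pi) => ‖U S a z‖ ^ p :=
    (continuous_U S a).norm.rpow_const fun _ => Or.inr p0.le
  simp only [e, Real.rpow_two]
  rw [box_int hc, box_int (F := fun z => ‖U S a z‖ ^ 2) ((continuous_U S a).norm.pow 2),
    int_sq hS']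
  set l := √(n : ℝ) ^ (1 / 2 - 3 / p + B * p ^ (-1 - b)) with hl
  have l0 : 0 ≤ l := by positivity
  have s0 := nr_nonneg a S
  have h2 := int_le (Q := Q) hc (fun z => by positivity) (B := C * (l * nr a S) ^ p) fun z => by
    simp only [U_shift]
    refine (h1 S _ hS').trans (le_of_eq ?_)
    simp only [nr, ms_mod, hl]
  have pi1 : 1 ≤ (2 * Real.pi) ^ 3 := one_le_pow₀ (by linarith [Real.pi_gt_three])
  calc _ ≤ ((2 * Real.pi) ^ 3 * (C * (l * nr a S) ^ p)) ^ (1 / p) := by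
        gcongr
    _ = ((2 * Real.pi) ^ 3 * C) ^ (1 / p) * l * nr a S := by
        rw [← mul_assoc, Real.mul_rpow (by positivity) (by positivity), one_div,
          Real.rpow_rpow_inv (by positivity) p0.ne', mul_assoc]
    _ ≤ _ := by
        gcongr
        rw [← Real.sqrt_eq_rpow]
        exact Real.sqrt_le_sqrt (le_mul_of_one_le_left (ms_nonneg _ _) pi1)

end Pool.Agent.P.MP_c76d8c_an.AA
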