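import Pool.Agent.P.MP_c76d8c_an.AA.Cor
import Pool.Agent.P.MP_c76d8c_an.AA.Bsg
import Pool.Agent.P.MP_c76d8c_an.AA.TT
import Pool.Agent.P.MP_c76d8c_an.AA.Ruz
import Pool.Agent.P.MP_c76d8c_an.AA.Cov
import Pool.Agent.P.MP_c76d8c_an.AA.Ring
import Pool.Agent.P.MP_c76d8c_an.AA.Mat
import Pool.Agent.P.MP_c76d8c_an.AA.Line
import Pool.Agent.P.MP_c76d8c_an.AA.Desc
import Pool.Agent.P.MP_c76d8c_an.AA.Nb
import Pool.Agent.P.MP_c76d8c_an.AA.Sel
import Pool.Agent.P.MP_c76d8c_an.AA.Hk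
import Pool.Agent.P.MP_c76d8c_an.AA.Rec
import Pool.Agent.P.MP_c76d8c_an.AA.Good
import Pool.Agent.P.MP_c76d8c_an.AA.Iter
import Pool.Agent.P.MP_c76d8c_an.AA.Fin
import Pool.Agent.P.MP_c76d8c_an.AA.Tr

/-! Assembly of the steps. -/

namespace Pool.Agent.P.MP_c76d8c_an.AA

theorem rec_all : S_Rec :=
  recur her cor (bsg cor) ruz (ring_step cov) mat line (hk (nb desc) par sel)

theorem fin_all : S_Fin := fin (iter rec_all good) (tt cor)

end Pool.Agent.P.MP_c76d8c_an.AA
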