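import Pool.Agent.P.MP_c76d8c_an.AA.Defs

/-! Heredity of the large spectrum and the count of pairs. -/

namespace Pool.Agent.P.MP_c76d8c_an.AA

open Finset

namespace CorP

theorem phase (z : ℂ) : ∃ e : ℂ, ‖e‖ ≤ 1 ∧ e * z = ‖z‖ := by
  by_cases h : z = 0
  · exact ⟨0, by simp, by simp [h]⟩
  · refine ⟨‖z‖ / z, ?_, div_mul_cancel₀ _ h⟩
    rw [norm_div, Complex.norm_real, norm_norm, div_self (norm_ne_zero_iff.2 h)]

theorem fs_le {n Q : ℕ} [NeZero Q] {c : (Fin 3 → ℤ) → ℂ} (hc : ∀ ξ, ‖c ξ‖ ≤ 1)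
    (x : Fin 3 → ZMod Q) : ‖fs id c (Sph n) x‖ ≤ (Sph n).card := by
  refine (norm_sum_le _ _).trans ((sum_le_card_nsmul _ _ 1 fun ξ _ => ?_).trans_eq (nsmul_one _))
  rw [norm_mul, norm_ch, mul_one]
  exact hc ξ

end CorP

open CorP

theorem her : S_Her := by
  intro n Q _ D c hc
  choose ε h1 h2 using fun x : Fin 3 → ZMod Q => phase (fs id c (Sph n) x)
  refine ⟨ε, h1, fun X' hX => ?_⟩
  have e : ((∑ x ∈ X', ‖fs id c (Sph n) x‖ : ℝ) : ℂ) = ∑ ξ ∈ Sph n, c ξ * G ε X' ξ := by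
    rw [Complex.ofReal_sum]
    simp only [← h2]
    simp only [fs, G, mul_sum, id]
    rw [sum_comm]
    exact sum_congr rfl fun ξ _ => sum_congr rfl fun x _ => by ring
  calc _ = X'.card • (√(n : ℝ) / D) := by rw [nsmul_eq_mul, mul_div_assoc]
    _ ≤ ∑ x ∈ X', ‖fs id c (Sph n) x‖ := card_nsmul_le_sum _ _ _ fun x hx => mem_Sp.1 (hX hx)
    _ ≤ ‖∑ ξ ∈ Sph n, c ξ * G ε X' ξ‖ := by
      rw [← e, Complex.norm_real]
      exact le_abs_self _
    _ ≤ _ := (norm_sum_le _ _).trans (sum_le_sum fun ξ _ => by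
      rw [norm_mul]
      exact mul_le_of_le_one_left (norm_nonneg _) (hc ξ))

theorem cor : S_Cor := by
  intro n Q _ D D' hn hD hD' hS X ε ε' φ T hT h1 h2 h
  choose e e1 e2 using fun ξ : Fin 3 → ℤ => phase (G ε X ξ * ∑ x ∈ X, ε' x * ch ξ (φ x))
  obtain ⟨c, hc⟩ : ∃ c : (Fin 3 → ℤ) → ℂ, c = fun ξ => if ξ ∈ T then e ξ else 0 := ⟨_, rfl⟩
  have c1 : ∀ ξ, ‖c ξ‖ ≤ 1 := fun ξ => by
    rw [hc]
    dsimp only
    split_ifs
    exacts [e1 ξ, by simp]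
  refine ⟨c, c1, ?_⟩
  have N0 : 0 < √(n : ℝ) := Real.sqrt_pos.2 (by exact_mod_cast hn)
  have e3 : ((∑ ξ ∈ T, ‖G ε X ξ‖ * ‖∑ x ∈ X, ε' x * ch ξ (φ x)‖ : ℝ) : ℂ) =
      ∑ q ∈ X ×ˢ X, ε q.1 * ε' q.2 * fs id c (Sph n) (q.1 + φ q.2) := by
    have e4 : ∀ x : Fin 3 → ZMod Q, fs id c (Sph n) x = ∑ ξ ∈ T, e ξ * ch ξ x := fun x => by
      rw [fs, ← sum_subset hT fun ξ _ h' => by simp [hc, h']]
      exact sum_congr rfl fun ξ h' => by simp [hc, h']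
    simp only [e4, mul_sum, ← norm_mul]
    rw [sum_comm, Complex.ofReal_sum]
    refine sum_congr rfl fun ξ _ => ?_
    rw [← mul_sum, ← e2, G, sum_mul_sum, sum_product, mul_sum]
    refine sum_congr rfl fun x _ => ?_
    rw [mul_sum]
    exact sum_congr rfl fun y _ => by rw [ch_add]; ring
  have e5 : ∑ ξ ∈ T, ‖G ε X ξ‖ * ‖∑ x ∈ X, ε' x * ch ξ (φ x)‖ ≤
      ∑ q ∈ X ×ˢ X, ((if q.1 + φ q.2 ∈ Sp n Q (2 * D') c then 1 else 0) * (√(n : ℝ) * D) +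
        √(n : ℝ) / (2 * D')) := by
    refine (le_abs_self _).trans ?_
    rw [← Real.norm_eq_abs, ← Complex.norm_real, e3]
    refine (norm_sum_le _ _).trans (sum_le_sum fun q _ => ?_)
    rw [norm_mul, norm_mul]
    refine (mul_le_of_le_one_left (norm_nonneg _)
      (mul_le_one₀ (h1 _) (norm_nonneg _) (h2 _))).trans ?_
    split_ifs with hq
    · rw [one_mul]
      exact ((fs_le c1 _).trans hS).trans (le_add_of_nonneg_right (by positivity))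
    · rw [zero_mul, zero_add]
      exact (not_le.1 fun h' => hq (mem_Sp.2 h')).le
  rw [sum_add_distrib, ← sum_mul, sum_boole, sum_const, card_product, nsmul_eq_mul] at e5
  have e6 := h.trans e5
  push_cast at e6
  refine le_of_mul_le_mul_right ?_ (mul_pos N0 hD)
  have e7 : (X.card : ℝ) ^ 2 / (2 * D' * D) * (√(n : ℝ) * D) =
      (X.card : ℝ) ^ 2 * √(n : ℝ) / D' - X.card * X.card * (√(n : ℝ) / (2 * D')) := by
    field_simp
    ring
  linarith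

end Pool.Agent.P.MP_c76d8c_an.AA
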