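import Mathlib

/-! Integers with many small split primes. -/

namespace Pool.Agent.P.MP_c76d8c_an.AA

/-- `n` is rich: for every `j` with `(log₂ n)^3 ≤ 2^j` and `4^(10 j) ≤ n` there are at least `2^j`
odd primes `l ≤ 4^j`, not dividing `n`, such that `-n` is a square modulo `l`. -/
def Rich (n : ℕ) : Prop :=
  ∀ j : ℕ, Nat.log 2 n ^ 3 ≤ 2 ^ j → 4 ^ (10 * j) ≤ n →
    ∃ L : Finset ℕ, 2 ^ j ≤ L.card ∧
      ∀ l ∈ L, l ≤ 4 ^ j ∧ l.Prime ∧ l ≠ 2 ∧ ¬ l ∣ n ∧ ∃ r : ℤ, (l : ℤ) ∣ r ^ 2 + n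

end Pool.Agent.P.MP_c76d8c_an.AA
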