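import Pool.Agent.P.MP_c76d8c_an.Tor
import Pool.Agent.P.MP_c76d8c_an.AA.Rich

/-! Interface of the almost-all eigenvalue bound: definitions and the statements of the steps. -/

namespace Pool.Agent.P.MP_c76d8c_an.AA

open Finset Matrix
open scoped Pointwise

/-- all lattice points on the sphere of radius `√n` -/
noncomputable def Sph (n : ℕ) : Finset (Fin 3 → ℤ) :=
  (Fintype.piFinset fun _ : Fin 3 => Icc (-(n : ℤ)) n).filter fun b => b ⬝ᵥ b = n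

theorem mem_Sph {n : ℕ} {b : Fin 3 → ℤ} : b ∈ Sph n ↔ b ⬝ᵥ b = n :=
  mem_filter.trans ⟨fun h => h.2, fun h =>
    ⟨Fintype.mem_piFinset.2 fun l => mem_Icc.2 (abs_le.1 (coord_le h l)), h⟩⟩

/-- the large spectrum at level `D` of the coefficients `c` -/
noncomputable def Sp (n Q : ℕ) [NeZero Q] (D : ℝ) (c : (Fin 3 → ℤ) → ℂ) :
    Finset (Fin 3 → ZMod Q) :=
  univ.filter fun x => √(n : ℝ) / D ≤ ‖fs id c (Sph n) x‖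

theorem mem_Sp {n Q : ℕ} [NeZero Q] {D : ℝ} {c : (Fin 3 → ℤ) → ℂ} {x : Fin 3 → ZMod Q} :
    x ∈ Sp n Q D c ↔ √(n : ℝ) / D ≤ ‖fs id c (Sph n) x‖ := by
  simp only [Sp, mem_filter, mem_univ, true_and]

theorem Sp_mono {n Q : ℕ} [NeZero Q] {D D' : ℝ} (h0 : 0 < D) (h : D ≤ D')
    (c : (Fin 3 → ℤ) → ℂ) : Sp n Q D c ⊆ Sp n Q D' c := fun _ hx =>
  mem_Sp.2 ((div_le_div_of_nonneg_left (Real.sqrt_nonneg _) h0 h).trans (mem_Sp.1 hx))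

/-- every large spectrum at level `D` has at most `F` points -/
def Bd (n Q : ℕ) [NeZero Q] (D F : ℝ) : Prop :=
  ∀ c : (Fin 3 → ℤ) → ℂ, (∀ ξ, ‖c ξ‖ ≤ 1) → ((Sp n Q D c).card : ℝ) ≤ F

theorem Bd.mono {n Q : ℕ} [NeZero Q] {D D' F F' : ℝ} (h : Bd n Q D' F) (h0 : 0 < D) (hD : D ≤ D')
    (hF : F ≤ F') : Bd n Q D F' := fun c hc =>
  ((Nat.cast_le.2 (card_le_card (Sp_mono h0 hD c))).trans (h c hc)).trans hF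

/-- the dual sum -/
noncomputable def G {Q : ℕ} [NeZero Q] (ε : (Fin 3 → ZMod Q) → ℂ) (X : Finset (Fin 3 → ZMod Q))
    (ξ : Fin 3 → ℤ) : ℂ :=
  ∑ x ∈ X, ε x * ch ξ x

/-- heredity: the dual sum of every subset of `X` is large on the sphere -/
def Her (n : ℕ) {Q : ℕ} [NeZero Q] (D : ℝ) (ε : (Fin 3 → ZMod Q) → ℂ)
    (X : Finset (Fin 3 → ZMod Q)) : Prop :=
  (∀ x, ‖ε x‖ ≤ 1) ∧ ∀ X' ⊆ X, (X'.card : ℝ) * √(n : ℝ) / D ≤ ∑ ξ ∈ Sph n, ‖G ε X' ξ‖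

theorem Her.mono {n Q : ℕ} [NeZero Q] {D : ℝ} {ε : (Fin 3 → ZMod Q) → ℂ}
    {X B : Finset (Fin 3 → ZMod Q)} (h : Her n D ε X) (hB : B ⊆ X) : Her n D ε B :=
  ⟨h.1, fun X' h' => h.2 X' (h'.trans hB)⟩

/-- the pure quaternion of a vector -/
def pv (ξ : Fin 3 → ℤ) : Quaternion ℤ := ⟨0, ξ 0, ξ 1, ξ 2⟩

/-- the vector part of a quaternion -/
def vc (α : Quaternion ℤ) : Fin 3 → ℤ := ![α.imI, α.imJ, α.imK]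

/-- the rotation of `α` maps `ξ` to `η` -/
def Rot (α : Quaternion ℤ) (ξ η : Fin 3 → ℤ) : Prop :=
  α * pv ξ * star α = (Quaternion.normSq α : ℤ) • pv η

@[simp] theorem pv_re (ξ : Fin 3 → ℤ) : (pv ξ).re = 0 := rfl
@[simp] theorem pv_imI (ξ : Fin 3 → ℤ) : (pv ξ).imI = ξ 0 := rfl
@[simp] theorem pv_imJ (ξ : Fin 3 → ℤ) : (pv ξ).imJ = ξ 1 := rfl
@[simp] theorem pv_imK (ξ : Fin 3 → ℤ) : (pv ξ).imK = ξ 2 := rfl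

theorem smul_cancel {m : ℤ} (hm : m ≠ 0) {x y : Quaternion ℤ} (h : m • x = m • y) : x = y := by
  have h1 := congrArg QuaternionAlgebra.re h
  have h2 := congrArg QuaternionAlgebra.imI h
  have h3 := congrArg QuaternionAlgebra.imJ h
  have h4 := congrArg QuaternionAlgebra.imK h
  simp only [Quaternion.re_smul, Quaternion.imI_smul, Quaternion.imJ_smul, Quaternion.imK_smul,
    smul_eq_mul] at h1 h2 h3 h4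
  exact Quaternion.ext _ _ (mul_left_cancel₀ hm h1) (mul_left_cancel₀ hm h2)
    (mul_left_cancel₀ hm h3) (mul_left_cancel₀ hm h4)

theorem star_mul_eq (α : Quaternion ℤ) :
    star α * α = (Quaternion.normSq α : ℤ) • (1 : Quaternion ℤ) := by
  rw [Quaternion.star_mul_self, zsmul_eq_mul, mul_one]; rfl

theorem mul_star_eq (α : Quaternion ℤ) :
    α * star α = (Quaternion.normSq α : ℤ) • (1 : Quaternion ℤ) := by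
  rw [Quaternion.self_mul_star, zsmul_eq_mul, mul_one]; rfl

theorem pv_inj {ξ η : Fin 3 → ℤ} (h : pv ξ = pv η) : ξ = η :=
  vec_ext (congrArg QuaternionAlgebra.imI h) (congrArg QuaternionAlgebra.imJ h)
    (congrArg QuaternionAlgebra.imK h)

theorem normSq_eq (γ : Quaternion ℤ) : Quaternion.normSq γ = γ.re ^ 2 + vc γ ⬝ᵥ vc γ := by
  rw [Quaternion.normSq_def', dot3]; simp [vc]; ring

theorem normSq_pv (ξ : Fin 3 → ℤ) : Quaternion.normSq (pv ξ) = ξ ⬝ᵥ ξ := by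
  rw [Quaternion.normSq_def', dot3]; simp; ring

theorem dot_nonneg (a : Fin 3 → ℤ) : 0 ≤ a ⬝ᵥ a := by
  rw [dot3]; nlinarith [mul_self_nonneg (a 0), mul_self_nonneg (a 1), mul_self_nonneg (a 2)]

theorem sq_le_dot (a : Fin 3 → ℤ) (i : Fin 3) : a i ^ 2 ≤ a ⬝ᵥ a := by
  rw [dot3]
  fin_cases i <;> simp <;>
    nlinarith [mul_self_nonneg (a 0), mul_self_nonneg (a 1), mul_self_nonneg (a 2)]

/-- the inverse rotation -/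
theorem Rot.inv {α : Quaternion ℤ} {ζ ξ : Fin 3 → ℤ} (hα : Quaternion.normSq α ≠ 0)
    (h : Rot α ζ ξ) : Rot (star α) ξ ζ := by
  unfold Rot at *
  rw [star_star, Quaternion.normSq_star]
  refine smul_cancel hα ?_
  calc (Quaternion.normSq α : ℤ) • (star α * pv ξ * α)
      = star α * ((Quaternion.normSq α : ℤ) • pv ξ) * α := by rw [mul_smul_comm, smul_mul_assoc]
    _ = (star α * α) * pv ζ * (star α * α) := by rw [← h]; simp only [mul_assoc]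
    _ = _ := by rw [star_mul_eq]; simp only [smul_mul_assoc, mul_smul_comm, one_mul, mul_one]

/-- the image of a rotation is unique -/
theorem Rot.unique {α : Quaternion ℤ} {ζ ξ η : Fin 3 → ℤ} (hα : Quaternion.normSq α ≠ 0)
    (h : Rot α ζ ξ) (h' : Rot α ζ η) : ξ = η :=
  pv_inj (smul_cancel hα (h.symm.trans h'))

/-- a rotation in coordinates -/
theorem Rot.coord {β : Quaternion ℤ} {ξ η : Fin 3 → ℤ} (h : Rot β ξ η) :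
    Quaternion.normSq β * η 0 = (β.re ^ 2 + β.imI ^ 2 - β.imJ ^ 2 - β.imK ^ 2) * ξ 0 +
      2 * (β.imI * β.imJ - β.re * β.imK) * ξ 1 + 2 * (β.imI * β.imK + β.re * β.imJ) * ξ 2 ∧
    Quaternion.normSq β * η 1 = 2 * (β.imI * β.imJ + β.re * β.imK) * ξ 0 +
      (β.re ^ 2 - β.imI ^ 2 + β.imJ ^ 2 - β.imK ^ 2) * ξ 1 +
      2 * (β.imJ * β.imK - β.re * β.imI) * ξ 2 ∧
    Quaternion.normSq β * η 2 = 2 * (β.imI * β.imK - β.re * β.imJ) * ξ 0 +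
      2 * (β.imJ * β.imK + β.re * β.imI) * ξ 1 +
      (β.re ^ 2 - β.imI ^ 2 - β.imJ ^ 2 + β.imK ^ 2) * ξ 2 := by
  unfold Rot at h
  have h2 := congrArg QuaternionAlgebra.imI h
  have h3 := congrArg QuaternionAlgebra.imJ h
  have h4 := congrArg QuaternionAlgebra.imK h
  generalize Quaternion.normSq β = m at *
  simp at h2 h3 h4
  exact ⟨by linear_combination -h2, by linear_combination -h3, by linear_combination -h4⟩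

/-- reduction modulo `Q` -/
def red (Q : ℕ) (a : Fin 3 → ℤ) : Fin 3 → ZMod Q := fun i => (a i : ZMod Q)

/-- `l` is an odd prime that splits -/
def Split (n l : ℕ) : Prop := l.Prime ∧ l ≠ 2 ∧ ¬ l ∣ n ∧ ∃ r : ℤ, (l : ℤ) ∣ r ^ 2 + n

/-- the standing hypotheses at level `D` -/
def Good (n : ℕ) (D : ℝ) : Prop :=
  2 ^ 13 ≤ D ∧ D ^ 50 ≤ √(n : ℝ) ∧ ((Sph n).card : ℝ) ≤ √(n : ℝ) * D ∧ Circ n D ∧
    (∃ k : ℕ, n ^ 2 < 2 ^ k ∧ (k : ℝ) + 1 ≤ D) ∧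
    ∃ (Y : ℕ) (L : Finset ℕ), (Y : ℝ) ≤ D ^ 9 ∧ D ^ 4 ≤ (L.card : ℝ) ∧ ∀ l ∈ L, l ≤ Y ∧ Split n l

/-- `g (B - B)` is covered by `K ^ t` translates of `B - B` -/
def Cv {V : Type} [AddCommGroup V] [DecidableEq V] (K : ℝ) (B : Finset V) (g : V → V) (t : ℕ) :
    Prop :=
  ∃ T : Finset V, (T.card : ℝ) ≤ K ^ t ∧ ∀ u ∈ B - B, g u ∈ T + (B - B)

open Classical in
/-- the points of `X` on the line through `z` with direction `e` -/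
noncomputable def Ln {Q : ℕ} (X : Finset (Fin 3 → ZMod Q)) (z e : Fin 3 → ZMod Q) :
    Finset (Fin 3 → ZMod Q) :=
  X.filter fun x => ∃ u : ZMod Q, x = z + u • e

theorem mem_Ln {Q : ℕ} {X : Finset (Fin 3 → ZMod Q)} {z e x : Fin 3 → ZMod Q} :
    x ∈ Ln X z e ↔ x ∈ X ∧ ∃ u : ZMod Q, x = z + u • e := by
  simp only [Ln, mem_filter]

open Classical in
/-- the points of the sphere with an `l`-neighbour in `A` -/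
noncomputable def Nbr (n l : ℕ) (A : Finset (Fin 3 → ℤ)) : Finset (Fin 3 → ℤ) :=
  (Sph n).filter fun ζ => ∃ α : Quaternion ℤ, Quaternion.normSq α = l ∧ ∃ ξ ∈ A, Rot α ζ ξ

theorem mem_Nbr {n l : ℕ} {A : Finset (Fin 3 → ℤ)} {ζ : Fin 3 → ℤ} : ζ ∈ Nbr n l A ↔
    ζ ∈ Sph n ∧ ∃ α : Quaternion ℤ, Quaternion.normSq α = l ∧ ∃ ξ ∈ A, Rot α ζ ξ := by
  simp only [Nbr, mem_filter]

open Classical in
/-- the points of the sphere parallel to a short vector -/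
noncomputable def Par (n Y : ℕ) : Finset (Fin 3 → ℤ) :=
  (Sph n).filter fun ξ => ∃ a : Fin 3 → ℤ, a ≠ 0 ∧ (∀ i, |a i| ≤ Y) ∧ crossProduct a ξ = 0

theorem mem_Par {n Y : ℕ} {ξ : Fin 3 → ℤ} : ξ ∈ Par n Y ↔
    ξ ∈ Sph n ∧ ∃ a : Fin 3 → ℤ, a ≠ 0 ∧ (∀ i, |a i| ≤ Y) ∧ crossProduct a ξ = 0 := by
  simp only [Par, mem_filter]

open Classical in
/-- the integers below `X` with too few split primes at level `j` -/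
noncomputable def BadSet (j X : ℕ) : Finset ℕ :=
  (range X).filter fun n => 1 ≤ n ∧ Nat.log 2 n ≤ 2 ^ j ∧
    ¬ ∃ L : Finset ℕ, 2 ^ j ≤ L.card ∧ ∀ l ∈ L, l ≤ 4 ^ j ∧ Split n l

theorem mem_BadSet {j X n : ℕ} : n ∈ BadSet j X ↔ n < X ∧ 1 ≤ n ∧ Nat.log 2 n ≤ 2 ^ j ∧
    ¬ ∃ L : Finset ℕ, 2 ^ j ≤ L.card ∧ ∀ l ∈ L, l ≤ 4 ^ j ∧ Split n l := by
  simp only [BadSet, mem_filter, mem_range]

def S_Her : Prop :=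
  ∀ (n Q : ℕ) [NeZero Q] (D : ℝ) (c : (Fin 3 → ℤ) → ℂ), (∀ ξ, ‖c ξ‖ ≤ 1) →
    ∃ ε, Her n D ε (Sp n Q D c)

def S_Cor : Prop :=
  ∀ (n Q : ℕ) [NeZero Q] (D D' : ℝ), 1 ≤ n → 0 < D → 0 < D' →
    ((Sph n).card : ℝ) ≤ √(n : ℝ) * D →
    ∀ (X : Finset (Fin 3 → ZMod Q)) (ε ε' : (Fin 3 → ZMod Q) → ℂ)
      (φ : (Fin 3 → ZMod Q) → Fin 3 → ZMod Q) (T : Finset (Fin 3 → ℤ)), T ⊆ Sph n →
      (∀ x, ‖ε x‖ ≤ 1) → (∀ x, ‖ε' x‖ ≤ 1) →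
      (X.card : ℝ) ^ 2 * √(n : ℝ) / D' ≤ ∑ ξ ∈ T, ‖G ε X ξ‖ * ‖∑ x ∈ X, ε' x * ch ξ (φ x)‖ →
      ∃ c' : (Fin 3 → ℤ) → ℂ, (∀ ξ, ‖c' ξ‖ ≤ 1) ∧ (X.card : ℝ) ^ 2 / (2 * D' * D) ≤
        (((X ×ˢ X).filter fun q => q.1 + φ q.2 ∈ Sp n Q (2 * D') c').card : ℝ)

def S_Bsg : Prop :=
  ∀ (n Q : ℕ) [NeZero Q] (D F : ℝ), 1 ≤ n → 0 < D → 0 < F →
    ((Sph n).card : ℝ) ≤ √(n : ℝ) * D → Bd n Q (2 * D ^ 3) F →
    ∀ (X : Finset (Fin 3 → ZMod Q)) (ε : (Fin 3 → ZMod Q) → ℂ), X.Nonempty → Her n D ε X →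
      ∃ B ⊆ X, (X.card : ℝ) ^ 2 / (16 * D ^ 8 * F) ≤ B.card ∧
        ((B - B).card : ℝ) ≤ 2 ^ 22 * D ^ 32 * (F / X.card) ^ 4 * B.card

def S_Ruz : Prop :=
  ∀ (V : Type) [AddCommGroup V] [DecidableEq V] (B Z : Finset V) (φ : V →+ V) (K r F : ℝ),
    Function.Injective φ → B.Nonempty → 0 < r → 0 < F → (Z.card : ℝ) ≤ F →
    ((B - B).card : ℝ) ≤ K * B.card →
    r * B.card * F ≤ (((B ×ˢ B).filter fun q => q.1 + φ q.2 ∈ Z).card : ℝ) →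
    ((B + B.image φ).card : ℝ) ≤ K ^ 2 / r * B.card

def S_Cov : Prop :=
  ∀ (V : Type) [AddCommGroup V] [DecidableEq V] (B : Finset V) (K : ℝ), B.Nonempty → 1 ≤ K →
    ((B - B).card : ℝ) ≤ K * B.card →
    (∀ φ : V →+ V, Function.Injective φ → ((B + B.image φ).card : ℝ) ≤ K * B.card → Cv K B φ 4) ∧
    (∀ (g g' : V →+ V) (t t' : ℕ), Cv K B g t → Cv K B g' t' →
      Cv K B (fun u => g u - g' u) (t + t' + 5)) ∧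
    (∀ (g g' : V →+ V) (t t' : ℕ), Cv K B g t → Cv K B g' t' →
      Cv K B (fun u => g (g' u)) (t + t')) ∧
    ∀ (g : V → V) (t : ℕ), Cv K B g t → ((B + (B - B).image g).card : ℝ) ≤ K ^ (t + 3) * B.card

def S_Ring : Prop :=
  ∀ (Q : ℕ) [Fact Q.Prime] (B : Finset (Fin 3 → ZMod Q)) (K Φ : ℝ)
    (φ φ' ψ ψ' : (Fin 3 → ZMod Q) →+ (Fin 3 → ZMod Q)) (a b : Fin 3 → ZMod Q) (s t : ZMod Q),
    B.Nonempty → 1 ≤ K → ((B - B).card : ℝ) ≤ K * B.card →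
    (∀ x, φ (φ' x) = x) → (∀ x, φ' (φ x) = x) → (∀ x, ψ (ψ' x) = x) → (∀ x, ψ' (ψ x) = x) →
    ((B + B.image φ).card : ℝ) ≤ K * B.card → ((B + B.image ψ).card : ℝ) ≤ K * B.card →
    s ≠ 0 → t ≠ 0 → (∀ x, φ x - φ' x = s • crossProduct a x) →
    (∀ x, ψ x - ψ' x = t • crossProduct b x) →
    crossProduct a b ⬝ᵥ crossProduct a b ≠ 0 →
    (∀ z, ((Ln B z (crossProduct a b)).card : ℝ) ≤ Φ) →
    (B.card : ℝ) ≤ Φ ^ 3 * K ^ 232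

def S_Mat : Prop :=
  ∀ (Q : ℕ) [Fact Q.Prime] (γ : Quaternion ℤ), ((Quaternion.normSq γ : ℤ) : ZMod Q) ≠ 0 →
    ((γ.re : ℤ) : ZMod Q) ≠ 0 → (2 : ZMod Q) ≠ 0 →
    ∃ (φ φ' : (Fin 3 → ZMod Q) →+ (Fin 3 → ZMod Q)) (s : ZMod Q), s ≠ 0 ∧
      (∀ x, φ (φ' x) = x) ∧ (∀ x, φ' (φ x) = x) ∧
      (∀ x, φ x - φ' x = s • crossProduct (red Q (vc γ)) x) ∧
      ∀ ξ η, Rot γ ξ η → ∀ x, ch η x = ch ξ (φ x)

def S_Line : Prop :=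
  ∀ (n Q : ℕ) [Fact Q.Prime] (D : ℝ) (H : ℕ) (e : Fin 3 → ℤ), 1 ≤ n → √(n : ℝ) ≤ Q →
    (Q : ℝ) ≤ 4 * √(n : ℝ) → 0 < D → ((Sph n).card : ℝ) ≤ √(n : ℝ) * D → Circ n D →
    red Q e ≠ 0 → (∀ i, |e i| ≤ H) → H ≤ 2 * n →
    ∀ (X : Finset (Fin 3 → ZMod Q)) (ε : (Fin 3 → ZMod Q) → ℂ), Her n D ε X →
      ∀ z, ((Ln X z (red Q e)).card : ℝ) ≤ 28 * H * D ^ 4

def S_Desc : Prop :=
  ∀ (l : ℕ) (w : Quaternion ℤ), l.Prime → l ≠ 2 → (l : ℤ) ∣ Quaternion.normSq w →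
    (¬ ∃ β : Quaternion ℤ, w = (l : ℤ) • β) →
    ∃ α β : Quaternion ℤ, Quaternion.normSq α = l ∧ α * w = (l : ℤ) • β

def S_Nb : Prop :=
  ∀ (n l : ℕ) (A : Finset (Fin 3 → ℤ)), Split n l → A ⊆ Sph n → A.card ≤ 8 * (Nbr n l A).card

def S_Par : Prop := ∀ n Y : ℕ, (Par n Y).card ≤ 2 * (2 * Y + 1) ^ 3

def S_Sel : Prop :=
  ∀ (n Y k : ℕ) (P : Finset ℕ) (ζ : Fin 3 → ℤ) (al : ℕ → Quaternion ℤ) (xi : ℕ → Fin 3 → ℤ),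
    Y ^ 2 ≤ n → n ^ 2 < 2 ^ k → 81 * (k + 1) ≤ P.card →
    (∀ l ∈ P, l.Prime ∧ l ≠ 2 ∧ l ≤ Y ∧ Quaternion.normSq (al l) = l ∧ Rot (al l) ζ (xi l) ∧
      xi l ⬝ᵥ xi l = n ∧
      ∀ a : Fin 3 → ℤ, a ≠ 0 → (∀ i, |a i| ≤ Y) → crossProduct a (xi l) ≠ 0) →
    ∃ l1 ∈ P, ∃ l2 ∈ P, ∃ l3 ∈ P, 0 < (al l2 * star (al l1)).re ∧ 0 < (al l3 * star (al l1)).re ∧
      crossProduct (vc (al l2 * star (al l1))) (vc (al l3 * star (al l1))) ≠ 0 ∧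
      Rot (al l2 * star (al l1)) (xi l1) (xi l2) ∧ Rot (al l3 * star (al l1)) (xi l1) (xi l3)

def S_Hk : Prop :=
  ∀ (n : ℕ) (D : ℝ) (A : Finset (Fin 3 → ℤ)), Good n D → A ⊆ Sph n →
    √(n : ℝ) / (2 * D) ≤ A.card →
    ∃ (γ δ : Quaternion ℤ) (T : Finset (Fin 3 → ℤ)), 0 < γ.re ∧ 0 < δ.re ∧
      ((Quaternion.normSq γ : ℤ) : ℝ) ≤ D ^ 18 ∧ ((Quaternion.normSq δ : ℤ) : ℝ) ≤ D ^ 18 ∧
      crossProduct (vc γ) (vc δ) ≠ 0 ∧ T ⊆ A ∧ √(n : ℝ) / D ^ 120 ≤ T.card ∧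
      ∀ ξ ∈ T, (∃ η ∈ A, Rot γ ξ η) ∧ ∃ η ∈ A, Rot δ ξ η

def S_Rec : Prop :=
  ∀ (n Q : ℕ) [Fact Q.Prime] (D F : ℝ), √(n : ℝ) ≤ Q → (Q : ℝ) ≤ 4 * √(n : ℝ) → Good n D →
    1 ≤ F → Bd n Q (D ^ 126) F → Bd n Q D (D ^ 22 * F ^ (2321 / 2322 : ℝ))

def S_Good : Prop :=
  ∀ τ : ℝ, 0 < τ → ∃ n0 : ℕ, ∀ n : ℕ, n0 ≤ n → Rich n → ∀ D : ℝ, √(n : ℝ) ^ τ ≤ D →
    D ^ 50 ≤ √(n : ℝ) → Good n D

def S_Iter : Prop :=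
  ∃ b τ0 : ℝ, 0 < b ∧ b ≤ 1 ∧ 0 < τ0 ∧ ∀ τ : ℝ, 0 < τ → τ ≤ τ0 → ∃ n0 : ℕ, ∀ n : ℕ, n0 ≤ n →
    Rich n → ((Sph n).card : ℝ) ≤ √(n : ℝ) * √(n : ℝ) ^ τ ∧
      ∀ (Q : ℕ) [Fact Q.Prime], √(n : ℝ) ≤ Q → (Q : ℝ) ≤ 4 * √(n : ℝ) →
        Bd n Q (√(n : ℝ) ^ τ) (√(n : ℝ) ^ (6 * τ ^ b))

def S_TT : Prop :=
  ∀ (n Q : ℕ) [NeZero Q] (D F : ℝ), 1 ≤ n → 0 < D → ((Sph n).card : ℝ) ≤ √(n : ℝ) * D →
    Bd n Q D F → ∀ (S : Finset (Fin 3 → ℤ)) (a : (Fin 3 → ℤ) → ℂ), (∀ b ∈ S, b ⬝ᵥ b = n) →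
      0 < ms a S →
      ((univ.filter fun x : Fin 3 → ZMod Q =>
        2 * √(n : ℝ) / D * ms a S ≤ ‖fs id a S x‖ ^ 2).card : ℝ) ≤ D ^ 2 * F

def S_Fin : Prop :=
  ∃ b B : ℝ, 0 < b ∧ ∀ p : ℝ, 2 ≤ p → ∃ C : ℝ, 0 < C ∧ ∀ n : ℕ, 1 ≤ n → Rich n →
    ∃ (Q : ℕ) (_ : NeZero Q), ∀ (S : Finset (Fin 3 → ℤ)) (c : (Fin 3 → ℤ) → ℂ),
      (∀ b ∈ S, b ⬝ᵥ b = n) → av (fun x : Fin 3 → ZMod Q => ‖fs id c S x‖ ^ p) ≤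
        C * (√(n : ℝ) ^ (1 / 2 - 3 / p + B * p ^ (-1 - b)) * nr c S) ^ p

def S_Mom : Prop :=
  ∀ (L : Finset ℕ) (Y X h : ℕ), (∀ l ∈ L, l.Prime ∧ l ≠ 2 ∧ l ≤ Y) →
    ∑ n ∈ range X, (∑ l ∈ L, (jacobiSym (-(n : ℤ)) l : ℝ)) ^ (2 * h) ≤
      X * ((h : ℝ) ^ 2 * L.card) ^ h + (L.card : ℝ) ^ (2 * h) * (Y : ℝ) ^ (2 * h)

def S_Pow : Prop :=
  ∃ c C : ℝ, 0 < c ∧ ∀ X : ℕ,
    (({n | n < X ∧ ¬ Rich n} : Set ℕ).ncard : ℝ) ≤ C * (X : ℝ) ^ (1 - c)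

end Pool.Agent.P.MP_c76d8c_an.AA
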