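import Pool.Agent.P.MP_c76d8c_an.AA.Defs

/-! Two rotations that keep a large part of a dense subset of the sphere inside it. -/

namespace Pool.Agent.P.MP_c76d8c_an.AA

open Finset Matrix

namespace HkP

open Classical in
/-- quaternions with coordinates in `[-Y, Y]` -/
noncomputable def box (Y : ℕ) : Finset (Quaternion ℤ) :=
  (Fintype.piFinset fun _ : Fin 4 => Icc (-(Y : ℤ)) Y).image fun v => ⟨v 0, v 1, v 2, v 3⟩

theorem card_box (Y : ℕ) : (box Y).card ≤ (2 * Y + 1) ^ 4 := by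
  classical
  refine card_image_le.trans (le_of_eq ?_)
  simp only [Fintype.card_piFinset, Int.card_Icc, prod_const, card_univ, Fintype.card_fin]
  congr 1; omega

theorem mem_box {Y : ℕ} {α : Quaternion ℤ} (h : Quaternion.normSq α ≤ Y) : α ∈ box Y := by
  classical
  rw [Quaternion.normSq_def'] at h
  have key : ∀ z : ℤ, z ^ 2 ≤ Y → z ∈ Icc (-(Y : ℤ)) Y := fun z hz =>
    mem_Icc.2 ⟨by nlinarith [sq_nonneg (z + 1), sq_nonneg z, Int.le_self_sq (-z)],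
      (Int.le_self_sq z).trans hz⟩
  refine mem_image.2 ⟨![α.re, α.imI, α.imJ, α.imK], Fintype.mem_piFinset.2 fun i => ?_, rfl⟩
  have := sq_nonneg α.re
  have := sq_nonneg α.imI
  have := sq_nonneg α.imJ
  have := sq_nonneg α.imK
  fin_cases i <;> exact key _ (by simp; linarith)

open Classical in
theorem many {n : ℕ} {L : Finset ℕ} {A : Finset (Fin 3 → ℤ)} (h1 : S_Nb) (hA : A ⊆ Sph n)
    (hL : ∀ l ∈ L, Split n l) (m : ℕ) :
    L.card * A.card ≤ 8 * (((Sph n).filter fun ζ =>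
      m ≤ (L.filter fun l => ζ ∈ Nbr n l A).card).card * L.card + (Sph n).card * m) := by
  have a1 : L.card * A.card ≤ ∑ l ∈ L, 8 * (Nbr n l A).card := by
    rw [← smul_eq_mul]; exact card_nsmul_le_sum _ _ _ fun l hl => h1 n l A (hL l hl) hA
  have a2 : ∑ l ∈ L, (Nbr n l A).card = ∑ ζ ∈ Sph n, (L.filter fun l => ζ ∈ Nbr n l A).card := by
    simp only [card_filter]
    rw [sum_comm]
    refine sum_congr rfl fun l _ => ?_
    rw [← card_filter]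
    congr 1
    ext ζ
    exact ⟨fun h => mem_filter.2 ⟨(mem_Nbr.1 h).1, h⟩, fun h => (mem_filter.1 h).2⟩
  rw [← mul_sum, a2] at a1
  refine a1.trans (Nat.mul_le_mul_left _ ?_)
  rw [← sum_filter_add_sum_filter_not (Sph n) fun ζ => m ≤ (L.filter fun l => ζ ∈ Nbr n l A).card]
  refine add_le_add ?_ ?_
  · rw [← smul_eq_mul]; exact sum_le_card_nsmul _ _ _ fun ζ _ => card_filter_le _ _
  · refine (sum_le_card_nsmul _ _ m fun ζ hζ => (not_le.1 (mem_filter.1 hζ).2).le).trans ?_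
    rw [smul_eq_mul]; exact Nat.mul_le_mul_right _ (card_filter_le _ _)

/-- the properties of a good triple -/
def Ok (Y : ℕ) (τ : Quaternion ℤ × Quaternion ℤ × Quaternion ℤ) : Prop :=
  Quaternion.normSq τ.1 ≠ 0 ∧ 0 < (τ.2.1 * star τ.1).re ∧ 0 < (τ.2.2 * star τ.1).re ∧
    Quaternion.normSq (τ.2.1 * star τ.1) ≤ (Y : ℤ) ^ 2 ∧
    Quaternion.normSq (τ.2.2 * star τ.1) ≤ (Y : ℤ) ^ 2 ∧
    crossProduct (vc (τ.2.1 * star τ.1)) (vc (τ.2.2 * star τ.1)) ≠ 0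

theorem triple (h3 : S_Sel) {n Y k : ℕ} (hY : Y ^ 2 ≤ n) (hk : n ^ 2 < 2 ^ k) {P : Finset ℕ}
    (hP : 81 * (k + 1) ≤ P.card) {A : Finset (Fin 3 → ℤ)} (hA : A ⊆ Sph n)
    (hA' : ∀ ξ ∈ A, ξ ∉ Par n Y) {ζ : Fin 3 → ℤ}
    (h : ∀ l ∈ P, l ≤ Y ∧ Split n l ∧ ζ ∈ Nbr n l A) :
    ∃ τ ∈ box Y ×ˢ box Y ×ˢ box Y, Ok Y τ ∧ ∃ ξ ∈ A, Rot τ.1 ζ ξ ∧
      (∃ η ∈ A, Rot (τ.2.1 * star τ.1) ξ η) ∧ ∃ η ∈ A, Rot (τ.2.2 * star τ.1) ξ η := by
  have h' : ∀ l, ∃ (α : Quaternion ℤ) (ξ : Fin 3 → ℤ), l ∈ P →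
      Quaternion.normSq α = l ∧ ξ ∈ A ∧ Rot α ζ ξ := by
    intro l
    by_cases hl : l ∈ P
    · obtain ⟨-, α, a1, ξ, a2, a3⟩ := mem_Nbr.1 (h l hl).2.2
      exact ⟨α, ξ, fun _ => ⟨a1, a2, a3⟩⟩
    · exact ⟨0, 0, fun h => absurd h hl⟩
  choose al xi hal using h'
  obtain ⟨l1, m1, l2, m2, l3, m3, b1, b2, b3, b4, b5⟩ := h3 n Y k P ζ al xi hY hk hP fun l hl =>
    ⟨(h l hl).2.1.1, (h l hl).2.1.2.1, (h l hl).1, (hal l hl).1, (hal l hl).2.2,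
      mem_Sph.1 (hA (hal l hl).2.1), fun a a0 ha hc =>
        hA' _ (hal l hl).2.1 (mem_Par.2 ⟨hA (hal l hl).2.1, a, a0, ha, hc⟩)⟩
  have hb : ∀ l ∈ P, al l ∈ box Y := fun l hl =>
    mem_box (by rw [(hal l hl).1]; exact_mod_cast (h l hl).1)
  have hn : ∀ l ∈ P, Quaternion.normSq (al l * star (al l1)) ≤ (Y : ℤ) ^ 2 := fun l hl => by
    rw [map_mul, Quaternion.normSq_star, (hal l hl).1, (hal l1 m1).1, sq]
    exact_mod_cast Nat.mul_le_mul (h l hl).1 (h l1 m1).1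
  refine ⟨(al l1, al l2, al l3), mem_product.2 ⟨hb _ m1, mem_product.2 ⟨hb _ m2, hb _ m3⟩⟩,
    ⟨?_, b1, b2, hn _ m2, hn _ m3, b3⟩, xi l1, (hal _ m1).2.1, (hal _ m1).2.2,
    ⟨_, (hal _ m2).2.1, b4⟩, _, (hal _ m3).2.1, b5⟩
  rw [(hal l1 m1).1]
  exact_mod_cast (h l1 m1).2.1.1.ne_zero

end HkP

open HkP in
theorem hk (h1 : S_Nb) (h2 : S_Par) (h3 : S_Sel) : S_Hk := by
  classical
  intro n D A ⟨hD, hDN, hS, _, ⟨k, hk, hkD⟩, Y, L, hY, hL, hL'⟩ hA hA'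
  have d0 : 0 < D := lt_of_lt_of_le (by norm_num) hD
  have d1 : 1 ≤ D := le_trans (by norm_num) hD
  have hle : ∀ j : ℕ, j ≤ 50 → D ^ j ≤ √(n : ℝ) := fun j hj => (pow_le_pow_right₀ d1 hj).trans hDN
  have N1 : 1 ≤ √(n : ℝ) := by simpa using hle 0 (by norm_num)
  have hNn : √(n : ℝ) ≤ n := by nlinarith [Real.mul_self_sqrt (Nat.cast_nonneg n : (0 : ℝ) ≤ n)]
  have y2 : (Y : ℝ) ^ 2 ≤ D ^ 18 := by
    calc (Y : ℝ) ^ 2 ≤ (D ^ 9) ^ 2 := by gcongr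
      _ = _ := by ring
  have hYn : Y ^ 2 ≤ n := by exact_mod_cast y2.trans ((hle 18 (by norm_num)).trans hNn)
  have y3 : 2 * (Y : ℝ) + 1 ≤ 3 * D ^ 9 := by linarith [one_le_pow₀ (n := 9) d1]
  set A' := A \ Par n Y with hA'd
  have a1 : √(n : ℝ) / (4 * D) ≤ A'.card := by
    have b1 : A.card ≤ A'.card + (Par n Y).card := card_le_card_sdiff_add_card
    have b2 : (A.card : ℝ) ≤ A'.card + 2 * (2 * Y + 1) ^ 3 := by
      exact_mod_cast b1.trans (Nat.add_le_add_left (h2 n Y) _)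
    have b3 : 2 * (2 * (Y : ℝ) + 1) ^ 3 ≤ √(n : ℝ) / (4 * D) := by
      rw [le_div_iff₀ (by positivity)]
      calc _ ≤ 2 * (3 * D ^ 9) ^ 3 * (4 * D) := by gcongr
        _ = 216 * D ^ 28 := by ring
        _ ≤ D * D ^ 28 := by gcongr; linarith
        _ = D ^ 29 := by ring
        _ ≤ _ := hle 29 (by norm_num)
    have b4 : √(n : ℝ) / (2 * D) = 2 * (√(n : ℝ) / (4 * D)) := by field_simp; norm_num
    linarith
  have hA'S : A' ⊆ Sph n := sdiff_subset.trans hA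
  set Z := (Sph n).filter fun ζ => 81 * (k + 1) ≤ (L.filter fun l => ζ ∈ Nbr n l A').card with hZ
  have l0 : (0 : ℝ) < L.card := lt_of_lt_of_le (by positivity) hL
  have z1 : √(n : ℝ) / (64 * D) ≤ Z.card := by
    have b1 : (L.card : ℝ) * A'.card ≤ 8 * (Z.card * L.card + (Sph n).card * (81 * (k + 1))) := by
      exact_mod_cast many h1 hA'S (fun l hl => (hL' l hl).2) (81 * (k + 1))
    have b2 : ((Sph n).card : ℝ) * (81 * (k + 1)) ≤ √(n : ℝ) / (64 * D) * L.card := by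
      calc _ ≤ √(n : ℝ) * D * (81 * D) := by gcongr
        _ = √(n : ℝ) / (64 * D) * (5184 * D ^ 3) := by field_simp; norm_num
        _ ≤ √(n : ℝ) / (64 * D) * (D * D ^ 3) := by gcongr; linarith
        _ = √(n : ℝ) / (64 * D) * D ^ 4 := by ring
        _ ≤ _ := by gcongr
    have b3 : √(n : ℝ) / (4 * D) = 16 * (√(n : ℝ) / (64 * D)) := by field_simp; norm_num
    have b4 := mul_le_mul_of_nonneg_left a1 l0.le
    exact le_of_mul_le_mul_right (by rw [b3] at b4; linarith) l0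
  let T : Quaternion ℤ × Quaternion ℤ × Quaternion ℤ → Finset (Fin 3 → ℤ) := fun τ =>
    A.filter fun ξ => (∃ η ∈ A, Rot (τ.2.1 * star τ.1) ξ η) ∧ ∃ η ∈ A, Rot (τ.2.2 * star τ.1) ξ η
  by_contra hcon
  push Not at hcon
  have c1 : ∀ τ, Ok Y τ → ((T τ).card : ℝ) ≤ √(n : ℝ) / D ^ 120 := by
    intro τ ⟨_, o1, o2, o3, o4, o5⟩
    by_contra hc
    obtain ⟨ξ, hξ, h⟩ := hcon _ _ (T τ) o1 o2 (le_trans (by exact_mod_cast o3) y2)
      (le_trans (by exact_mod_cast o4) y2) o5 (filter_subset _ _) (not_le.1 hc).le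
    obtain ⟨η, e1, e2⟩ := (mem_filter.1 hξ).2.2
    exact h (mem_filter.1 hξ).2.1 η e1 e2
  have c2 : Z ⊆ ((box Y ×ˢ box Y ×ˢ box Y).filter (Ok Y)).biUnion fun τ =>
      Z.filter fun ζ => ∃ ξ ∈ T τ, Rot τ.1 ζ ξ := by
    intro ζ hζ
    obtain ⟨τ, t1, t2, ξ, x1, x2, ⟨η, e1, e2⟩, η', e3, e4⟩ := triple h3 hYn hk (mem_filter.1 hζ).2
      hA'S (fun ξ hξ => (mem_sdiff.1 hξ).2) (ζ := ζ) fun l hl =>
        ⟨(hL' l (mem_filter.1 hl).1).1, (hL' l (mem_filter.1 hl).1).2, (mem_filter.1 hl).2⟩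
    exact mem_biUnion.2 ⟨τ, mem_filter.2 ⟨t1, t2⟩, mem_filter.2 ⟨hζ, ξ, mem_filter.2
      ⟨sdiff_subset x1, ⟨η, sdiff_subset e1, e2⟩, η', sdiff_subset e3, e4⟩, x2⟩⟩
  have c3 : ∀ τ ∈ (box Y ×ˢ box Y ×ˢ box Y).filter (Ok Y),
      ((Z.filter fun ζ => ∃ ξ ∈ T τ, Rot τ.1 ζ ξ).card : ℝ) ≤ √(n : ℝ) / D ^ 120 := by
    intro τ hτ
    have o := (mem_filter.1 hτ).2
    refine le_trans (Nat.cast_le.2 ?_) (c1 τ o)
    refine card_le_card_of_forall_subsingleton (fun ζ ξ => Rot τ.1 ζ ξ)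
      (fun ζ hζ => ?_) fun ξ _ ζ hζ ζ' hζ' => ?_
    · obtain ⟨ξ, x1, x2⟩ := (mem_filter.1 hζ).2
      exact ⟨ξ, x1, x2⟩
    · exact Rot.unique (by rw [Quaternion.normSq_star]; exact o.1) (hζ.2.inv o.1) (hζ'.2.inv o.1)
  have c4 : (((box Y ×ˢ box Y ×ˢ box Y).filter (Ok Y)).card : ℝ) ≤ (3 * D ^ 9) ^ 12 := by
    have b1 : ((box Y).card : ℝ) ≤ (3 * D ^ 9) ^ 4 := by
      calc ((box Y).card : ℝ) ≤ (2 * Y + 1) ^ 4 := by exact_mod_cast card_box Y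
        _ ≤ _ := by gcongr
    calc _ ≤ (((box Y ×ˢ box Y ×ˢ box Y).card : ℕ) : ℝ) := Nat.cast_le.2 (card_filter_le _ _)
      _ = (box Y).card * ((box Y).card * (box Y).card) := by simp only [card_product, Nat.cast_mul]
      _ ≤ (3 * D ^ 9) ^ 4 * ((3 * D ^ 9) ^ 4 * (3 * D ^ 9) ^ 4) := by gcongr
      _ = _ := by ring
  have c5 : (Z.card : ℝ) ≤ (3 * D ^ 9) ^ 12 * (√(n : ℝ) / D ^ 120) := by
    calc (Z.card : ℝ) ≤ ((∑ τ ∈ (box Y ×ˢ box Y ×ˢ box Y).filter (Ok Y),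
          (Z.filter fun ζ => ∃ ξ ∈ T τ, Rot τ.1 ζ ξ).card : ℕ) : ℝ) :=
          Nat.cast_le.2 ((card_le_card c2).trans card_biUnion_le)
      _ ≤ _ := by
          rw [Nat.cast_sum]
          refine (sum_le_card_nsmul _ _ _ c3).trans ?_
          rw [nsmul_eq_mul]
          gcongr
  have c6 : (3 * D ^ 9) ^ 12 * (√(n : ℝ) / D ^ 120) < √(n : ℝ) / (64 * D) := by
    rw [← mul_div_assoc, div_lt_div_iff₀ (by positivity) (by positivity)]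
    calc (3 * D ^ 9) ^ 12 * √(n : ℝ) * (64 * D) = √(n : ℝ) * (64 * 3 ^ 12 * D ^ 109) := by ring
      _ < √(n : ℝ) * (D ^ 11 * D ^ 109) := by
          gcongr
          calc (64 * 3 ^ 12 : ℝ) < (2 ^ 13) ^ 11 := by norm_num
            _ ≤ D ^ 11 := by gcongr
      _ = _ := by ring
  linarith

end Pool.Agent.P.MP_c76d8c_an.AA
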