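import Pool.Agent.P.MP_c76d8c_an.AA.Defs

/-! Even moments of sums of Legendre symbols. -/

namespace Pool.Agent.P.MP_c76d8c_an.AA

open Finset

namespace MomP

theorem sum_le_self {P : ℕ → ℝ} (h1 : ∀ n, P n ≤ 1) (X : ℕ) : ∑ n ∈ range X, P n ≤ X := by
  simpa using sum_le_card_nsmul (range X) P 1 fun n _ => h1 n

theorem sum_le_period {P : ℕ → ℝ} (h1 : ∀ n, P n ≤ 1) {m : ℕ} (hm : 0 < m)
    (h : ∀ a, ∑ n ∈ range m, P (a + n) = 0) (X : ℕ) : ∑ n ∈ range X, P n ≤ m := by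
  induction X using Nat.strong_induction_on with
  | _ X ih =>
    rcases le_or_gt X m with hX | hX
    · exact (sum_le_self h1 X).trans (by exact_mod_cast hX)
    · obtain ⟨X', rfl⟩ : ∃ X', X = X' + m := ⟨X - m, by omega⟩
      rw [sum_range_add, h, add_zero]
      exact ih X' (by omega)

theorem sum_range_mul (F : ℕ → ℝ) (M k : ℕ) :
    ∑ n ∈ range (k * M), F n = ∑ s ∈ range k, ∑ i ∈ range M, F (s * M + i) := by
  induction k with
  | zero => simp
  | succ k ih => rw [Nat.succ_mul, sum_range_add, ih, sum_range_succ]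

theorem leg_zero {l M : ℕ} (hl : l.Prime) (h2 : l ≠ 2) (hM : ¬ l ∣ M) (c : ℕ) :
    ∑ s ∈ range l, (jacobiSym (-((c + s * M : ℕ) : ℤ)) l : ℝ) = 0 := by
  have : Fact l.Prime := ⟨hl⟩
  have h0 : (M : ZMod l) ≠ 0 := fun h => hM ((ZMod.natCast_eq_zero_iff _ _).1 h)
  have h1 : ∑ s ∈ range l, jacobiSym (-((c + s * M : ℕ) : ℤ)) l =
      ∑ x : ZMod l, quadraticChar (ZMod l) (-(c + x * M)) := by
    refine sum_nbij' (fun s => (s : ZMod l)) ZMod.val (fun _ _ => mem_univ _)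
      (fun x _ => mem_range.2 (ZMod.val_lt x)) (fun s hs => ZMod.val_cast_of_lt (mem_range.1 hs))
      (fun x _ => ZMod.natCast_zmod_val x) fun s _ => ?_
    rw [← jacobiSym.legendreSym.to_jacobiSym, legendreSym]
    push_cast; rfl
  have h3 := ((Equiv.mulRight₀ (M : ZMod l) h0).trans ((Equiv.addLeft (c : ZMod l)).trans
    (Equiv.neg _))).sum_comp fun y => quadraticChar (ZMod l) y
  rw [quadraticChar_sum_zero (by rwa [ZMod.ringChar_zmod_n])] at h3
  exact_mod_cast h1.trans h3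

theorem abs_le (z : ℤ) (l : ℕ) : |(jacobiSym z l : ℝ)| ≤ 1 := by
  rcases jacobiSym.trichotomy z l with h | h | h <;> simp [h]

theorem prod_le {m : ℕ} (f : Fin m → ℕ) (z : ℤ) : ∏ i, (jacobiSym z (f i) : ℝ) ≤ 1 := by
  refine (le_abs_self _).trans ?_
  rw [abs_prod]
  exact prod_le_one (fun _ _ => abs_nonneg _) fun i _ => abs_le _ _

theorem single {m Y : ℕ} {f : Fin m → ℕ} (hf : ∀ i, (f i).Prime ∧ f i ≠ 2 ∧ f i ≤ Y) {i0 : Fin m}
    (h : ∀ i, i ≠ i0 → f i ≠ f i0) (X : ℕ) :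
    ∑ n ∈ range X, ∏ i, (jacobiSym (-(n : ℤ)) (f i) : ℝ) ≤ (Y : ℝ) ^ m := by
  set M := ∏ i ∈ univ.erase i0, f i with hM
  have e : f i0 * M = ∏ i, f i := mul_prod_erase _ _ (mem_univ _)
  have hnd : ¬ f i0 ∣ M := fun hd => by
    obtain ⟨i, hi, hd⟩ := ((hf i0).1.prime.dvd_finsetProd_iff _).1 hd
    exact h i (mem_erase.1 hi).1 ((Nat.prime_dvd_prime_iff_eq (hf i0).1 (hf i).1).1 hd).symm
  refine (sum_le_period (fun n => prod_le f _) (m := f i0 * M)
    (by rw [e]; exact prod_pos fun i _ => (hf i).1.pos) (fun a => ?_) X).trans ?_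
  · rw [sum_range_mul, sum_comm]
    refine sum_eq_zero fun j _ => ?_
    have h1 : ∀ s, ∏ i, (jacobiSym (-((a + (s * M + j) : ℕ) : ℤ)) (f i) : ℝ) =
        (jacobiSym (-((a + j + s * M : ℕ) : ℤ)) (f i0) : ℝ) *
          ∏ i ∈ univ.erase i0, (jacobiSym (-((a + j : ℕ) : ℤ)) (f i) : ℝ) := by
      intro s
      rw [← mul_prod_erase _ _ (mem_univ i0), show a + (s * M + j) = a + j + s * M by ring]
      congr 1
      refine prod_congr rfl fun i hi => ?_
      congr 1
      refine jacobiSym.mod_left' (Int.ModEq.neg ?_)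
      obtain ⟨t, ht⟩ : f i ∣ M := dvd_prod_of_mem _ hi
      rw [ht]
      exact (Int.modEq_iff_dvd.2 ⟨s * t, by push_cast; ring⟩).symm
    simp only [h1]
    rw [← sum_mul, leg_zero (hf i0).1 (hf i0).2.1 hnd, zero_mul]
  · have : ∏ i, f i ≤ Y ^ m := by
      simpa using prod_le_pow_card univ f Y fun i _ => (hf i).2.2
    rw [e]; exact_mod_cast this

theorem count (L : Finset ℕ) {h : ℕ} (h0 : 0 < h) :
    ((Fintype.piFinset fun _ : Fin (2 * h) => L).filter fun f =>
      ¬ ∃ i0, ∀ i, i ≠ i0 → f i ≠ f i0).card ≤ (h ^ 2 * L.card) ^ h := by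
  have h1 : ((Fintype.piFinset fun _ : Fin (2 * h) => L).filter fun f =>
      ¬ ∃ i0, ∀ i, i ≠ i0 → f i ≠ f i0) ⊆ ((univ : Finset (Fin (2 * h) → Fin h)) ×ˢ
        Fintype.piFinset fun _ : Fin h => L).image fun q => q.2 ∘ q.1 := by
    intro f hf
    obtain ⟨a1, a2⟩ := mem_filter.1 hf
    push Not at a2
    have a3 : 2 * (univ.image f).card ≤ (univ : Finset (Fin (2 * h))).card :=
      mul_card_image_le_card _ _ fun b hb => by
        obtain ⟨i, -, rfl⟩ := mem_image.1 hb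
        obtain ⟨i', b1, b2⟩ := a2 i
        exact one_lt_card.2 ⟨i', by simp [b2], i, by simp, b1⟩
    rw [card_univ, Fintype.card_fin] at a3
    obtain ⟨e⟩ := Function.Embedding.nonempty_of_card_le (α := univ.image f) (β := Fin h)
      (by rw [Fintype.card_coe, Fintype.card_fin]; omega)
    have : Nonempty (univ.image f) := ⟨⟨f ⟨0, by omega⟩, mem_image_of_mem _ (mem_univ _)⟩⟩
    refine mem_image.2 ⟨(fun i => e ⟨f i, mem_image_of_mem _ (mem_univ _)⟩,
      fun j => (Function.invFun e j).1), mem_product.2 ⟨mem_univ _,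
        Fintype.mem_piFinset.2 fun j => ?_⟩, funext fun i => ?_⟩
    · obtain ⟨i, -, hi⟩ := mem_image.1 (Function.invFun e j).2
      show (Function.invFun e j).1 ∈ L
      exact hi ▸ Fintype.mem_piFinset.1 a1 i
    · exact congrArg Subtype.val (Function.leftInverse_invFun e.injective _)
  refine (card_le_card h1).trans (card_image_le.trans (le_of_eq ?_))
  simp [mul_pow, ← pow_mul]

end MomP

open MomP in
theorem mom : S_Mom := by
  intro L Y X h hL
  rcases Nat.eq_zero_or_pos h with rfl | h0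
  · simp
  simp only [sum_pow']
  rw [sum_comm, ← sum_filter_add_sum_filter_not _ fun f : Fin (2 * h) → ℕ =>
    ¬ ∃ i0, ∀ i, i ≠ i0 → f i ≠ f i0]
  refine add_le_add ?_ ?_
  · refine (sum_le_card_nsmul _ _ (X : ℝ) fun f _ => sum_le_self (fun n => prod_le f _) X).trans ?_
    rw [nsmul_eq_mul, mul_comm]
    gcongr
    exact_mod_cast count L h0
  · refine (sum_le_card_nsmul _ _ ((Y : ℝ) ^ (2 * h)) fun f hf => ?_).trans ?_
    · obtain ⟨a1, a2⟩ := mem_filter.1 hf
      obtain ⟨i0, a3⟩ := not_not.1 a2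
      exact single (fun i => hL _ (Fintype.mem_piFinset.1 a1 i)) a3 X
    · rw [nsmul_eq_mul]
      gcongr
      exact_mod_cast (card_filter_le _ _).trans (le_of_eq (by simp))

end Pool.Agent.P.MP_c76d8c_an.AA
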