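import Pool.Agent.P.MP_c76d8c_an.AA.Defs

/-! The integers that are not rich are few. -/

namespace Pool.Agent.P.MP_c76d8c_an.AA

open Finset

namespace PowP

/-- the odd primes up to `4 ^ j` -/
def L0 (j : ℕ) : Finset ℕ := ((range (4 ^ j + 1)).filter Nat.Prime).erase 2

theorem mem_L0 {j l : ℕ} (h : l ∈ L0 j) : l.Prime ∧ l ≠ 2 ∧ l ≤ 4 ^ j := by
  obtain ⟨h1, h2⟩ := mem_erase.1 h
  obtain ⟨h3, h4⟩ := mem_filter.1 h2
  exact ⟨h4, h1, Nat.lt_succ_iff.1 (mem_range.1 h3)⟩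

theorem card_L0 {j : ℕ} (h1 : 1 ≤ j) (h2 : 10 * j ≤ 4 ^ j) : 4 ^ j ≤ 4 * j * (L0 j).card := by
  have a1 : Nat.primeCounting (4 ^ j) ≤ (L0 j).card + 1 := by
    rw [Nat.primeCounting, Nat.primeCounting', Nat.count_eq_card_filter_range]
    exact Nat.sub_le_iff_le_add.1
      (pred_card_le_card_erase (s := (range (4 ^ j + 1)).filter Nat.Prime) (a := 2))
  have a2 := Chebyshev.pi_ge (4 ^ j)
  have l2 := Real.log_two_gt_d9
  have e4 : ((4 ^ j : ℕ) : ℝ) = 2 ^ (2 * j) := by rw [pow_mul]; norm_num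
  have hj : (1 : ℝ) ≤ j := by exact_mod_cast h1
  have a3 : Real.log ((4 ^ j : ℕ) + 1) ≤ (2 * j + 1) * Real.log 2 := by
    have : ((4 ^ j : ℕ) : ℝ) + 1 ≤ 2 ^ (2 * j + 1) := by
      rw [e4, pow_succ]
      linarith [one_le_pow₀ (n := 2 * j) (one_le_two (α := ℝ))]
    refine (Real.log_le_log (by positivity) this).trans ?_
    rw [Real.log_pow]; push_cast; rfl
  have a4 : Real.log (4 ^ j : ℕ) = 2 * j * Real.log 2 := by rw [e4, Real.log_pow]; push_cast; rfl
  rw [a4, div_le_iff₀ (by positivity)] at a2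
  have a5 : (Nat.primeCounting (4 ^ j) : ℝ) ≤ (L0 j).card + 1 := by exact_mod_cast a1
  have a6 : ((4 ^ j : ℕ) : ℝ) - (2 * j + 1) ≤ ((L0 j).card + 1) * (2 * j) := by
    refine le_of_mul_le_mul_right ?_ (show 0 < Real.log 2 by linarith)
    have := mul_le_mul_of_nonneg_right a5 (show 0 ≤ 2 * j * Real.log 2 by positivity)
    linarith
  have a7 : (10 : ℝ) * j ≤ (4 ^ j : ℕ) := by exact_mod_cast h2
  have : ((4 ^ j : ℕ) : ℝ) ≤ 4 * j * (L0 j).card := by linarith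
  exact_mod_cast this

theorem card_dvd_le {L : Finset ℕ} (hL : ∀ l ∈ L, l.Prime) {n : ℕ} (hn : 1 ≤ n) :
    (L.filter (· ∣ n)).card ≤ Nat.log 2 n := by
  refine (Nat.le_log_iff_pow_le (by norm_num) (by omega)).2 ?_
  refine (pow_card_le_prod _ (fun l => l) 2 fun l hl => (hL l (mem_filter.1 hl).1).two_le).trans ?_
  refine Nat.le_of_dvd hn ((prod_dvd_prod_of_subset _ _ _ fun l hl => ?_).trans
    (Nat.prod_primeFactors_dvd n))
  exact Nat.mem_primeFactors.2 ⟨hL l (mem_filter.1 hl).1, (mem_filter.1 hl).2, by omega⟩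

open Classical in
theorem jac_le {n l : ℕ} (hl : l.Prime) (h2 : l ≠ 2) :
    (jacobiSym (-(n : ℤ)) l : ℝ) ≤
      2 * (if Split n l then 1 else 0) + 2 * (if l ∣ n then 1 else 0) - 1 := by
  have h1 : (jacobiSym (-(n : ℤ)) l : ℝ) ≤ 1 := by
    rcases jacobiSym.trichotomy (-(n : ℤ)) l with h | h | h <;> rw [h] <;> norm_num
  split_ifs with a b b
  · linarith
  · linarith
  · linarith
  · have := Fact.mk hl
    rw [← jacobiSym.legendreSym.to_jacobiSym, (legendreSym.eq_neg_one_iff l).2]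
    · norm_num
    rintro ⟨r, hr⟩
    obtain ⟨r, rfl⟩ := ZMod.intCast_surjective r
    refine a ⟨hl, h2, b, r, (ZMod.intCast_zmod_eq_zero_iff_dvd _ l).1 ?_⟩
    push_cast at hr ⊢
    linear_combination -hr

theorem W_le {j X n : ℕ} (hm : 8 * 2 ^ j ≤ (L0 j).card) (hn : n ∈ BadSet j X) :
    ∑ l ∈ L0 j, (jacobiSym (-(n : ℤ)) l : ℝ) ≤ -((L0 j).card / 2) := by
  classical
  obtain ⟨-, h1, h2, h3⟩ := mem_BadSet.1 hn
  refine (sum_le_sum fun l hl => jac_le (mem_L0 hl).1 (mem_L0 hl).2.1).trans ?_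
  rw [sum_sub_distrib, sum_add_distrib, ← mul_sum, ← mul_sum, sum_boole, sum_boole, sum_const,
    nsmul_eq_mul, mul_one]
  have a1 : ((L0 j).filter (Split n)).card ≤ 2 ^ j := le_of_not_ge fun h =>
    h3 ⟨_, h, fun l hl => ⟨(mem_L0 (mem_filter.1 hl).1).2.2, (mem_filter.1 hl).2⟩⟩
  have a2 := (card_dvd_le (L := L0 j) (fun l hl => (mem_L0 hl).1) h1).trans h2
  have a3 : 4 * ((L0 j).filter (Split n)).card + 4 * ((L0 j).filter (· ∣ n)).card ≤
      (L0 j).card := by omega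
  have a4 : (4 : ℝ) * ((L0 j).filter (Split n)).card + 4 * ((L0 j).filter (· ∣ n)).card ≤
      (L0 j).card := by exact_mod_cast a3
  linarith

theorem bad_le (H : S_Mom) {j X h : ℕ} (h1 : 1 ≤ h) (hm : 8 * h ^ 2 * 2 ^ j ≤ (L0 j).card) :
    ((BadSet j X).card : ℝ) ≤ X / 2 ^ (j * h) + 2 ^ ((4 * j + 2) * h) := by
  have hm' : 8 * 2 ^ j ≤ (L0 j).card :=
    le_trans (Nat.mul_le_mul_right _ (Nat.le_mul_of_pos_right _ (by positivity))) hm
  have a1 := H (L0 j) (4 ^ j) X h fun l hl => mem_L0 hl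
  have hm0 : (0 : ℝ) < (L0 j).card := by
    have : 0 < (L0 j).card := lt_of_lt_of_le (by positivity) hm'
    exact_mod_cast this
  have a2 : ((BadSet j X).card : ℝ) * ((L0 j).card / 2) ^ (2 * h) ≤
      ∑ n ∈ range X, (∑ l ∈ L0 j, (jacobiSym (-(n : ℤ)) l : ℝ)) ^ (2 * h) := by
    refine le_trans ?_ (sum_le_sum_of_subset_of_nonneg (s := BadSet j X)
      (fun n hn => mem_range.2 (mem_BadSet.1 hn).1) fun n _ _ => (even_two_mul h).pow_nonneg _)
    rw [← nsmul_eq_mul]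
    refine card_nsmul_le_sum _ _ _ fun n hn => ?_
    rw [← (even_two_mul h).neg_pow (∑ l ∈ L0 j, _)]
    exact pow_le_pow_left₀ (by positivity) (by linarith [W_le hm' hn]) _
  have a3 : (8 : ℝ) * h ^ 2 * 2 ^ j ≤ (L0 j).card := by exact_mod_cast hm
  generalize ((L0 j).card : ℝ) = m at a1 a2 a3 hm0
  refine le_of_mul_le_mul_right (a2.trans (a1.trans ?_)) (by positivity)
  rw [add_mul]
  refine add_le_add ?_ (le_of_eq ?_)
  · rw [div_mul_eq_mul_div, mul_div_assoc, pow_mul, pow_mul, ← div_pow]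
    gcongr
    rw [le_div_iff₀ (by positivity)]
    nlinarith [mul_le_mul_of_nonneg_left a3 hm0.le, sq_nonneg m]
  · rw [show (4 * j + 2) * h = (2 * j + 1) * (2 * h) by ring, pow_mul (2 : ℝ) (2 * j + 1), ← mul_pow,
      ← mul_pow, pow_succ (2 : ℝ), pow_mul (2 : ℝ) 2 j]
    congr 1
    push_cast
    norm_num
    ring

theorem level (H : S_Mom) {j X g : ℕ} (hg : 10 ≤ g) (h1 : 20 * j ≤ g) (h2 : g ^ 3 ≤ 27 * 2 ^ j) :
    ((BadSet j X).card : ℝ) ≤ X / 2 ^ (g / 24) + 2 ^ (g / 2) := by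
  have hj : 1 ≤ j := by
    rcases Nat.eq_zero_or_pos j with rfl | h
    · have := Nat.pow_le_pow_left hg 3
      omega
    · exact h
  obtain ⟨h, hh⟩ : ∃ h, h = g / (8 * j + 4) := ⟨_, rfl⟩
  have b1 : h * (8 * j + 4) ≤ g := hh ▸ Nat.div_mul_le_self _ _
  have b2 : g < h * (8 * j + 4) + (8 * j + 4) := hh ▸ Nat.lt_div_mul_add (by omega)
  have b3 : 1 ≤ h := hh ▸ Nat.div_pos (by omega) (by omega)
  have b4 : 8 * (j * h) ≤ g := by nlinarith
  have b5 : 12 * h ≤ g := by nlinarith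
  have b6 : 32 * (j * h ^ 2) ≤ 2 ^ j := by
    have c1 : 96 * (j * h ^ 2) ≤ g ^ 2 := by nlinarith [Nat.mul_le_mul b4 b5]
    have c2 : 10 * g ^ 2 ≤ g ^ 3 := by nlinarith [Nat.mul_le_mul_right (g ^ 2) hg]
    omega
  have b7 : 10 * j ≤ 4 ^ j := by
    have c1 : j ≤ j * h ^ 2 := Nat.le_mul_of_pos_right _ (by positivity)
    have c2 : 2 ^ j ≤ 4 ^ j := Nat.pow_le_pow_left (by norm_num) _
    omega
  have b8 : 8 * h ^ 2 * 2 ^ j ≤ (L0 j).card := by
    refine Nat.le_of_mul_le_mul_left (le_trans ?_ (card_L0 hj b7)) (show 0 < 4 * j by omega)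
    calc 4 * j * (8 * h ^ 2 * 2 ^ j) = 32 * (j * h ^ 2) * 2 ^ j := by ring
      _ ≤ 2 ^ j * 2 ^ j := by gcongr
      _ = 4 ^ j := (mul_pow 2 2 j).symm
  refine (bad_le H b3 b8).trans (add_le_add ?_ (pow_le_pow_right₀ one_le_two ?_))
  · refine div_le_div_of_nonneg_left (by positivity) (by positivity)
      (pow_le_pow_right₀ one_le_two ?_)
    have : g ≤ 24 * (j * h) := by nlinarith [Nat.mul_le_mul hj b3]
    omega
  · exact (Nat.le_div_iff_mul_le (by norm_num)).2 (by nlinarith)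

open Classical in
theorem count (H : S_Mom) {X : ℕ} (hX : 1 ≤ X) :
    (((range X).filter fun n => ¬ Rich n).card : ℝ) ≤ 97 * X / 2 ^ (Nat.log 2 X / 48) := by
  obtain ⟨g, hg⟩ : ∃ g, g = Nat.log 2 X := ⟨_, rfl⟩
  rw [← hg]
  have hX0 : (0 : ℝ) < X := by exact_mod_cast hX
  rcases lt_or_ge g 10 with h | h
  · rw [Nat.div_eq_of_lt (by omega), pow_zero, div_one]
    have : ((range X).filter fun n => ¬ Rich n).card ≤ X := (card_filter_le _ _).trans (by simp)
    have : (((range X).filter fun n => ¬ Rich n).card : ℝ) ≤ X := by exact_mod_cast this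
    linarith
  let J := (range (g + 1)).filter fun j => 20 * j ≤ g ∧ g ^ 3 ≤ 27 * 2 ^ j
  have hs : ((range X).filter fun n => ¬ Rich n) ⊆
      range (2 ^ (g / 2)) ∪ J.biUnion fun j => BadSet j X := by
    intro n hn
    obtain ⟨a1, a2⟩ := mem_filter.1 hn
    rw [mem_range] at a1
    rcases lt_or_ge n (2 ^ (g / 2)) with a3 | a3
    · exact mem_union_left _ (mem_range.2 a3)
    have n1 : 1 ≤ n := le_trans Nat.one_le_two_pow a3
    have a4 : g / 2 ≤ Nat.log 2 n := (Nat.le_log_iff_pow_le (by norm_num) (by omega)).2 a3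
    unfold Rich at a2
    push Not at a2
    obtain ⟨j, b1, b2, b3⟩ := a2
    have b4 : 20 * j ≤ g := by
      rw [hg, Nat.le_log_iff_pow_le (by norm_num) (by omega)]
      refine le_trans (le_of_eq ?_) (b2.trans a1.le)
      rw [show 20 * j = 2 * (10 * j) by ring, pow_mul]
      rfl
    have b5 : g ^ 3 ≤ 27 * 2 ^ j := by
      calc g ^ 3 ≤ (3 * Nat.log 2 n) ^ 3 := Nat.pow_le_pow_left (by omega) _
        _ = 27 * Nat.log 2 n ^ 3 := by ring
        _ ≤ _ := by gcongr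
    refine mem_union_right _ (mem_biUnion.2 ⟨j, mem_filter.2 ⟨mem_range.2 (by omega), b4, b5⟩,
      mem_BadSet.2 ⟨a1, n1, (Nat.le_self_pow (by norm_num) _).trans b1, ?_⟩⟩)
    rintro ⟨L, c1, c2⟩
    obtain ⟨l, hl, c3⟩ := b3 L c1
    obtain ⟨d1, d2, d3, d4, r, d5⟩ := c2 l hl
    exact c3 d1 d2 d3 d4 r d5
  have a1 : (2 : ℝ) ^ (g / 2) ≤ X / 2 ^ (g / 24) := by
    rw [le_div_iff₀ (by positivity), ← pow_add]
    have : 2 ^ (g / 2 + g / 24) ≤ X :=
      (Nat.pow_le_pow_right (by norm_num) (by omega)).trans (Nat.pow_log_le_self 2 (by omega))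
    exact_mod_cast this
  have a2 : (((range X).filter fun n => ¬ Rich n).card : ℝ) ≤
      2 ^ (g / 2) + ∑ j ∈ J, ((BadSet j X).card : ℝ) := by
    have := (card_le_card hs).trans ((card_union_le _ _).trans
      (Nat.add_le_add_left card_biUnion_le _))
    rw [card_range] at this
    exact_mod_cast this
  have a3 : ∑ j ∈ J, ((BadSet j X).card : ℝ) ≤ (g + 1 : ℕ) * (2 * (X / 2 ^ (g / 24))) := by
    refine (sum_le_card_nsmul _ _ (2 * ((X : ℝ) / 2 ^ (g / 24))) fun j hj => ?_).trans ?_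
    · have := level H (X := X) h (mem_filter.1 hj).2.1 (mem_filter.1 hj).2.2
      linarith
    · rw [nsmul_eq_mul]
      gcongr
      exact (card_filter_le _ _).trans (by simp)
  have a4 : ((2 * g + 3 : ℕ) : ℝ) ≤ 97 * 2 ^ (g / 48) := by
    have : g / 48 < 2 ^ (g / 48) := Nat.lt_two_pow_self
    have : 2 * g + 3 ≤ 97 * 2 ^ (g / 48) := by omega
    exact_mod_cast this
  have a5 : (X : ℝ) / 2 ^ (g / 24) ≤ X / (2 ^ (g / 48) * 2 ^ (g / 48)) := by
    rw [← pow_add]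
    exact div_le_div_of_nonneg_left hX0.le (by positivity)
      (pow_le_pow_right₀ one_le_two (by omega))
  calc _ ≤ ((2 * g + 3 : ℕ) : ℝ) * (X / 2 ^ (g / 24)) := by push_cast at a3 ⊢; linarith
    _ ≤ 97 * 2 ^ (g / 48) * (X / (2 ^ (g / 48) * 2 ^ (g / 48))) := by gcongr
    _ = _ := by field_simp

end PowP

theorem pow_saving (h : S_Mom) : S_Pow := by
  classical
  refine ⟨1 / 48, 194, by norm_num, fun X => ?_⟩
  have e : ({n | n < X ∧ ¬ Rich n} : Set ℕ) = ((range X).filter fun n => ¬ Rich n : Finset ℕ) := by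
    ext n; simp
  rw [e, Set.ncard_coe_finset]
  rcases Nat.eq_zero_or_pos X with rfl | hX
  · rw [range_zero, filter_empty, card_empty, Nat.cast_zero]
    positivity
  have hX0 : (0 : ℝ) < X := by exact_mod_cast hX
  refine (PowP.count h hX).trans ?_
  have a1 : (X : ℝ) ^ (1 / 48 : ℝ) ≤ 2 * 2 ^ (Nat.log 2 X / 48) := by
    have b1 : X ≤ (2 * 2 ^ (Nat.log 2 X / 48)) ^ 48 := by
      rw [← pow_succ', ← pow_mul]
      exact (Nat.lt_pow_succ_log_self (by norm_num) X).le.trans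
        (Nat.pow_le_pow_right (by norm_num) (by omega))
    have b2 : (X : ℝ) ≤ (2 * 2 ^ (Nat.log 2 X / 48)) ^ 48 := by exact_mod_cast b1
    refine (Real.rpow_le_rpow hX0.le b2 (by norm_num)).trans (le_of_eq ?_)
    rw [← Real.rpow_natCast, ← Real.rpow_mul (by positivity)]
    norm_num
  rw [Real.rpow_sub hX0, Real.rpow_one, ← mul_div_assoc, div_le_div_iff₀ (by positivity)
    (by positivity)]
  nlinarith [mul_le_mul_of_nonneg_left a1 hX0.le]

end Pool.Agent.P.MP_c76d8c_an.AA
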